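import Pool.Agent.Y106.CK.Fixed

/-!
# The Chow motives of the fixed parts of different fibres are isomorphic
-/

open CategoryTheory AlgebraicGeometry

set_option linter.unusedSectionVars false

universe u v w

namespace Pool.Agent.Y106.CK

open Pool.Agent.H914 Pool.Agent.H914.VarClass Pool.Agent.H914.VarClass.Obj
  Pool.Agent.H914.WeilCohomology Pool.Agent.W492.BB Pool.Agent.W492.BB.TheoryData
  Pool.Agent.W550.Corr Pool.Agent.TH133 Pool.Agent.W498.Dom Pool.Agent.Y106.FP
  Pool.Agent.Y106.Fib Pool.Agent.Y140.Fib Pool.Agent.W534 Pool.Agent.H447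

variable {k : Type u} [Field k] {𝒱 : VarClass k} {ops : CycleOps 𝒱}

variable {C : TheoryData.{u, w, 0} 𝒱 ℚ} [hC : IsChowProj C] {W : WeilCohomology.{u, v} ops}
  (R : CycleClasses C W) {Z S F F' : 𝒱.Obj} {i : F ⟶ Z} {i' : F' ⟶ Z}

include hC

omit hC in
/-- A nilpotent idempotent is zero. -/
lemma eq_zero_of_idem {A : Type*} [Ring A] {d : A} (hd : d * d = d) (h : IsNilpotent d) :
    d = 0 := by
  obtain ⟨n, hn⟩ := h
  have h1 : ∀ n : ℕ, d ^ (n + 1) = d := by
    intro n
    induction n with
    | zero => rw [zero_add, pow_one]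
    | succ n ih => rw [pow_succ, ih, hd]
  rw [← h1 n, pow_succ, hn, zero_mul]

/-- Morphisms between two motives which factor through `Z`, inverse to each other in the
cohomology, give an isomorphism of motives. -/
theorem exists_isoPair (hN : NilHomTrivial R Z) (hd : F.dim = F'.dim)
    {e : C.A (F.prod F)} {e' : C.A (F'.prod F')} {a : C.A (F.prod Z)} {b : C.A (Z.prod F)}
    {a' : C.A (F'.prod Z)} {b' : C.A (Z.prod F')}
    (ha : a ∈ C.gr (F.prod Z) F.dim) (hb : b ∈ C.gr (Z.prod F) Z.dim)
    (ha' : a' ∈ C.gr (F'.prod Z) F'.dim) (hb' : b' ∈ C.gr (Z.prod F') Z.dim)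
    (he : C.comp a b = e) (he' : C.comp a' b' = e') (hee : C.comp e e = e)
    (hee' : C.comp e' e' = e') {t : C.A (F.prod F')} {t' : C.A (F'.prod F)}
    (ht : t ∈ C.gr (F.prod F') F.dim) (ht' : t' ∈ C.gr (F'.prod F) F'.dim)
    (h1 : ∀ y, act R e (act R t' (act R e' (act R t (act R e y)))) = act R e y)
    (h2 : ∀ y, act R e' (act R t (act R e (act R t' (act R e' y)))) = act R e' y) :
    ∃ v, IsIsoPair C e e' (C.comp (C.comp e t) e') v ∧
      ∀ y, act R v y = act R e (act R t' (act R e' y)) := by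
  have hem : e ∈ C.gr (F.prod F) F.dim := by
    rw [← he]; exact comp_mem_of ha hb (by ring)
  have hem' : e' ∈ C.gr (F'.prod F') F'.dim := by
    rw [← he']; exact comp_mem_of ha' hb' (by ring)
  obtain ⟨u, hu⟩ : ∃ u, u = C.comp (C.comp e t) e' := ⟨_, rfl⟩
  obtain ⟨v₀, hv₀⟩ : ∃ v₀, v₀ = C.comp (C.comp e' t') e := ⟨_, rfl⟩
  have hum : u ∈ C.gr (F.prod F') F.dim := by
    rw [hu]
    exact comp_mem_of (comp_mem_of hem ht (e'' := F.dim) (by ring)) hem' (by rw [hd]; ring)
  have hvm : v₀ ∈ C.gr (F'.prod F) F'.dim := by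
    rw [hv₀]
    exact comp_mem_of (comp_mem_of hem' ht' (e'' := F'.dim) (by ring)) hem (by rw [hd]; ring)
  have eu : C.comp e u = u := by rw [hu, ← comp_assoc, ← comp_assoc, hee]
  have ue : C.comp u e' = u := by rw [hu, comp_assoc C _ e' e', hee']
  have ev : C.comp e' v₀ = v₀ := by rw [hv₀, ← comp_assoc, ← comp_assoc, hee']
  have ve : C.comp v₀ e = v₀ := by rw [hv₀, comp_assoc C _ e e, hee]
  -- the nilpotent element
  obtain ⟨y, hy⟩ : ∃ y : Cor C F, y = cor (C.comp u v₀) - cor e := ⟨_, rfl⟩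
  have hynil : IsNilpotent y := by
    have h3 : C.comp (C.comp (C.comp u (C.comp e' t')) a - a) b = unc y := by
      rw [hy, sub_comp, unc_sub, unc_cor, unc_cor, he, comp_assoc C _ a b, he, hv₀,
        ← comp_assoc C u (C.comp e' t') e]
    have h4 : IsNilpotent (cor (C.comp (C.comp (C.comp u (C.comp e' t')) a - a) b)) := by
      apply isNilpotent_of_factor R hN _ hb
      · apply LinearMap.ext
        intro x
        rw [h3, hy, unc_sub, unc_cor, unc_cor, sub_eq_add_neg, ← neg_one_smul ℚ e, act_add',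
          act_smul', LinearMap.add_apply, LinearMap.smul_apply, act_comp_apply, hv₀, hu,
          act_comp_apply, act_comp_apply, act_comp_apply, act_comp_apply]
        have h5 : act R e' (act R e' (act R t (act R e x))) = act R e' (act R t (act R e x)) := by
          rw [← act_comp_apply, hee']
        rw [h5, h1, Rat.cast_neg, Rat.cast_one, neg_one_smul, add_neg_cancel,
          LinearMap.zero_apply]
      · refine Submodule.sub_mem _ ?_ ha
        exact comp_mem_of (comp_mem_of hum (comp_mem_of hem' ht' (e'' := F'.dim) (by ring))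
          (e'' := F.dim) (by ring)) ha (by ring)
    rw [h3, cor_unc] at h4
    exact h4
  have hey : cor e * y = y := by
    rw [hy, mul_sub, ← cor_comp, ← cor_comp, hee, comp_assoc C u v₀ e, ve]
  have hye : y * cor e = y := by
    rw [hy, sub_mul, ← cor_comp, ← cor_comp, hee, ← comp_assoc C e u v₀, eu]
  obtain ⟨s, hs⟩ := hynil.isUnit_one_add
  have hs1 : (1 + y) * ((s⁻¹ : (Cor C F)ˣ) : Cor C F) = 1 := by rw [← hs]; exact s.mul_inv
  have hs2 : ((s⁻¹ : (Cor C F)ˣ) : Cor C F) * (1 + y) = 1 := by rw [← hs]; exact s.inv_mul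
  obtain ⟨r, hr⟩ : ∃ r : Cor C F, r = ((s⁻¹ : (Cor C F)ˣ) : Cor C F) := ⟨_, rfl⟩
  rw [← hr] at hs1 hs2
  have huv : cor (C.comp u v₀) = (1 + y) * cor e := by
    rw [add_mul, one_mul, hye, hy]; abel
  have huv' : cor (C.comp u v₀) = cor e * (1 + y) := by
    rw [mul_add, mul_one, hey, hy]; abel
  have hre : r * cor e = cor e * r := by
    have h3 : cor e * (1 + y) = (1 + y) * cor e := by rw [← huv, huv']
    calc r * cor e = r * cor e * ((1 + y) * r) := by rw [hs1, mul_one]
      _ = r * (cor e * (1 + y)) * r := by simp only [mul_assoc]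
      _ = r * ((1 + y) * cor e) * r := by rw [h3]
      _ = (r * (1 + y)) * cor e * r := by simp only [mul_assoc]
      _ = cor e * r := by rw [hs2, one_mul]
  -- the degree of `r`
  have hrm : r ∈ cor0 C F := by
    have hym : y ∈ cor0 C F := by
      rw [hy]
      refine Subalgebra.sub_mem _ ?_ hem
      exact comp_mem_of hum hvm (by rw [hd]; ring)
    obtain ⟨n, hn⟩ := hynil
    have h3 : (1 + y) * ∑ l ∈ Finset.range n, (-y) ^ l = 1 := by
      have := mul_neg_geom_sum (-y) n
      rw [sub_neg_eq_add] at this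
      rw [this, neg_pow, hn, mul_zero, sub_zero]
    have h4 : r = ∑ l ∈ Finset.range n, (-y) ^ l := by
      calc r = r * ((1 + y) * ∑ l ∈ Finset.range n, (-y) ^ l) := by rw [h3, mul_one]
        _ = _ := by rw [← mul_assoc, hs2, one_mul]
    rw [h4]
    exact Subalgebra.sum_mem _ fun l _ => Subalgebra.pow_mem _ (Subalgebra.neg_mem _ hym) l
  have hrm' : unc r ∈ C.gr (F.prod F) F.dim := hrm
  -- the action of `r`
  have hyact : ∀ x, act R (unc y) x = 0 := by
    intro x
    rw [hy, unc_sub, unc_cor, unc_cor, sub_eq_add_neg, ← neg_one_smul ℚ e, act_add',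
      act_smul', LinearMap.add_apply, LinearMap.smul_apply, act_comp_apply, hv₀, hu,
      act_comp_apply, act_comp_apply, act_comp_apply, act_comp_apply]
    have h5 : act R e' (act R e' (act R t (act R e x))) = act R e' (act R t (act R e x)) := by
      rw [← act_comp_apply, hee']
    rw [h5, h1, Rat.cast_neg, Rat.cast_one, neg_one_smul, add_neg_cancel]
  have hract : ∀ x, act R (unc r) x = x := by
    intro x
    have h3 : actR R F ((1 + y) * r) x = x := by
      rw [hs1, map_one]; rfl
    rw [map_mul, map_add, map_one, Module.End.mul_apply, LinearMap.add_apply, actR_unc R y,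
      hyact, add_zero] at h3
    exact h3
  have hvact : ∀ x, act R v₀ x = act R e (act R t' (act R e' x)) := by
    intro x
    rw [hv₀, act_comp_apply, act_comp_apply]
  obtain ⟨v, hv⟩ : ∃ v, v = C.comp v₀ (unc r) := ⟨_, rfl⟩
  have huv1 : C.comp u v = e := by
    rw [hv, ← comp_assoc]
    have h3 : cor (C.comp (C.comp u v₀) (unc r)) = cor e := by
      rw [cor_comp, cor_unc, huv, ← mul_assoc, hs2, one_mul]
    exact h3
  have hev' : C.comp e' v = v := by rw [hv, ← comp_assoc, ev]
  have hve' : C.comp v e = v := by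
    rw [hv, comp_assoc C v₀]
    have h3 : C.comp (unc r) e = C.comp e (unc r) := by
      have h4 : cor (C.comp (unc r) e) = cor (C.comp e (unc r)) := by
        rw [cor_comp, cor_comp, cor_unc, hre]
      exact h4
    rw [h3, ← comp_assoc, ve]
  have hvact' : ∀ x, act R v x = act R e (act R t' (act R e' x)) := by
    intro x
    rw [hv, act_comp_apply, hract, hvact]
  have hvu : C.comp v u = e' := by
    obtain ⟨d, hd'⟩ : ∃ d : Cor C F', d = cor e' - cor (C.comp v u) := ⟨_, rfl⟩
    have h3 : d * d = d := by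
      have i1 : cor e' * cor e' = cor e' := by rw [← cor_comp, hee']
      have i2 : cor e' * cor (C.comp v u) = cor (C.comp v u) := by
        rw [← cor_comp, comp_assoc, ue]
      have i3 : cor (C.comp v u) * cor e' = cor (C.comp v u) := by
        rw [← cor_comp, ← comp_assoc, hev']
      have i4 : cor (C.comp v u) * cor (C.comp v u) = cor (C.comp v u) := by
        rw [← cor_comp, comp_assoc, ← comp_assoc C u v u, huv1, eu]
      rw [hd', sub_mul, mul_sub, mul_sub, i1, i2, i3, i4, sub_self, sub_zero]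
    have h4 : C.comp (a' - C.comp (C.comp v (C.comp e t)) a') b' = unc d := by
      rw [hd', sub_comp, unc_sub, unc_cor, unc_cor, he', comp_assoc C _ a' b', he', hu,
        comp_assoc C v (C.comp e t) e']
    have h5 : IsNilpotent (cor (C.comp (a' - C.comp (C.comp v (C.comp e t)) a') b')) := by
      apply isNilpotent_of_factor R hN _ hb'
      · apply LinearMap.ext
        intro x
        rw [h4, hd', unc_sub, unc_cor, unc_cor, sub_eq_add_neg, ← neg_one_smul ℚ (C.comp v u),
          act_add', act_smul', LinearMap.add_apply, LinearMap.smul_apply, act_comp_apply, hvact',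
          hu, act_comp_apply, act_comp_apply]
        have h6 : act R e (act R e (act R t' (act R e' x))) =
            act R e (act R t' (act R e' x)) := by
          rw [← act_comp_apply, hee]
        rw [h6, h2, Rat.cast_neg, Rat.cast_one, neg_one_smul, add_neg_cancel,
          LinearMap.zero_apply]
      · refine Submodule.sub_mem _ ha' ?_
        have hvm' : v ∈ C.gr (F'.prod F) F'.dim := by
          rw [hv]; exact comp_mem_of hvm hrm' (by ring)
        exact comp_mem_of (comp_mem_of hvm' (comp_mem_of hem ht (e'' := F.dim) (by ring))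
          (e'' := F'.dim) (by ring)) ha' (by ring)
    rw [h4, cor_unc] at h5
    have h6 := eq_zero_of_idem h3 h5
    rw [hd', sub_eq_zero] at h6
    exact h6.symm
  rw [← hu]
  refine ⟨v, ⟨hum, ?_, ?_, ?_, huv1, hvu⟩, hvact'⟩
  · change v ∈ C.gr (F'.prod F) F'.dim
    rw [hv]; exact comp_mem_of hvm hrm' (by ring)
  · rw [eu, ue]
  · rw [hev', hve']

/-- **The motives of the fixed parts of two fibres are isomorphic.** -/
theorem isoPair_fixed (hN : NilHomTrivial R Z) (hd : F.dim = F'.dim)
    {ρ : ℕ → C.A (F.prod F)} {ρ' : ℕ → C.A (F'.prod F')} (hρ : IsFixedSystem R i ρ)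
    (hρ' : IsFixedSystem R i' ρ') {τ τ' : C.A (Z.prod Z)} (hτ : τ ∈ C.gr (Z.prod Z) F.dim)
    (hτ' : τ' ∈ C.gr (Z.prod Z) F'.dim)
    (ht : ∀ x, act R (C.pull (prodMap i i') τ) (W.map i x) = W.map i' x)
    (ht' : ∀ x, act R (C.pull (prodMap i' i) τ') (W.map i' x) = W.map i x) (j : ℕ) :
    ∃ u v, IsIsoPair C (ρ j) (ρ' j) u v ∧
      (∀ x ∈ W.gr Z j, act R u (W.map i x) = W.map i' x ∧ act R v (W.map i' x) = W.map i x) := by
  obtain ⟨σ, hσ, hσ'⟩ := hρ.exists_restr j
  obtain ⟨κ, hκ, hκ'⟩ := hρ'.exists_restr j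
  have e1 : ∀ x ∈ W.gr Z j, act R (ρ j) (W.map i x) = W.map i x := fun x hx => by
    rw [(hρ.isFixedProjector j).apply j x hx, if_pos rfl]
  have e1' : ∀ x ∈ W.gr Z j, act R (ρ' j) (W.map i' x) = W.map i' x := fun x hx => by
    rw [(hρ'.isFixedProjector j).apply j x hx, if_pos rfl]
  have hσ'' : ρ j = C.comp (C.comp (C.graph i) σ) (C.cograph i) := by
    rw [← restr_eq]; exact hσ'
  have hκ'' : ρ' j = C.comp (C.comp (C.graph i') κ) (C.cograph i') := by
    rw [← restr_eq]; exact hκ'
  obtain ⟨v, hv, hvact⟩ := exists_isoPair R hN hd (e := ρ j) (e' := ρ' j)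
    (a := C.comp (C.graph i) σ) (b := C.cograph i) (a' := C.comp (C.graph i') κ)
    (b' := C.cograph i') (comp_mem_of (graph_mem i) hσ (by ring)) (cograph_mem i)
    (comp_mem_of (graph_mem i') hκ (by ring)) (cograph_mem i') hσ''.symm hκ''.symm
    (by rw [hρ.comp, if_pos rfl]) (by rw [hρ'.comp, if_pos rfl])
    (t := C.pull (prodMap i i') τ) (t' := C.pull (prodMap i' i) τ') (C.pull_mem _ hτ)
    (C.pull_mem _ hτ')
    (fun y => by
      obtain ⟨x, hx, hx'⟩ := hρ.exists_apply R j y
      rw [hx', ht, e1' x hx, ht', e1 x hx])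
    (fun y => by
      obtain ⟨x, hx, hx'⟩ := hρ'.exists_apply R j y
      rw [hx', ht', e1 x hx, ht, e1' x hx])
  refine ⟨_, v, hv, fun x hx => ⟨?_, ?_⟩⟩
  · rw [act_comp_apply, act_comp_apply, e1 x hx, ht, e1' x hx]
  · rw [hvact, e1' x hx, ht', e1 x hx]

end Pool.Agent.Y106.CK
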