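import Pool.Agent.Y106.CK.Dec
import Pool.Agent.Y106.CK.Iso

/-!
# Chow motives of the fixed part, and Chow-Kunneth decompositions of fibres
-/

open CategoryTheory AlgebraicGeometry

universe u v w

namespace Pool.Agent.Y106.CK

open Pool.Agent.H914 Pool.Agent.H914.VarClass Pool.Agent.H914.VarClass.Obj
  Pool.Agent.H914.WeilCohomology Pool.Agent.W492.BB Pool.Agent.W492.BB.TheoryData
  Pool.Agent.W550.Corr Pool.Agent.TH133 Pool.Agent.W498.Dom Pool.Agent.Y106.FP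
  Pool.Agent.Y106.Fib Pool.Agent.Y140.Fib Pool.Agent.W534 Pool.Agent.H447 Pool.Agent.W550.B

/-- The main theorem. -/
theorem top {k : Type u} [Field k] {𝒱 : VarClass k} {ops : CycleOps 𝒱}
    {C : TheoryData.{u, w, 0} 𝒱 ℚ} [IsChowProj C] {W : WeilCohomology.{u, v} ops}
    (R : CycleClasses C W) {Z S : 𝒱.Obj} {g : Z ⟶ S} {G : S.Cycles} {E D : Z.Cycles}
    (hG : S.IsCyc 1 G) (hE : Z.IsCyc 1 E) (Q : PerverseDecomposition W g G E)
    (hD : IsLefschetzDivisor W Z D) (hB : LefschetzB W Z D) (hN : NilHomTrivial R Z) :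
    (∀ (F : 𝒱.Obj) (i : F ⟶ Z), IsFibre Q i → ∃ ρ, IsFixedSystem R i ρ) ∧
    (∀ (F F' : 𝒱.Obj) (i : F ⟶ Z) (i' : F' ⟶ Z) (ρ : ℕ → C.A (F.prod F))
      (ρ' : ℕ → C.A (F'.prod F')), IsFibre Q i → IsFibre Q i' → IsFixedSystem R i ρ →
      IsFixedSystem R i' ρ' → ∀ j, ∃ u v, IsIsoPair C (ρ j) (ρ' j) u v ∧
        ∀ x ∈ W.gr Z j, act R u (W.map i x) = W.map i' x ∧ act R v (W.map i' x) = W.map i x) ∧
    (∀ (F : 𝒱.Obj) (i : F ⟶ Z) (ρ : ℕ → C.A (F.prod F)), IsFibre Q i → IsFixedSystem R i ρ →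
      FixedOrAlgebraic W i → ∃ π, IsCKDec R F π ∧
        ∀ j, C.comp (π j) (ρ j) = ρ j ∧ C.comp (ρ j) (π j) = ρ j) := by
  obtain ⟨⟨T, hTq, hT⟩, -, -⟩ := exists_ops Q hG hE hD hB
  have hK : ∀ j, ROp W Z 0 (proj (W.isInternal Z) j) := by
    obtain ⟨Φ, hΦ, hLam⟩ := lefschetzB_iff_rop.1 hB
    exact fun j => rop_opAlg.proj_mem (W.isInternal Z) W_hbd (rop_mulLeft hD.1) hD.2 hΦ hLam j
  refine ⟨fun F i hi => exists_fixedSystem R hG hE hN hi hT hTq hK, ?_, ?_⟩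
  · intro F F' i i' ρ ρ' hi hi' hρ hρ' j
    obtain ⟨τ, hτ, ht⟩ := exists_transport (C := C) R hG hE hi hi' hT hTq
    obtain ⟨τ', hτ', ht'⟩ := exists_transport (C := C) R hG hE hi' hi hT hTq
    have hd : F.dim = F'.dim := by
      have h1 := hi.dim_eq
      have h2 := hi'.dim_eq
      omega
    exact isoPair_fixed R hN hd hρ hρ' hτ hτ' ht ht' j
  · intro F i ρ _ hρ hF
    exact exists_ck hρ hF

end Pool.Agent.Y106.CK
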