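import Pool.Agent.TH133.Defs
import Pool.Agent.Y106.FP.Defs

/-!
# Chow motives and the fixed part of the cohomology of a fibre: definitions
-/

open CategoryTheory AlgebraicGeometry

universe u v w

namespace Pool.Agent.Y106.CK

open Pool.Agent.H914 Pool.Agent.H914.VarClass Pool.Agent.H914.VarClass.Obj
  Pool.Agent.H914.WeilCohomology Pool.Agent.W492.BB Pool.Agent.W550.Corr Pool.Agent.TH133
  Pool.Agent.W498.Dom Pool.Agent.Y106.FP

variable {k : Type u} [Field k] {𝒱 : VarClass k} {ops : CycleOps 𝒱}

/-- The rings `A(X)` of the theory `C` are formed from the cycles with rational coefficients: `of`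
sends a cycle of codimension `p` to its class in `A^p(X)`, every element of `A^p(X)` is such a
class, and the cohomology class of a cycle depends only on its class in `A(X)`, by ring
homomorphisms `cl` compatible with pull-backs and push-forwards. In the intended use `A(X)` is the
Chow ring of `X` with rational coefficients. -/
structure CycleClasses (C : TheoryData.{u, w, 0} 𝒱 ℚ) (W : WeilCohomology.{u, v} ops) where
  /-- the class of a cycle -/
  of : ∀ {X : 𝒱.Obj}, X.Cycles →+ C.A X
  /-- the cohomology class of an element of `A(X)` -/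
  cl : ∀ {X : 𝒱.Obj}, C.A X →+* W.H X
  of_mem : ∀ {X : 𝒱.Obj} {p : ℕ} {z : X.Cycles}, X.IsCyc p z → C.Deg (X := X) p (of z)
  exists_of : ∀ {X : 𝒱.Obj} {p : ℕ} {x : C.A X}, C.Deg p x → ∃ z, X.IsCyc p z ∧ of z = x
  cl_of : ∀ {X : 𝒱.Obj} (z : X.Cycles), cl (of z) = W.cl X z
  cl_pull : ∀ {X Y : 𝒱.Obj} (f : X ⟶ Y) (y : C.A Y), cl (C.up f y) = W.map f (cl y)
  cl_push : ∀ {X Y : 𝒱.Obj} (f : X ⟶ Y) (x : C.A X), cl (C.down f x) = W.push f (cl x)

variable {C : TheoryData.{u, w, 0} 𝒱 ℚ} {W : WeilCohomology.{u, v} ops}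

/-- The map `H(X) → H(Y)` induced by the correspondence `Γ`. -/
noncomputable def act (R : CycleClasses C W) {X Y : 𝒱.Obj} (Γ : C.A (X.prod Y)) :
    W.H X →ₗ[W.K] W.H Y :=
  W.corr (R.cl Γ)

/-- The self-correspondence `γ` of `X` is nilpotent: for some `N` the composition of `N` copies of
`γ` is zero. -/
def IsNilp (C : TheoryData.{u, w, 0} 𝒱 ℚ) {X : 𝒱.Obj} (γ : C.A (X.prod X)) : Prop :=
  ∃ N, compList C X (List.replicate N γ) = 0

/-- The homologically trivial self-correspondences of degree zero of `X` are nilpotent (for the Chow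
groups this holds if the motive of `X` is finite-dimensional in the sense of Kimura). -/
def NilHomTrivial (R : CycleClasses C W) (X : 𝒱.Obj) : Prop :=
  ∀ γ : C.A (X.prod X), C.Deg X.dim γ → R.cl γ = 0 → IsNilp C γ

/-- The family `π` is a Chow-Kunneth decomposition of `X`: mutually orthogonal idempotent
self-correspondences of degree zero with sum the diagonal (`π i = 0` for `i > 2 dim X`), such that
`π i` acts on `H^i(X)` as the identity and on `H^j(X)` as zero for `j ≠ i`. -/
structure IsCKDec (R : CycleClasses C W) (X : 𝒱.Obj) (π : ℕ → C.A (X.prod X)) : Prop where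
  deg : ∀ i, C.Deg X.dim (π i)
  out : ∀ i, 2 * X.dim < i → π i = 0
  comp : ∀ i j, C.comp (π i) (π j) = if i = j then π i else 0
  sum : ∑ i ∈ Finset.range (2 * X.dim + 1), π i = dg C X
  act_eq : ∀ i j, ∀ a ∈ W.gr X j, act R (π i) a = if j = i then a else 0

variable {Z S F F' : 𝒱.Obj} {g : Z ⟶ S} {G : S.Cycles} {E : Z.Cycles}

/-- The operator `T` on the cohomology of `F` is the projector onto the part of degree `j` of the
fixed part: it acts as the identity on `i^* H^j(Z)`, as zero on `i^* H^l(Z)` for `l ≠ j`, and as zero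
on the orthogonal complement of `i^* H(Z)`. -/
structure IsFixedProjector (W : WeilCohomology.{u, v} ops) (i : F ⟶ Z) (j : ℕ)
    (T : W.H F →ₗ[W.K] W.H F) : Prop where
  apply : ∀ l, ∀ x ∈ W.gr Z l, T (W.map i x) = if l = j then W.map i x else 0
  orth : ∀ y, (∀ x, W.tr F (y * W.map i x) = 0) → T y = 0

/-- The family `ρ` defines Chow motives `(F, ρ j)` with cohomology the fixed part of `H^j(F)`: it
consists of mutually orthogonal idempotent self-correspondences of degree zero (`ρ j = 0` for
`j > 2 dim F`), `ρ j` induces the projector onto the fixed part of `H^j(F)`, and it is the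
restriction to `F × F` of the class of a cycle on `Z × Z`. -/
structure IsFixedSystem (R : CycleClasses C W) (i : F ⟶ Z) (ρ : ℕ → C.A (F.prod F)) : Prop where
  deg : ∀ j, C.Deg F.dim (ρ j)
  out : ∀ j, 2 * F.dim < j → ρ j = 0
  comp : ∀ j l, C.comp (ρ j) (ρ l) = if j = l then ρ j else 0
  isFixedProjector : ∀ j, IsFixedProjector W i j (act R (ρ j))
  exists_restr : ∀ j, ∃ τ : C.A (Z.prod Z), C.Deg F.dim τ ∧ ρ j = C.up (prodMap i i) τ

/-- The correspondences `u ∈ A(F × F')` and `v ∈ A(F' × F)` of degree zero are isomorphisms inverse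
to each other between the motives `(F, p)` and `(F', p')`. -/
structure IsIsoPair (C : TheoryData.{u, w, 0} 𝒱 ℚ) (p : C.A (F.prod F)) (p' : C.A (F'.prod F'))
    (u : C.A (F.prod F')) (v : C.A (F'.prod F)) : Prop where
  deg_u : C.Deg F.dim u
  deg_v : C.Deg F'.dim v
  hom_u : C.comp (C.comp p u) p' = u
  hom_v : C.comp (C.comp p' v) p = v
  comp_uv : C.comp u v = p
  comp_vu : C.comp v u = p'

/-- For each `j ≠ dim F` the space `H^j(F)` is spanned by the fixed part and the classes of algebraic
cycles. -/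
def FixedOrAlgebraic (W : WeilCohomology.{u, v} ops) (i : F ⟶ Z) : Prop :=
  ∀ j, j ≠ F.dim → W.gr F j ≤ fixedPart W i ⊔
    Submodule.span W.K {a | ∃ p z, j = 2 * p ∧ F.IsCyc p z ∧ a = W.cl F z}

end Pool.Agent.Y106.CK
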