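import Pool.Agent.Y106.CK.Indep2
import Pool.Agent.Y106.CK.Iso

/-!
# Fibres whose cohomology is spanned by the fixed part and the classes of algebraic cycles
-/

open CategoryTheory AlgebraicGeometry

set_option linter.unusedSectionVars false

universe u v w

namespace Pool.Agent.Y106.CK

open Pool.Agent.H914 Pool.Agent.H914.VarClass Pool.Agent.H914.VarClass.Obj
  Pool.Agent.H914.WeilCohomology Pool.Agent.W492.BB Pool.Agent.W492.BB.TheoryData
  Pool.Agent.W550.Corr Pool.Agent.TH133 Pool.Agent.W498.Dom Pool.Agent.Y106.FP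
  Pool.Agent.Y106.Fib Pool.Agent.Y140.Fib Pool.Agent.W534 Pool.Agent.H447

variable {k : Type u} [Field k] {𝒱 : VarClass k} {ops : CycleOps 𝒱}

variable {C : TheoryData.{u, w, 0} 𝒱 ℚ} [hC : IsChowProj C] {W : WeilCohomology.{u, v} ops}
  {R : CycleClasses C W} {Z S F F' X Y : 𝒱.Obj} {i : F ⟶ Z} {i' : F' ⟶ Z}

/-- All spaces `H^j(F)` are spanned by the fixed part and the classes of algebraic cycles. -/
def AllFixedOrAlgebraic (W : WeilCohomology.{u, v} ops) (i : F ⟶ Z) : Prop :=
  ∀ j, W.gr F j ≤ fixedPart W i ⊔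
    Submodule.span W.K {a | ∃ p z, j = 2 * p ∧ F.IsCyc p z ∧ a = W.cl F z}

include hC

section fixed

variable {ρ : ℕ → C.A (F.prod F)} (hρ : IsFixedSystem R i ρ)

include hρ

variable (hF : AllFixedOrAlgebraic W i)

include hF

lemma cl_eq_zero_of_pair' {p : ℕ} {x : C.A F}
    (hx : x ∈ clsA C ρ p) (h : ∀ y ∈ clsB C ρ p, W.tr F (R.cl y * R.cl x) = 0) :
    R.cl x = 0 := by
  apply W.nondeg
  intro b
  have hxm : R.cl x ∈ W.gr F (2 * p) := cl_mem' R (mem_clsA.1 hx).1
  refine gr_induction (W.isInternal F) (p := fun b => W.tr F (R.cl x * b) = 0) ?_ ?_ b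
  · intro m b hb
    by_cases hm : 2 * p + m = 2 * F.dim
    · obtain ⟨h3, h4⟩ := tot_spec hρ b
      have e1 : W.tr F (R.cl x * act R (tot C ρ) b) = 0 := by
        obtain ⟨x', hx'⟩ := h3
        have hx' : W.map i x' = act R (tot C ρ) b := hx'
        rw [← hx']
        exact orth_clsA hρ hx x'
      have e2 : b - act R (tot C ρ) b ∈
          LinearMap.ker (W.tr F ∘ₗ LinearMap.mulLeft W.K (R.cl x)) := by
        refine sub_tot_mem hρ (hF m) _ (fun q z hq hz => ?_) hb
        rw [LinearMap.mem_ker, LinearMap.comp_apply, LinearMap.mulLeft_apply, ← tot_tp hρ,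
          ← cl_act, ← map_sub, cl_comm R]
        exact h _ (of_sub_mem_B hρ (q := q) (by omega) hz)
      rw [LinearMap.mem_ker, LinearMap.comp_apply, LinearMap.mulLeft_apply, mul_sub, map_sub, e1,
        sub_zero] at e2
      exact e2
    · exact W.tr_eq_zero (W.mul_mem hxm hb) hm
  · intro b b' hb hb'
    rw [mul_add, map_add, hb, hb', add_zero]

/-- Dual families of algebraic classes in each degree. -/
theorem exists_families' (j : ℕ) : ∃ (r : ℕ) (z z' : Fin r → C.A F),
    (∀ a, ∃ p, j = 2 * p ∧ p ≤ F.dim ∧ z a ∈ clsA C ρ p ∧ z' a ∈ clsB C ρ p) ∧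
    (∀ a b, HasDegree C (z' a * z b) (if a = b then 1 else 0)) ∧
    (∀ y ∈ W.gr F j, ∑ a, W.tr F (R.cl (z' a) * y) • R.cl (z a) =
      y - act R (tot C ρ) y) := by
  classical
  have empty : (∀ y ∈ W.gr F j, y - act R (tot C ρ) y = 0) →
      ∃ (r : ℕ) (z z' : Fin r → C.A F),
    (∀ a, ∃ p, j = 2 * p ∧ p ≤ F.dim ∧ z a ∈ clsA C ρ p ∧ z' a ∈ clsB C ρ p) ∧
    (∀ a b, HasDegree C (z' a * z b) (if a = b then 1 else 0)) ∧
    (∀ y ∈ W.gr F j, ∑ a, W.tr F (R.cl (z' a) * y) • R.cl (z a) =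
      y - act R (tot C ρ) y) := by
    intro h
    refine ⟨0, Fin.elim0, Fin.elim0, fun a => a.elim0, fun a => a.elim0, fun y hy => ?_⟩
    rw [h y hy]
    simp
  by_cases hj2 : 2 * F.dim < j
  · refine empty fun y hy => ?_
    rw [W.gr_eq_bot F _ hj2] at hy
    rw [(Submodule.mem_bot _).1 hy, map_zero, sub_zero]
  rcases Nat.even_or_odd' j with ⟨p, hp | hp⟩
  · obtain ⟨r, z, z', hd, hbas⟩ := exists_dual R (clsA C ρ p) (clsB C ρ p)
      (p := p) (fun x hx => (mem_clsA.1 hx).1) (fun x hx => (mem_clsB.1 hx).1)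
      (fun x hx h => cl_eq_zero_of_pair' hρ hF hx h)
    refine ⟨r, z, z', fun a => ⟨p, hp, by omega, hd.mem a, hd.mem' a⟩, hd.deg, fun y hy => ?_⟩
    let Φ : W.H F →ₗ[W.K] W.H F :=
      ∑ a, (W.tr F ∘ₗ LinearMap.mulLeft W.K (R.cl (z' a))).smulRight (R.cl (z a))
    have hΦ : ∀ y, Φ y = ∑ a, W.tr F (R.cl (z' a) * y) • R.cl (z a) := by
      intro y
      simp only [Φ, LinearMap.sum_apply]
      rfl
    have e1 : Φ (act R (tot C ρ) y) = 0 := by
      rw [hΦ]
      refine Finset.sum_eq_zero fun a _ => ?_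
      obtain ⟨x', hx'⟩ := (tot_spec hρ y).1
      have hx' : W.map i x' = act R (tot C ρ) y := hx'
      rw [← hx', orth_clsB hρ (hd.mem' a) x', zero_smul]
    have e2 : y - act R (tot C ρ) y ∈ LinearMap.eqLocus Φ LinearMap.id := by
      refine sub_tot_mem hρ (hF j) _ (fun q z₀ hq hz => ?_) hy
      obtain rfl : q = p := by omega
      rw [← cl_act, ← map_sub, LinearMap.mem_eqLocus, LinearMap.id_apply, hΦ]
      exact (hbas _ (of_sub_mem_A hρ hz)).symm
    rw [LinearMap.mem_eqLocus, map_sub, e1, sub_zero, LinearMap.id_apply, hΦ] at e2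
    exact e2
  · refine empty fun y hy => ?_
    have e2 := sub_tot_mem hρ (hF j) ⊥ (fun q z hq hz => by omega) hy
    exact (Submodule.mem_bot _).1 e2

/-- The Chow-Kunneth decomposition consisting of the fixed part and algebraic classes. -/
theorem exists_ck_all (hNF : NilHomTrivial R F) : ∃ (π : ℕ → C.A (F.prod F)) (r : ℕ → ℕ)
    (z z' : ∀ j, Fin (r j) → C.A F), IsCKDec R F π ∧
    (∀ j a, ∃ p, j = 2 * p ∧ p ≤ F.dim ∧ z j a ∈ clsA C ρ p ∧ z' j a ∈ clsB C ρ p) ∧
    ∀ j, π j = ρ j + ∑ a, C.ext (z' j a) (z j a) := by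
  classical
  choose r z z' h1 h2 h3 using exists_families' hρ hF
  obtain ⟨E, hE⟩ : ∃ E : ℕ → C.A (F.prod F), ∀ j, E j = ∑ a, C.ext (z' j a) (z j a) :=
    ⟨_, fun _ => rfl⟩
  have hEm : ∀ j, E j ∈ C.gr (F.prod F) F.dim := by
    intro j
    rw [hE]
    refine Submodule.sum_mem _ fun a _ => ?_
    obtain ⟨p, -, -, hA, hB⟩ := h1 j a
    have := ext_mem' (C := C) (mem_clsB.1 hB).1 (mem_clsA.1 hA).1
    rwa [sub_add_cancel] at this
  have hEE : ∀ j l, C.comp (E j) (E l) = if j = l then E j else 0 := by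
    intro j l
    rw [hE, hE, sum_comp]
    have key : ∀ a, C.comp (C.ext (z' j a) (z j a)) (∑ b, C.ext (z' l b) (z l b)) =
        if j = l then C.ext (z' j a) (z j a) else 0 := by
      intro a
      rw [comp_sum]
      by_cases hjl : j = l
      · subst hjl
        rw [if_pos rfl, Finset.sum_eq_single a]
        · rw [comp_ext_ext (q := 1), one_smul]
          have := h2 j a a
          rwa [if_pos rfl, ch_comm C] at this
        · intro b _ hb
          rw [comp_ext_ext (q := 0), zero_smul]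
          have := h2 j b a
          rwa [if_neg hb, ch_comm C] at this
        · intro h; exact absurd (Finset.mem_univ _) h
      · rw [if_neg hjl]
        refine Finset.sum_eq_zero fun b _ => ?_
        obtain ⟨p, hp, -, hA, -⟩ := h1 j a
        obtain ⟨q, hq, -, -, hB⟩ := h1 l b
        rw [comp_ext_ext (q := 0), zero_smul]
        refine hasDegree_of_ne (C.mul_mem (mem_clsA.1 hA).1 (mem_clsB.1 hB).1) ?_
        omega
    rw [Finset.sum_congr rfl fun a _ => key a]
    split_ifs
    · rfl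
    · exact Finset.sum_const_zero
  have hEρ : ∀ j l, C.comp (E j) (ρ l) = 0 := by
    intro j l
    rw [hE, sum_comp]
    refine Finset.sum_eq_zero fun a _ => ?_
    obtain ⟨p, -, -, hA, -⟩ := h1 j a
    rw [ext_comp]
    have e : C.act (ρ l) (z j a) = 0 := by
      by_cases hl : l ≤ 2 * F.dim
      · rw [← tot_comp hρ hl, C.act_comp, (mem_clsA.1 hA).2, C.act_map_zero]
      · rw [hρ.out l (by omega), C.act_zero]
    rw [e, C.ext_zero_right]
  have hρE : ∀ j l, C.comp (ρ l) (E j) = 0 := by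
    intro j l
    rw [hE, comp_sum]
    refine Finset.sum_eq_zero fun a _ => ?_
    obtain ⟨p, -, -, -, hB⟩ := h1 j a
    rw [comp_ext]
    have e : C.act (tp C (ρ l)) (z' j a) = 0 := by
      by_cases hl : l ≤ 2 * F.dim
      · rw [← comp_tot hρ hl, tp_comp C (ch_comm C), C.act_comp, (mem_clsB.1 hB).2,
          C.act_map_zero]
      · rw [hρ.out l (by omega), Pool.Agent.TH133.tp_zero, C.act_zero]
    rw [e, C.ext_zero_left]
  have hEact : ∀ j m, ∀ y ∈ W.gr F m, act R (E j) y =
      if m = j then y - act R (tot C ρ) y else 0 := by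
    intro j m y hy
    rw [hE, act_sum', LinearMap.sum_apply]
    by_cases hm : m = j
    · subst hm
      rw [if_pos rfl, ← h3 m y hy]
      exact Finset.sum_congr rfl fun a _ => act_ext_apply R _ _ _
    · rw [if_neg hm]
      refine Finset.sum_eq_zero fun a _ => ?_
      obtain ⟨p, hp, hp', -, hB⟩ := h1 j a
      rw [act_ext_apply]
      have hz : z' j a ∈ C.gr F ((F.dim - p : ℕ) : ℤ) := by
        have := (mem_clsB.1 hB).1
        rwa [show (F.dim : ℤ) - p = ((F.dim - p : ℕ) : ℤ) by omega] at this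
      rw [W.tr_eq_zero (W.mul_mem (cl_mem' R hz) hy) (by omega), zero_smul]
  -- the components
  obtain ⟨c, hc⟩ : ∃ c : ℕ → C.A (F.prod F), ∀ j, c j = ρ j + E j := ⟨_, fun _ => rfl⟩
  have hcc : ∀ j l, C.comp (c j) (c l) = if j = l then c j else 0 := by
    intro j l
    rw [hc, hc, add_comp, comp_add, comp_add, hρ.comp, hEρ, hρE, hEE, add_zero, zero_add]
    split_ifs
    · rfl
    · rw [add_zero]
  have hcm : ∀ j, c j ∈ C.gr (F.prod F) F.dim := fun j => by
    rw [hc]; exact Submodule.add_mem _ (hρ.deg j) (hEm j)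
  have hcout : ∀ j, 2 * F.dim < j → c j = 0 := by
    intro j hj
    rw [hc, hρ.out j hj, hE, zero_add]
    refine Finset.sum_eq_zero fun a _ => ?_
    obtain ⟨p, hp, hp', -, -⟩ := h1 j a
    omega
  have hcact : ∀ j m, ∀ y ∈ W.gr F m, act R (c j) y = if m = j then y else 0 := by
    intro j m y hy
    rw [hc, act_add', LinearMap.add_apply, tot_proj hρ hy j, hEact j m y hy]
    by_cases hm : m = j
    · rw [if_pos hm.symm, if_pos hm, if_pos hm]; abel
    · rw [if_neg (Ne.symm hm), if_neg hm, if_neg hm, add_zero]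
  obtain ⟨s, hs⟩ : ∃ s, s = ∑ l ∈ Finset.range (2 * F.dim + 1), c l := ⟨_, rfl⟩
  have hss : C.comp s s = s := by
    conv_lhs => rw [hs, sum_comp]
    conv_rhs => rw [hs]
    refine Finset.sum_congr rfl fun j hj => ?_
    rw [comp_sum, Finset.sum_eq_single j]
    · rw [hcc, if_pos rfl]
    · intro l _ hl; rw [hcc, if_neg (Ne.symm hl)]
    · intro h; exact absurd hj h
  have hsm : s ∈ C.gr (F.prod F) F.dim := by
    rw [hs]; exact Submodule.sum_mem _ fun l _ => hcm l
  have hsact : act R s = LinearMap.id := by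
    apply LinearMap.ext
    intro y
    refine gr_induction (W.isInternal F) (p := fun y => act R s y =
      (LinearMap.id : W.H F →ₗ[W.K] W.H F) y) ?_ ?_ y
    · intro m y hy
      rw [hs, act_sum', LinearMap.sum_apply, LinearMap.id_apply]
      rw [Finset.sum_congr rfl fun l _ => hcact l m y hy, Finset.sum_ite_eq]
      split_ifs with h
      · rfl
      · rw [Finset.mem_range] at h
        rw [W.gr_eq_bot F m (by omega)] at hy
        exact ((Submodule.mem_bot _).1 hy).symm
    · intro y y' h h'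
      rw [map_add, map_add, h, h']
  have hr : dg C F - s = 0 := by
    have e1 : (cor (dg C F - s) : Cor C F) * cor (dg C F - s) = cor (dg C F - s) := by
      apply unc_inj
      rw [unc_mul, unc_cor, comp_sub, comp_dg, sub_comp, dg_comp, hss, sub_self, sub_zero]
    have e2 : IsNilpotent (cor (dg C F - s)) := by
      refine (isNilp_iff _).1 (hNF _ (Submodule.sub_mem _ (dg_mem C F) hsm) (cl_eq_zero R ?_))
      rw [act_sub', act_dg', hsact, sub_self]
    have e3 := eq_zero_of_idem e1 e2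
    exact e3
  refine ⟨c, r, z, z', ⟨hcm, hcout, hcc, ?_, hcact⟩, h1, fun j => by rw [hc, hE]⟩
  rw [← hs]
  exact (sub_eq_zero.1 hr).symm

/-- **Murre's conjecture (C) for the fibre.** -/
theorem fibre_indep (hNF : NilHomTrivial R F) (hne : (1 : W.H F) ≠ 0)
    (hR : ∀ j n, j < n → NoRaise C ρ j n)
    (hA : ∀ l n : ℕ, 2 * l < n → ∀ x ∈ C.gr F l, C.act (ρ n) x = 0) : Indep R F := by
  obtain ⟨π, r, z, z', hπ, h1, hπE⟩ := exists_ck_all hρ hF hNF
  exact indep_of_noRaise hNF hπ fun j n hjn =>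
    fibre_noRaise hρ hπ h1 hne hR hA hjn (hπE j) (hπE n)

end fixed

end Pool.Agent.Y106.CK
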