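import Pool.Agent.Y109.Idem

/-!
# Idempotents in a corner of a ring, given by polynomials, and an anti-involution
-/

open Polynomial Finset

namespace Pool.Agent.Y106.CK

section

lemma prod_pow_dvd {W : Finset ℤ} {n : ℕ} {f : ℚ[X]} (hf : ∀ w ∈ W, (X - C (w : ℚ)) ^ n ∣ f) :
    (∏ w ∈ W, (X - C (w : ℚ))) ^ n ∣ f := by
  rw [← Finset.prod_pow]
  apply Finset.prod_dvd_of_coprime
  · intro a _ b _ hab
    apply IsCoprime.pow
    apply isCoprime_X_sub_C_of_isUnit_sub
    apply IsUnit.mk0
    rw [sub_ne_zero]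
    exact_mod_cast hab
  · exact hf

variable {R : Type*} [Ring R] [Algebra ℚ R] {y e : R}

/-- The value of a polynomial at `y` in the corner `e R e`. -/
noncomputable def ev (y e : R) (p : ℚ[X]) : R := aeval y p * e

lemma comm_aeval (h : e * y = y * e) (p : ℚ[X]) : e * aeval y p = aeval y p * e := by
  induction p using Polynomial.induction_on' with
  | add p q hp hq => rw [map_add, mul_add, add_mul, hp, hq]
  | monomial n a =>
    rw [aeval_monomial, ← Algebra.smul_def, mul_smul_comm, smul_mul_assoc]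
    congr 1
    exact (Commute.pow_right (show Commute e y from h) n)

variable (he : e * e = e) (hey : e * y = y) (hye : y * e = y)

lemma ev_add (p q : ℚ[X]) : ev y e (p + q) = ev y e p + ev y e q := by
  rw [ev, map_add, add_mul]; rfl

lemma ev_sub (p q : ℚ[X]) : ev y e (p - q) = ev y e p - ev y e q := by
  rw [ev, map_sub, sub_mul]; rfl

lemma ev_one : ev y e 1 = e := by rw [ev, map_one, one_mul]
lemma ev_zero : ev y e 0 = 0 := by rw [ev, map_zero, zero_mul]

include he hey hye in
lemma ev_mul (p q : ℚ[X]) : ev y e (p * q) = ev y e p * ev y e q := by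
  have h := comm_aeval (p := q) (show e * y = y * e by rw [hey, hye])
  rw [ev, ev, ev, map_mul, mul_assoc (aeval y p) e, ← mul_assoc e, h, mul_assoc (aeval y q) e e, he,
    mul_assoc]

include he hey hye in
lemma ev_pow (p : ℚ[X]) (n : ℕ) : ev y e (p ^ (n + 1)) = ev y e p ^ (n + 1) := by
  induction n with
  | zero => rw [zero_add, pow_one, pow_one]
  | succ n ih => rw [pow_succ, ev_mul he hey hye, ih, ← pow_succ]

include he hey hye in
lemma ev_eq_zero {W : Finset ℤ} {n : ℕ} (hx : ev y e ((∏ w ∈ W, (X - C (w : ℚ))) ^ n) = 0)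
    {f : ℚ[X]} (hf : ∀ w ∈ W, (X - C (w : ℚ)) ^ n ∣ f) : ev y e f = 0 := by
  obtain ⟨g, rfl⟩ := prod_pow_dvd hf
  rw [ev_mul he hey hye, hx, zero_mul]

include he hey hye in
/-- Orthogonal idempotents in the corner `e R e`, and their behaviour under `y ↦ - y`. -/
theorem exists_ev_idem {W : Finset ℤ} {n : ℕ}
    (hx : ev y e ((∏ w ∈ W, (X - C (w : ℚ))) ^ (n + 1)) = 0) (hW : ∀ w ∈ W, -w ∈ W) :
    ∃ q : ℤ → ℚ[X], (∀ v ∈ W, ∀ w ∈ W, (q v).eval (w : ℚ) = if v = w then 1 else 0) ∧
      (∀ v ∈ W, ∀ w ∈ W, ev y e (q v) * ev y e (q w) = if v = w then ev y e (q v) else 0) ∧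
      (∀ v ∈ W, ev y e ((q v).comp (-X)) = ev y e (q (-v))) := by
  obtain ⟨q, hq⟩ := Pool.Agent.Y109.exists_polys W (n + 1)
  refine ⟨q, fun v hv w hw => ?_, fun v hv w hw => ?_, fun v hv => ?_⟩
  · obtain ⟨r, hr⟩ := hq v hv w hw
    rw [sub_eq_iff_eq_add] at hr
    rw [hr]
    split_ifs <;> simp
  · rw [← ev_mul he hey hye]
    have h1 : ∀ u ∈ W, (X - C (u : ℚ)) ^ (n + 1) ∣ q v * q w - (if v = w then q v else 0) := by
      intro u hu
      obtain ⟨r, hr⟩ := hq v hv u hu
      obtain ⟨s, hs⟩ := hq w hw u hu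
      rw [sub_eq_iff_eq_add] at hr hs
      rw [hr, hs]
      by_cases h1 : v = w
      · subst h1
        rw [if_pos rfl]
        by_cases h2 : v = u
        · subst h2
          rw [if_pos rfl]
          exact ⟨(X - C (v : ℚ)) ^ (n + 1) * r * s + s, by ring⟩
        · rw [if_neg h2]
          exact ⟨(X - C (u : ℚ)) ^ (n + 1) * r * s - r, by ring⟩
      · rw [if_neg h1]
        by_cases h2 : v = u
        · have h3 : w ≠ u := fun h => h1 (h2.trans h.symm)
          rw [if_pos h2, if_neg h3]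
          exact ⟨(X - C (u : ℚ)) ^ (n + 1) * r * s + s, by ring⟩
        · rw [if_neg h2]
          by_cases h3 : w = u
          · rw [if_pos h3]
            exact ⟨(X - C (u : ℚ)) ^ (n + 1) * r * s + r, by ring⟩
          · rw [if_neg h3]
            exact ⟨(X - C (u : ℚ)) ^ (n + 1) * r * s, by ring⟩
    have h2 := ev_eq_zero he hey hye hx h1
    rw [ev_sub, sub_eq_zero] at h2
    rw [h2]
    split_ifs
    · rfl
    · exact ev_zero
  · rw [← sub_eq_zero, ← ev_sub]
    apply ev_eq_zero he hey hye hx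
    intro w hw
    obtain ⟨r, hr⟩ := hq v hv (-w) (hW w hw)
    obtain ⟨s, hs⟩ := hq (-v) (hW v hv) w hw
    rw [sub_eq_iff_eq_add] at hr hs
    have h1 : (q v).comp (-X) = (X - C (w : ℚ)) ^ (n + 1) * ((-1) ^ (n + 1) * r.comp (-X)) +
        (if v = -w then 1 else 0) := by
      rw [hr, add_comp, mul_comp, pow_comp, sub_comp, X_comp, C_comp]
      have h2 : (-X - C ((-w : ℤ) : ℚ) : ℚ[X]) = (-1) * (X - C (w : ℚ)) := by
        push_cast
        rw [map_neg]
        ring
      rw [h2, mul_pow]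
      have h3 : (if v = -w then (1 : ℚ[X]) else 0).comp (-X) = if v = -w then 1 else 0 := by
        split_ifs <;> simp
      rw [h3]
      ring
    have h4 : (if -v = w then (1 : ℚ[X]) else 0) = if v = -w then 1 else 0 := by
      by_cases h : v = -w
      · rw [if_pos h, if_pos (by rw [h, neg_neg])]
      · rw [if_neg h, if_neg (fun h' => h (by rw [← h', neg_neg]))]
    rw [h1, hs, h4]
    exact ⟨(-1) ^ (n + 1) * r.comp (-X) - s, by ring⟩

end

end Pool.Agent.Y106.CK
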