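import Pool.Agent.Y106.CK.Orth
import Pool.Agent.Y106.CK.Poly
import Pool.Agent.TH133.SelfDual

/-!
# Self-dual fixed systems
-/

open CategoryTheory AlgebraicGeometry
open scoped Polynomial
open Polynomial (aeval aeval_monomial eval_monomial eval_add aeval_X aeval_C)

set_option linter.unusedSectionVars false

universe u v w

namespace Pool.Agent.Y106.CK

open Pool.Agent.H914 Pool.Agent.H914.VarClass Pool.Agent.H914.VarClass.Obj
  Pool.Agent.H914.WeilCohomology Pool.Agent.W492.BB Pool.Agent.W492.BB.TheoryData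
  Pool.Agent.W550.Corr Pool.Agent.TH133 Pool.Agent.W498.Dom Pool.Agent.Y106.FP
  Pool.Agent.Y106.Fib Pool.Agent.Y140.Fib Pool.Agent.W534 Pool.Agent.H447

variable {k : Type u} [Field k] {𝒱 : VarClass k} {ops : CycleOps 𝒱}

section chow

variable {C : TheoryData.{u, w, 0} 𝒱 ℚ} [hC : IsChowProj C] {X Z F F' : 𝒱.Obj}

include hC

lemma tpR_aeval (x : Cor C X) (p : ℚ[X]) : tpR C X (aeval x p) = aeval (tpR C X x) p := by
  have hpow : ∀ n : ℕ, tpR C X (x ^ n) = tpR C X x ^ n := by
    intro n
    induction n with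
    | zero => rw [pow_zero, pow_zero, tpR_one]
    | succ n ih => rw [pow_succ, pow_succ', tpR_mul, ih]
  induction p using Polynomial.induction_on' with
  | add p q hp hq => rw [map_add, map_add, map_add, hp, hq]
  | monomial n a =>
    rw [aeval_monomial, aeval_monomial, ← Algebra.smul_def, ← Algebra.smul_def, tpR_smul, hpow]

lemma unc_tpR (x : Cor C X) : unc (tpR C X x) = tp C (unc x) := rfl

lemma Restr.tp {i : F ⟶ Z} {x : Cor C F} (hx : Restr i x) : Restr i (tpR C F x) := by
  obtain ⟨τ, hτ, hx⟩ := hx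
  refine ⟨Pool.Agent.TH133.tp C τ, tp_mem C hτ, ?_⟩
  rw [unc_tpR, hx, Pool.Agent.TH133.tp, Pool.Agent.TH133.tp, ← C.pull_comp, ← C.pull_comp]
  have e : sw F F ≫ prodMap i i = prodMap i i ≫ sw Z Z := by
    apply prod_ext <;> simp [sw, prodMap, comp_lift]
  rw [e]

lemma Restr.neg {i : F ⟶ Z} {x : Cor C F} (hx : Restr i x) : Restr i (-x) := by
  have := hx.smul (-1)
  rwa [neg_one_smul] at this

lemma Restr.sub {i : F ⟶ Z} {x y : Cor C F} (hx : Restr i x) (hy : Restr i y) :
    Restr i (x - y) := by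
  rw [sub_eq_add_neg]; exact hx.add hy.neg

lemma Restr.ev {i : F ⟶ Z} {x e : Cor C F} (hx : Restr i x) (he : Restr i e) (p : ℚ[X]) :
    Restr i (ev x e p) := by
  rw [Pool.Agent.Y106.CK.ev]
  induction p using Polynomial.induction_on' with
  | add p q hp hq => rw [map_add, add_mul]; exact hp.add hq
  | monomial n a =>
    rw [aeval_monomial, ← Algebra.smul_def, smul_mul_assoc]
    apply Restr.smul
    induction n with
    | zero => rw [pow_zero, one_mul]; exact he
    | succ n ih => rw [pow_succ', mul_assoc]; exact hx.mul ih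

end chow

variable {C : TheoryData.{u, w, 0} 𝒱 ℚ} [hC : IsChowProj C] {W : WeilCohomology.{u, v} ops}
  {R : CycleClasses C W} {Z S F F' X Y : 𝒱.Obj} {i : F ⟶ Z} {i' : F' ⟶ Z}

include hC

section fixed

variable {ρ : ℕ → C.A (F.prod F)} (hρ : IsFixedSystem R i ρ)

include hρ

/-- The transpose of a projector of a fixed system acts as the projector in the complementary
degree. -/
lemma act_tp_fixed {j : ℕ} (hj : j ≤ 2 * F.dim) :
    act R (tp C (ρ j)) = act R (ρ (2 * F.dim - j)) := by
  apply LinearMap.ext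
  intro b
  have key : ∀ l, ∀ a ∈ W.gr F l, ∀ m, ∀ b ∈ W.gr F m,
      W.tr F (a * (act R (tp C (ρ j)) b - act R (ρ (2 * F.dim - j)) b)) = 0 := by
    intro l a ha m b hb
    rw [mul_sub, map_sub, ← tr_act_tp R (hρ.deg j) a b, tot_proj hρ ha, tot_proj hρ hb]
    by_cases hlm : l + m = 2 * F.dim
    · by_cases hjl : j = l
      · subst hjl
        rw [if_pos rfl, if_pos (by omega), tr_act_tp R (tot_mem hρ) a b, tot_tp hρ, sub_self]
      · rw [if_neg hjl, if_neg (by omega), zero_mul, mul_zero, sub_self]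
    · have h1 : W.tr F ((if j = l then act R (tot C ρ) a else 0) * b) = 0 := by
        split_ifs
        · exact W.tr_eq_zero (W.mul_mem (act_gr R (tot_mem hρ) ha) hb) hlm
        · rw [zero_mul, map_zero]
      have h2 : W.tr F (a * (if 2 * F.dim - j = m then act R (tot C ρ) b else 0)) = 0 := by
        split_ifs
        · exact W.tr_eq_zero (W.mul_mem ha (act_gr R (tot_mem hρ) hb)) hlm
        · rw [mul_zero, map_zero]
      rw [h1, h2, sub_self]
  refine gr_induction (W.isInternal F) (p := fun b => act R (tp C (ρ j)) b =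
    act R (ρ (2 * F.dim - j)) b) ?_ ?_ b
  · intro m b hb
    rw [← sub_eq_zero]
    apply nondeg_right (W := W)
    intro a
    refine gr_induction (W.isInternal F) (p := fun a => W.tr F (a * (act R (tp C (ρ j)) b -
      act R (ρ (2 * F.dim - j)) b)) = 0) ?_ ?_ a
    · intro l a ha
      exact key l a ha m b hb
    · intro a a' ha ha'
      rw [add_mul, map_add, ha, ha', add_zero]
  · intro a b ha hb
    rw [map_add, map_add, ha, hb]

/-- The value of a polynomial in the corner. -/
lemma actR_ev {y e : Cor C F} (he : actR R F e = act R (tot C ρ)) {n : ℕ}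
    (hy : ∀ l ∈ Finset.range (2 * F.dim + 1), ∀ x,
      actR R F y (act R (ρ l) x) = ((((l : ℤ) - n : ℤ) : ℚ) : W.K) • act R (ρ l) x)
    (p : ℚ[X]) (x : W.H F) : actR R F (ev y e p) x =
      ∑ l ∈ Finset.range (2 * F.dim + 1), ((p.eval (((l : ℤ) - n : ℤ) : ℚ) : ℚ) : W.K) •
        act R (ρ l) x := by
  rw [ev, map_mul, Module.End.mul_apply, he]
  conv_lhs => rw [tot, act_sum', LinearMap.sum_apply, map_sum]
  exact Finset.sum_congr rfl fun l hl => actR_aeval R y (hy l hl x) p

/-- **Self-dual fixed systems exist.** -/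
theorem exists_selfDual (hN : NilHomTrivial R Z) :
    ∃ ρ', IsFixedSystem R i ρ' ∧ IsSelfDual C ρ' := by
  classical
  have hρR : ∀ j, Restr i (cor (ρ j)) := fun j => by
    obtain ⟨τ, hτ, hτ'⟩ := hρ.exists_restr j
    exact ⟨τ, hτ, hτ'⟩
  have htotR : Restr i (cor (tot C ρ)) := by
    have h1 : cor (tot C ρ) = ∑ j ∈ Finset.range (2 * F.dim + 1), cor (ρ j) := by
      apply unc_inj
      rw [unc_cor, unc_sum]
      rfl
    rw [h1]
    exact Restr.sum fun j _ => hρR j
  -- the symmetric total projector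
  obtain ⟨x, hx⟩ : ∃ x : Cor C F, x = (1 / 2 : ℚ) • (cor (tot C ρ) + tpR C F (cor (tot C ρ))) :=
    ⟨_, rfl⟩
  have hxR : Restr i x := by rw [hx]; exact (htotR.add htotR.tp).smul _
  have hxs : tpR C F x = x := by
    rw [hx, tpR_smul, map_add, tpR_tpR, add_comm]
  have hxact : ∀ y, actR R F x y = act R (tot C ρ) y := by
    intro y
    have h1 : actR R F (tpR C F (cor (tot C ρ))) = act R (tot C ρ) := by
      rw [actR_unc, unc_tpR, unc_cor, tot_tp hρ]
    rw [hx, actR_unc, unc_smul, act_smul', LinearMap.smul_apply, ← actR_unc, map_add,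
      LinearMap.add_apply, h1, actR_unc, unc_cor, ← two_smul W.K, smul_smul]
    push_cast
    rw [one_div, inv_mul_cancel₀ two_ne_zero, one_smul]
  have hPP : ∀ y, act R (tot C ρ) (act R (tot C ρ) y) = act R (tot C ρ) y := fun y => by
    rw [← act_comp_apply, tot_tot hρ]
  have hval : ∀ (p : ℚ[X]) (y : W.H F), actR R F (aeval x p) y =
      ((p.eval 1 : ℚ) : W.K) • act R (tot C ρ) y +
        ((p.eval 0 : ℚ) : W.K) • (y - act R (tot C ρ) y) := by
    intro p y
    have h1 : actR R F x (act R (tot C ρ) y) = ((1 : ℚ) : W.K) • act R (tot C ρ) y := by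
      rw [hxact, hPP, Rat.cast_one, one_smul]
    have h2 : actR R F x (y - act R (tot C ρ) y) = ((0 : ℚ) : W.K) • (y - act R (tot C ρ) y) := by
      rw [hxact, map_sub, hPP, sub_self, Rat.cast_zero, zero_smul]
    have h3 : y = act R (tot C ρ) y + (y - act R (tot C ρ) y) := by abel
    conv_lhs => rw [h3]
    rw [map_add, actR_aeval R x h1, actR_aeval R x h2]
  obtain ⟨e, heR, hes, hee, heact⟩ : ∃ e : Cor C F, Restr i e ∧ tpR C F e = e ∧ e * e = e ∧
      actR R F e = act R (tot C ρ) := by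
    have hnil : IsNilpotent (aeval x (∏ w ∈ ({0, 1} : Finset ℤ),
        (Polynomial.X - Polynomial.C (w : ℚ)))) := by
      apply Restr.isNilpotent R hN (i := i)
      · have h1 : ∏ w ∈ ({0, 1} : Finset ℤ), (Polynomial.X - Polynomial.C (w : ℚ)) =
            Polynomial.X * (Polynomial.X - Polynomial.C 1) := by
          rw [Finset.prod_pair zero_ne_one]; simp
        rw [h1, map_mul, aeval_X]
        exact hxR.mul_aeval _
      · apply LinearMap.ext
        intro y
        rw [hval]
        simp [Polynomial.eval_prod]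
    obtain ⟨n, hn⟩ := hnil
    have hn' : aeval x (∏ w ∈ ({0, 1} : Finset ℤ), (Polynomial.X - Polynomial.C (w : ℚ))) ^
        (n + 1) = 0 := by rw [pow_succ, hn, zero_mul]
    obtain ⟨p, hp1, hp2, -⟩ := Pool.Agent.Y109.exists_idem (Nat.succ_pos n) hn'
    have h0 : (0 : ℤ) ∈ ({0, 1} : Finset ℤ) := by simp
    have h1 : (1 : ℤ) ∈ ({0, 1} : Finset ℤ) := by simp
    have hev : ∀ w ∈ ({0, 1} : Finset ℤ), (p 1).eval (w : ℚ) = if 1 = w then 1 else 0 := by
      intro w hw
      obtain ⟨r, hr⟩ := hp1 1 h1 w hw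
      rw [hr]
      split_ifs <;> simp
    refine ⟨aeval x (p 1), ?_, ?_, ?_, ?_⟩
    · obtain ⟨r, hr⟩ := hp1 1 h1 0 h0
      rw [if_neg one_ne_zero, add_zero, Int.cast_zero, Polynomial.C_0, sub_zero] at hr
      rw [hr, mul_comm, map_mul, aeval_X]
      exact hxR.mul_aeval r
    · rw [tpR_aeval, hxs]
    · have := hp2 1 h1 1 h1
      rwa [if_pos rfl] at this
    · apply LinearMap.ext
      intro y
      rw [hval]
      have h2 := hev 0 h0
      have h3 := hev 1 h1
      rw [if_neg one_ne_zero, Int.cast_zero] at h2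
      rw [if_pos rfl, Int.cast_one] at h3
      rw [h2, h3, Rat.cast_one, Rat.cast_zero, one_smul, zero_smul, add_zero]
  -- the antisymmetric weight operator
  obtain ⟨y₀, hy₀⟩ : ∃ y₀ : Cor C F, y₀ = ∑ j ∈ Finset.range (2 * F.dim + 1),
      (((j : ℤ) - (F.dim : ℕ) : ℤ) : ℚ) • cor (ρ j) := ⟨_, rfl⟩
  have hy₀R : Restr i y₀ := by rw [hy₀]; exact Restr.sum fun j _ => (hρR j).smul _
  have hρρ : ∀ j l x, act R (ρ j) (act R (ρ l) x) = if j = l then act R (ρ l) x else 0 := by
    intro j l x
    rw [← act_comp_apply, hρ.comp]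
    by_cases h : l = j
    · rw [if_pos h, if_pos h.symm]
    · rw [if_neg h, if_neg (Ne.symm h), act_zero', LinearMap.zero_apply]
  have hy₀act : ∀ l ∈ Finset.range (2 * F.dim + 1), ∀ x, actR R F y₀ (act R (ρ l) x) =
      ((((l : ℤ) - (F.dim : ℕ) : ℤ) : ℚ) : W.K) • act R (ρ l) x := by
    intro l hl x
    rw [hy₀, map_sum, LinearMap.sum_apply, Finset.sum_eq_single l]
    · rw [actR_unc, unc_smul, unc_cor, act_smul', LinearMap.smul_apply, hρρ, if_pos rfl]
    · intro j _ hj
      rw [actR_unc, unc_smul, unc_cor, act_smul', LinearMap.smul_apply, hρρ, if_neg hj, smul_zero]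
    · intro h; exact absurd hl h
  have hy₀tp : ∀ l ∈ Finset.range (2 * F.dim + 1), ∀ x,
      actR R F (tpR C F y₀) (act R (ρ l) x) =
      (-(((l : ℤ) - (F.dim : ℕ) : ℤ) : ℚ) : W.K) • act R (ρ l) x := by
    intro l hl x
    have hl' := Finset.mem_range.1 hl
    rw [hy₀, map_sum, map_sum, LinearMap.sum_apply, Finset.sum_eq_single (2 * F.dim - l)]
    · rw [tpR_smul, actR_unc, unc_smul, unc_tpR, unc_cor, act_smul', LinearMap.smul_apply,
        act_tp_fixed hρ (by omega), show 2 * F.dim - (2 * F.dim - l) = l by omega, hρρ,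
        if_pos rfl]
      congr 1
      have : (((2 * F.dim - l : ℕ) : ℤ) - (F.dim : ℕ) : ℤ) = -((l : ℤ) - (F.dim : ℕ)) := by omega
      rw [this]
      push_cast
      ring
    · intro j hj hj'
      have hj := Finset.mem_range.1 hj
      rw [tpR_smul, actR_unc, unc_smul, unc_tpR, unc_cor, act_smul', LinearMap.smul_apply,
        act_tp_fixed hρ (by omega), hρρ, if_neg (by omega), smul_zero]
    · intro h
      exact absurd (Finset.mem_range.2 (by omega)) h
  obtain ⟨y, hy⟩ : ∃ y : Cor C F, y = (1 / 2 : ℚ) • (e * (y₀ - tpR C F y₀) * e) := ⟨_, rfl⟩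
  have hyR : Restr i y := by
    rw [hy]
    exact ((heR.mul (hy₀R.sub hy₀R.tp)).mul heR).smul _
  have hys : tpR C F y = -y := by
    rw [hy, tpR_smul, tpR_mul, tpR_mul, hes, map_sub, tpR_tpR, ← smul_neg, ← mul_assoc]
    congr 1
    rw [← neg_mul, ← mul_neg, neg_sub]
  have hey : e * y = y := by
    rw [hy, mul_smul_comm, ← mul_assoc, ← mul_assoc, hee]
  have hye : y * e = y := by
    rw [hy, smul_mul_assoc, mul_assoc, hee]
  have hyact : ∀ l ∈ Finset.range (2 * F.dim + 1), ∀ x, actR R F y (act R (ρ l) x) =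
      ((((l : ℤ) - (F.dim : ℕ) : ℤ) : ℚ) : W.K) • act R (ρ l) x := by
    intro l hl x
    have hl' := Finset.mem_range.1 hl
    have h1 : act R (tot C ρ) (act R (ρ l) x) = act R (ρ l) x := by
      rw [← act_comp_apply, comp_tot hρ (by omega)]
    have h2 : actR R F ((1 / 2 : ℚ) • (e * (y₀ - tpR C F y₀) * e)) (act R (ρ l) x) =
        ((1 / 2 : ℚ) : W.K) • actR R F (e * (y₀ - tpR C F y₀) * e) (act R (ρ l) x) := by
      rw [actR_unc, unc_smul, act_smul', LinearMap.smul_apply, ← actR_unc]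
    rw [hy, h2, map_mul, map_mul, Module.End.mul_apply, Module.End.mul_apply, heact, h1,
      map_sub, LinearMap.sub_apply, hy₀act l hl, hy₀tp l hl, ← sub_smul, map_smul, h1, smul_smul]
    congr 1
    push_cast
    ring
  -- the weights
  obtain ⟨S, hS⟩ : ∃ S : Finset ℤ, S = (Finset.range (2 * F.dim + 1)).image
      (fun l : ℕ => (l : ℤ) - (F.dim : ℕ)) := ⟨_, rfl⟩
  have hSm : ∀ l ∈ Finset.range (2 * F.dim + 1), (l : ℤ) - (F.dim : ℕ) ∈ S := fun l hl => by
    rw [hS]; exact Finset.mem_image_of_mem _ hl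
  have hSneg : ∀ w ∈ S, -w ∈ S := by
    intro w hw
    rw [hS, Finset.mem_image] at hw ⊢
    obtain ⟨l, hl, rfl⟩ := hw
    have := Finset.mem_range.1 hl
    exact ⟨2 * F.dim - l, Finset.mem_range.2 (by omega), by omega⟩
  have hevact := actR_ev hρ heact hyact
  have hnil : IsNilpotent (ev y e (∏ w ∈ S, (Polynomial.X - Polynomial.C (w : ℚ)))) := by
    apply Restr.isNilpotent R hN (i := i) (hyR.ev heR _)
    apply LinearMap.ext
    intro x
    rw [hevact, LinearMap.zero_apply]
    refine Finset.sum_eq_zero fun l hl => ?_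
    rw [Polynomial.eval_prod, Finset.prod_eq_zero (hSm l hl) (by simp), Rat.cast_zero, zero_smul]
  obtain ⟨n, hn⟩ := hnil
  have hn' : ev y e ((∏ w ∈ S, (Polynomial.X - Polynomial.C (w : ℚ))) ^ (n + 1)) = 0 := by
    rw [ev_pow hee hey hye, pow_succ, hn, zero_mul]
  obtain ⟨p, hp1, hp2, hp3⟩ := exists_ev_idem hee hey hye hn' hSneg
  refine ⟨fun j => if j < 2 * F.dim + 1 then unc (ev y e (p ((j : ℤ) - (F.dim : ℕ)))) else 0,
    ⟨?_, ?_, ?_, ?_, ?_⟩, ?_⟩
  · intro j
    change (if j < 2 * F.dim + 1 then unc (ev y e (p ((j : ℤ) - (F.dim : ℕ)))) else 0) ∈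
      C.gr (F.prod F) F.dim
    split_ifs with hj
    · exact (hyR.ev heR _).mem_cor0
    · exact Submodule.zero_mem _
  · intro j hj
    rw [if_neg (by omega)]
  · intro j l
    by_cases hj : j < 2 * F.dim + 1
    · by_cases hl : l < 2 * F.dim + 1
      · rw [if_pos hj, if_pos hl, ← unc_mul, hp2 _ (hSm l (Finset.mem_range.2 hl)) _
          (hSm j (Finset.mem_range.2 hj))]
        by_cases hjl : j = l
        · subst hjl; rw [if_pos rfl, if_pos rfl]
        · rw [if_neg hjl, if_neg (by omega), unc_zero]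
      · rw [if_neg hl, comp_zero, if_neg (by omega)]
    · rw [if_neg hj, zero_comp]
      split_ifs <;> rfl
  · intro j
    have key : act R (if j < 2 * F.dim + 1 then unc (ev y e (p ((j : ℤ) - (F.dim : ℕ)))) else 0) =
        act R (ρ j) := by
      by_cases hj : j < 2 * F.dim + 1
      · rw [if_pos hj, ← actR_unc]
        apply LinearMap.ext
        intro x
        rw [hevact, Finset.sum_eq_single j]
        · rw [hp1 _ (hSm j (Finset.mem_range.2 hj)) _ (hSm j (Finset.mem_range.2 hj)),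
            if_pos rfl, Rat.cast_one, one_smul]
        · intro l hl hlj
          rw [hp1 _ (hSm j (Finset.mem_range.2 hj)) _ (hSm l hl), if_neg (by omega),
            Rat.cast_zero, zero_smul]
        · intro h; exact absurd (Finset.mem_range.2 hj) h
      · rw [if_neg hj, hρ.out j (by omega)]
    have h2 := hρ.isFixedProjector j
    rw [← key] at h2
    exact h2
  · intro j
    change ∃ τ ∈ C.gr (Z.prod Z) F.dim, (if j < 2 * F.dim + 1 then
      unc (ev y e (p ((j : ℤ) - (F.dim : ℕ)))) else 0) = C.pull (prodMap i i) τ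
    split_ifs with hj
    · exact hyR.ev heR _
    · exact ⟨0, Submodule.zero_mem _, (map_zero _).symm⟩
  · intro j hj
    beta_reduce
    rw [if_pos (by omega), if_pos (by omega), ← unc_tpR]
    congr 1
    have h1 : tpR C F (ev y e (p ((j : ℤ) - (F.dim : ℕ)))) =
        ev y e ((p ((j : ℤ) - (F.dim : ℕ))).comp (-Polynomial.X)) := by
      rw [ev, tpR_mul, hes, tpR_aeval, hys, ev, Polynomial.aeval_comp, map_neg, aeval_X]
      exact comm_aeval (by rw [mul_neg, neg_mul, hey, hye]) _
    rw [h1, hp3 _ (hSm j (Finset.mem_range.2 (by omega)))]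
    congr 2
    omega

end fixed

end Pool.Agent.Y106.CK
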