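import Pool.Agent.Y106.CK.Dec
import Pool.Agent.Y106.CK.SDual

/-!
# Self-dual Chow-Kunneth decompositions of a fibre
-/

open CategoryTheory AlgebraicGeometry

set_option linter.unusedSectionVars false

universe u v w

namespace Pool.Agent.Y106.CK

open Pool.Agent.H914 Pool.Agent.H914.VarClass Pool.Agent.H914.VarClass.Obj
  Pool.Agent.H914.WeilCohomology Pool.Agent.W492.BB Pool.Agent.W492.BB.TheoryData
  Pool.Agent.W550.Corr Pool.Agent.TH133 Pool.Agent.W498.Dom Pool.Agent.Y106.FP
  Pool.Agent.Y106.Fib Pool.Agent.Y140.Fib Pool.Agent.W534 Pool.Agent.H447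

variable {k : Type u} [Field k] {𝒱 : VarClass k} {ops : CycleOps 𝒱}

variable {C : TheoryData.{u, w, 0} 𝒱 ℚ} [hC : IsChowProj C] {W : WeilCohomology.{u, v} ops}
  {R : CycleClasses C W} {Z S F F' X Y : 𝒱.Obj} {i : F ⟶ Z} {i' : F' ⟶ Z}

/-- A pair of families of classes of the same length. -/
abbrev Fam (C : TheoryData.{u, w, 0} 𝒱 ℚ) (F : 𝒱.Obj) : Type w :=
  Σ r : ℕ, (Fin r → C.A F) × (Fin r → C.A F)

/-- The two families exchanged. -/
def Fam.swap (s : Fam C F) : Fam C F := ⟨s.1, s.2.2, s.2.1⟩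

/-- The correspondence attached to two families. -/
noncomputable def Fam.E (s : Fam C F) : C.A (F.prod F) := ∑ a, C.ext (s.2.2 a) (s.2.1 a)

/-- The families are dual, and describe the part of degree `j` orthogonal to the fixed part. -/
structure IsFam (R : CycleClasses C W) (ρ : ℕ → C.A (F.prod F)) (j : ℕ) (s : Fam C F) : Prop where
  mem : ∀ a, ∃ p, j = 2 * p ∧ p ≤ F.dim ∧ s.2.1 a ∈ clsA C ρ p ∧ s.2.2 a ∈ clsB C ρ p
  deg : ∀ a b, HasDegree C (s.2.2 a * s.2.1 b) (if a = b then 1 else 0)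
  act : j ≠ F.dim → ∀ y ∈ W.gr F j, ∑ a, W.tr F (R.cl (s.2.2 a) * y) • R.cl (s.2.1 a) =
      y - act R (tot C ρ) y

include hC

lemma Fam.tp_E (s : Fam C F) : tp C s.E = s.swap.E := by
  rw [Fam.E, tp_sum, Fam.E]
  exact Finset.sum_congr rfl fun a _ => tp_ext _ _

section fixed

variable {ρ : ℕ → C.A (F.prod F)} (hρ : IsFixedSystem R i ρ)

include hρ

/-- **The Chow-Kunneth decomposition**, from dual families of algebraic classes. -/
theorem ck_of_families {r : ℕ → ℕ} {z z' : ∀ j, Fin (r j) → C.A F}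
    (h1 : ∀ j a, ∃ p, j = 2 * p ∧ p ≤ F.dim ∧ z j a ∈ clsA C ρ p ∧ z' j a ∈ clsB C ρ p)
    (h2 : ∀ j a b, HasDegree C (z' j a * z j b) (if a = b then 1 else 0))
    (h3 : ∀ j, j ≠ F.dim → ∀ y ∈ W.gr F j, ∑ a, W.tr F (R.cl (z' j a) * y) • R.cl (z j a) =
      y - act R (tot C ρ) y) :
    ∃ π, IsCKDec R F π ∧ (∀ j, C.comp (π j) (ρ j) = ρ j ∧ C.comp (ρ j) (π j) = ρ j) ∧
      ∀ j ≤ 2 * F.dim, j ≠ F.dim → π j = ρ j + ∑ a, C.ext (z' j a) (z j a) := by
  classical
  obtain ⟨E, hE⟩ : ∃ E : ℕ → C.A (F.prod F), ∀ j, E j = ∑ a, C.ext (z' j a) (z j a) :=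
    ⟨_, fun _ => rfl⟩
  have hEm : ∀ j, E j ∈ C.gr (F.prod F) F.dim := by
    intro j
    rw [hE]
    refine Submodule.sum_mem _ fun a _ => ?_
    obtain ⟨p, -, -, hA, hB⟩ := h1 j a
    have := ext_mem' (C := C) (mem_clsB.1 hB).1 (mem_clsA.1 hA).1
    rwa [sub_add_cancel] at this
  have hEE : ∀ j l, C.comp (E j) (E l) = if j = l then E j else 0 := by
    intro j l
    rw [hE, hE, sum_comp]
    have key : ∀ a, C.comp (C.ext (z' j a) (z j a)) (∑ b, C.ext (z' l b) (z l b)) =
        if j = l then C.ext (z' j a) (z j a) else 0 := by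
      intro a
      rw [comp_sum]
      by_cases hjl : j = l
      · subst hjl
        rw [if_pos rfl, Finset.sum_eq_single a]
        · rw [comp_ext_ext (q := 1), one_smul]
          have := h2 j a a
          rwa [if_pos rfl, ch_comm C] at this
        · intro b _ hb
          rw [comp_ext_ext (q := 0), zero_smul]
          have := h2 j b a
          rwa [if_neg hb, ch_comm C] at this
        · intro h; exact absurd (Finset.mem_univ _) h
      · rw [if_neg hjl]
        refine Finset.sum_eq_zero fun b _ => ?_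
        obtain ⟨p, hp, -, hA, -⟩ := h1 j a
        obtain ⟨q, hq, -, -, hB⟩ := h1 l b
        rw [comp_ext_ext (q := 0), zero_smul]
        refine hasDegree_of_ne (C.mul_mem (mem_clsA.1 hA).1 (mem_clsB.1 hB).1) ?_
        omega
    rw [Finset.sum_congr rfl fun a _ => key a]
    split_ifs
    · rfl
    · exact Finset.sum_const_zero
  have hEρ : ∀ j l, C.comp (E j) (ρ l) = 0 := by
    intro j l
    rw [hE, sum_comp]
    refine Finset.sum_eq_zero fun a _ => ?_
    obtain ⟨p, -, -, hA, -⟩ := h1 j a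
    rw [ext_comp]
    have e : C.act (ρ l) (z j a) = 0 := by
      by_cases hl : l ≤ 2 * F.dim
      · rw [← tot_comp hρ hl, C.act_comp, (mem_clsA.1 hA).2, C.act_map_zero]
      · rw [hρ.out l (by omega), C.act_zero]
    rw [e, C.ext_zero_right]
  have hρE : ∀ j l, C.comp (ρ l) (E j) = 0 := by
    intro j l
    rw [hE, comp_sum]
    refine Finset.sum_eq_zero fun a _ => ?_
    obtain ⟨p, -, -, -, hB⟩ := h1 j a
    rw [comp_ext]
    have e : C.act (tp C (ρ l)) (z' j a) = 0 := by
      by_cases hl : l ≤ 2 * F.dim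
      · rw [← comp_tot hρ hl, tp_comp C (ch_comm C), C.act_comp, (mem_clsB.1 hB).2,
          C.act_map_zero]
      · rw [hρ.out l (by omega), Pool.Agent.TH133.tp_zero, C.act_zero]
    rw [e, C.ext_zero_left]
  have hEact : ∀ j m, ∀ y ∈ W.gr F m, j ≠ F.dim → act R (E j) y =
      if m = j then y - act R (tot C ρ) y else 0 := by
    intro j m y hy hj
    rw [hE, act_sum', LinearMap.sum_apply]
    by_cases hm : m = j
    · subst hm
      rw [if_pos rfl, ← h3 m hj y hy]
      exact Finset.sum_congr rfl fun a _ => act_ext_apply R _ _ _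
    · rw [if_neg hm]
      refine Finset.sum_eq_zero fun a _ => ?_
      obtain ⟨p, hp, hp', -, hB⟩ := h1 j a
      rw [act_ext_apply]
      have hz : z' j a ∈ C.gr F ((F.dim - p : ℕ) : ℤ) := by
        have := (mem_clsB.1 hB).1
        rwa [show (F.dim : ℤ) - p = ((F.dim - p : ℕ) : ℤ) by omega] at this
      rw [W.tr_eq_zero (W.mul_mem (cl_mem' R hz) hy) (by omega), zero_smul]
  -- the components
  obtain ⟨c, hc⟩ : ∃ c : ℕ → C.A (F.prod F), ∀ j, c j = ρ j + E j := ⟨_, fun _ => rfl⟩
  have hcc : ∀ j l, C.comp (c j) (c l) = if j = l then c j else 0 := by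
    intro j l
    rw [hc, hc, add_comp, comp_add, comp_add, hρ.comp, hEρ, hρE, hEE, add_zero, zero_add]
    split_ifs
    · rfl
    · rw [add_zero]
  have hcm : ∀ j, c j ∈ C.gr (F.prod F) F.dim := fun j => by
    rw [hc]; exact Submodule.add_mem _ (hρ.deg j) (hEm j)
  obtain ⟨T, hT⟩ : ∃ T : Finset ℕ, T = (Finset.range (2 * F.dim + 1)).erase F.dim := ⟨_, rfl⟩
  obtain ⟨s, hs⟩ : ∃ s, s = ∑ l ∈ T, c l := ⟨_, rfl⟩
  have hsc : ∀ j ∈ T, C.comp s (c j) = c j := by
    intro j hj
    rw [hs, sum_comp, Finset.sum_eq_single j]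
    · rw [hcc, if_pos rfl]
    · intro l _ hl; rw [hcc, if_neg hl]
    · intro h; exact absurd hj h
  have hcs : ∀ j ∈ T, C.comp (c j) s = c j := by
    intro j hj
    rw [hs, comp_sum, Finset.sum_eq_single j]
    · rw [hcc, if_pos rfl]
    · intro l _ hl; rw [hcc, if_neg (Ne.symm hl)]
    · intro h; exact absurd hj h
  have hss : C.comp s s = s := by
    conv_lhs => rw [hs, sum_comp, ← hs]
    conv_rhs => rw [hs]
    exact Finset.sum_congr rfl fun j hj => hcs j hj
  have hnT : F.dim ∉ T := by rw [hT]; simp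
  have hneT : ∀ l ∈ T, l ≠ F.dim := fun l hl e => by rw [e] at hl; exact hnT hl
  have hneT' : ∀ l ∈ T, ∀ j, j ∉ T → l ≠ j := fun l hl j hj e => by rw [e] at hl; exact hj hl
  obtain ⟨π, hπ⟩ : ∃ π : ℕ → C.A (F.prod F), ∀ j, π j = if j ∈ T then c j else
    if j = F.dim then dg C F - s else 0 := ⟨_, fun _ => rfl⟩
  have hπT : ∀ j ∈ T, π j = c j := fun j hj => by rw [hπ, if_pos hj]
  have hπn : π F.dim = dg C F - s := by rw [hπ, if_neg hnT, if_pos rfl]
  have hπ0 : ∀ j, j ∉ T → j ≠ F.dim → π j = 0 := fun j hj hj' => by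
    rw [hπ, if_neg hj, if_neg hj']
  have hcase : ∀ j, j ∈ T ∨ j = F.dim ∨ (j ∉ T ∧ j ≠ F.dim) := by
    intro j
    by_cases h : j ∈ T
    · exact Or.inl h
    · by_cases h' : j = F.dim
      · exact Or.inr (Or.inl h')
      · exact Or.inr (Or.inr ⟨h, h'⟩)
  have hcn : ∀ j ∈ T, C.comp (c j) (dg C F - s) = 0 := fun j hj => by
    rw [comp_sub, comp_dg, hcs j hj, sub_self]
  have hnc : ∀ j ∈ T, C.comp (dg C F - s) (c j) = 0 := fun j hj => by
    rw [sub_comp, dg_comp, hsc j hj, sub_self]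
  have hnn : C.comp (dg C F - s) (dg C F - s) = dg C F - s := by
    rw [comp_sub, comp_dg, sub_comp, dg_comp, hss, sub_self, sub_zero]
  have hTmem : ∀ j, j ∈ T ↔ j ≠ F.dim ∧ j < 2 * F.dim + 1 := fun j => by
    rw [hT, Finset.mem_erase, Finset.mem_range]
  have hcact : ∀ j ∈ T, ∀ m, ∀ y ∈ W.gr F m, act R (c j) y = if m = j then y else 0 := by
    intro j hj m y hy
    rw [hc, act_add', LinearMap.add_apply, tot_proj hρ hy j,
      hEact j m y hy ((hTmem j).1 hj).1]
    by_cases hm : m = j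
    · rw [if_pos hm.symm, if_pos hm, if_pos hm]; abel
    · rw [if_neg (Ne.symm hm), if_neg hm, if_neg hm, add_zero]
  refine ⟨π, ⟨?_, ?_, ?_, ?_, ?_⟩, ?_, fun j hj hj' => by
    rw [hπT j ((hTmem j).2 ⟨hj', by omega⟩), hc, hE]⟩
  · intro j
    change π j ∈ C.gr (F.prod F) F.dim
    rcases hcase j with h | h | ⟨h, h'⟩
    · rw [hπT j h]; exact hcm j
    · rw [h, hπn]
      refine Submodule.sub_mem _ (dg_mem C F) ?_
      rw [hs]
      exact Submodule.sum_mem _ fun l _ => hcm l
    · rw [hπ0 j h h']; exact Submodule.zero_mem _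
  · intro j hj
    refine hπ0 j (fun h => ?_) (by omega)
    have := ((hTmem j).1 h).2
    omega
  · intro j l
    rcases hcase j with h | h | ⟨h, h'⟩
    · rcases hcase l with g | g | ⟨g, g'⟩
      · rw [hπT j h, hπT l g, hcc]
      · rw [hπT j h, g, hπn, hcn j h, if_neg (fun e => by rw [e] at h; exact hnT h)]
      · rw [hπ0 l g g', comp_zero, if_neg (hneT' j h l g)]
    · rw [h, hπn]
      rcases hcase l with g | g | ⟨g, g'⟩
      · rw [hπT l g, hnc l g, if_neg (fun e => by rw [← e] at g; exact hnT g)]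
      · rw [g, hπn, hnn, if_pos rfl]
      · rw [hπ0 l g g', comp_zero, if_neg (Ne.symm g')]
    · rw [hπ0 j h h', zero_comp]
      split_ifs <;> rfl
  · have hmem : F.dim ∈ Finset.range (2 * F.dim + 1) := by
      rw [Finset.mem_range]; omega
    rw [← Finset.add_sum_erase _ _ hmem, ← hT, hπn, Finset.sum_congr rfl hπT, ← hs]
    abel
  · intro j m y hy
    have hsact : act R s y = if m ∈ T then y else 0 := by
      rw [hs, act_sum', LinearMap.sum_apply]
      by_cases hm : m ∈ T
      · rw [if_pos hm, Finset.sum_eq_single m]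
        · rw [hcact m hm m y hy, if_pos rfl]
        · intro l hl hlm; rw [hcact l hl m y hy, if_neg (Ne.symm hlm)]
        · intro h; exact absurd hm h
      · rw [if_neg hm]
        refine Finset.sum_eq_zero fun l hl => ?_
        rw [hcact l hl m y hy, if_neg (Ne.symm (hneT' l hl m hm))]
    rcases hcase j with h | h | ⟨h, h'⟩
    · rw [hπT j h]; exact hcact j h m y hy
    · rw [h, hπn, act_sub', LinearMap.sub_apply, act_dg', LinearMap.id_apply, hsact]
      by_cases hm : m = F.dim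
      · rw [if_neg (fun e => by rw [hm] at e; exact hnT e), if_pos hm, sub_zero]
      · rw [if_neg hm]
        by_cases hm2 : m ∈ T
        · rw [if_pos hm2, sub_self]
        · rw [if_neg hm2, sub_zero]
          rw [hTmem] at hm2
          rw [W.gr_eq_bot F _ (by omega)] at hy
          exact (Submodule.mem_bot _).1 hy
    · rw [hπ0 j h h', act_zero', LinearMap.zero_apply]
      split_ifs with hm
      · rw [hTmem] at h
        rw [W.gr_eq_bot F _ (by omega)] at hy
        exact ((Submodule.mem_bot _).1 hy).symm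
      · rfl
  · -- compatibility with the fixed system
    have hcρ : ∀ j l, C.comp (c j) (ρ l) = if j = l then ρ j else 0 := fun j l => by
      rw [hc, add_comp, hρ.comp, hEρ, add_zero]
    have hρc : ∀ j l, C.comp (ρ l) (c j) = if j = l then ρ j else 0 := fun j l => by
      rw [hc, comp_add, hρ.comp, hρE, add_zero]
      by_cases h : j = l
      · rw [h]
      · rw [if_neg h, if_neg (Ne.symm h)]
    intro j
    rcases hcase j with h | h | ⟨h, h'⟩
    · rw [hπT j h, hcρ, hρc, if_pos rfl]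
      exact ⟨rfl, rfl⟩
    · rw [h, hπn, sub_comp, comp_sub, comp_dg, dg_comp, hs, sum_comp, comp_sum]
      have e1 : ∑ l ∈ T, C.comp (c l) (ρ F.dim) = 0 := Finset.sum_eq_zero fun l hl => by
        rw [hcρ, if_neg (hneT l hl)]
      have e2 : ∑ l ∈ T, C.comp (ρ F.dim) (c l) = 0 := Finset.sum_eq_zero fun l hl => by
        rw [hρc, if_neg (hneT l hl)]
      rw [e1, e2, sub_zero]
      exact ⟨rfl, rfl⟩
    · have : ρ j = 0 := by
        rw [hTmem] at h
        exact hρ.out j (by omega)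
      rw [this, comp_zero, zero_comp]
      exact ⟨rfl, rfl⟩


/-- The total projector of a self-dual system is symmetric. -/
lemma tp_tot_of_selfDual (hs : IsSelfDual C ρ) : tp C (tot C ρ) = tot C ρ := by
  rw [tot, tp_sum]
  refine Finset.sum_nbij' (fun j => 2 * F.dim - j) (fun j => 2 * F.dim - j) ?_ ?_ ?_ ?_ ?_
  · intro j hj; rw [Finset.mem_range] at hj ⊢; omega
  · intro j hj; rw [Finset.mem_range] at hj ⊢; omega
  · intro j hj; rw [Finset.mem_range] at hj; omega
  · intro j hj; rw [Finset.mem_range] at hj; omega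
  · intro j hj; rw [Finset.mem_range] at hj; exact hs j (by omega)

lemma act_E {j : ℕ} {s : Fam C F} (hs : IsFam R ρ j s) (hj : j ≠ F.dim) {y : W.H F}
    (hy : y ∈ W.gr F j) : act R s.E y = y - act R (tot C ρ) y := by
  rw [← hs.act hj y hy, Fam.E, act_sum', LinearMap.sum_apply]
  exact Finset.sum_congr rfl fun a _ => act_ext_apply R _ _ _

lemma E_mem {j : ℕ} {s : Fam C F} (hs : IsFam R ρ j s) : s.E ∈ C.gr (F.prod F) F.dim := by
  rw [Fam.E]
  refine Submodule.sum_mem _ fun a _ => ?_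
  obtain ⟨p, -, -, hA, hB⟩ := hs.mem a
  have := ext_mem' (C := C) (mem_clsB.1 hB).1 (mem_clsA.1 hA).1
  rwa [sub_add_cancel] at this

lemma isFam_swap (hsd : IsSelfDual C ρ) {j : ℕ} {s : Fam C F} (hs : IsFam R ρ j s)
    (hj : j ≤ 2 * F.dim) : IsFam R ρ (2 * F.dim - j) s.swap := by
  have htot := tp_tot_of_selfDual hρ hsd
  refine ⟨fun a => ?_, fun a b => ?_, fun hjn y hy => ?_⟩
  · obtain ⟨p, hp, hp', hA, hB⟩ := hs.mem a
    refine ⟨F.dim - p, by omega, by omega, ?_, ?_⟩
    · rw [mem_clsA]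
      obtain ⟨h1, h2⟩ := mem_clsB.1 hB
      rw [htot] at h2
      exact ⟨by rwa [Nat.cast_sub hp'], h2⟩
    · rw [mem_clsB]
      obtain ⟨h1, h2⟩ := mem_clsA.1 hA
      rw [htot]
      exact ⟨by rwa [Nat.cast_sub hp', sub_sub_cancel], h2⟩
  · change HasDegree C (s.2.1 a * s.2.2 b) _
    rw [ch_comm C]
    have e : (if a = b then (1 : ℚ) else 0) = if b = a then 1 else 0 := by
      by_cases hab : a = b
      · rw [if_pos hab, if_pos hab.symm]
      · rw [if_neg hab, if_neg (Ne.symm hab)]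
    rw [e]
    exact hs.deg b a
  · have e0 : ∑ a, W.tr F (R.cl (s.swap.2.2 a) * y) • R.cl (s.swap.2.1 a) =
        act R (tp C s.E) y := by
      rw [Fam.tp_E, Fam.E, act_sum', LinearMap.sum_apply]
      exact (Finset.sum_congr rfl fun a _ => act_ext_apply R _ _ _).symm
    rw [e0, ← sub_eq_zero]
    have hmem : act R (tp C s.E) y - (y - act R (tot C ρ) y) ∈ W.gr F (2 * F.dim - j) :=
      Submodule.sub_mem _ (act_gr R (tp_mem C (E_mem hρ hs)) hy)
        (Submodule.sub_mem _ hy (act_gr R (tot_mem hρ) hy))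
    apply W.nondeg
    intro b
    rw [tr_symm hmem]
    have key : W.tr F (b * (act R (tp C s.E) y - (y - act R (tot C ρ) y))) = 0 := by
      refine gr_induction (W.isInternal F) (p := fun b => W.tr F
        (b * (act R (tp C s.E) y - (y - act R (tot C ρ) y))) = 0) ?_ ?_ b
      · intro m b hb
        by_cases hm : m = j
        · subst hm
          have e1 := tr_act_tp R (E_mem hρ hs) b y
          rw [act_E hρ hs (by omega) hb] at e1
          have e2 := tr_act_tp R (tot_mem hρ) b y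
          rw [tot_tp hρ] at e2
          rw [mul_sub, mul_sub, map_sub, map_sub, ← e1, ← e2, sub_mul, map_sub, sub_self]
        · exact W.tr_eq_zero (W.mul_mem hb hmem) (by omega)
      · intro b b' hb hb'
        rw [add_mul, map_add, hb, hb', add_zero]
    rw [key, mul_zero]

/-- **The self-dual Chow-Kunneth decomposition.** -/
theorem exists_ck_selfDual (hsd : IsSelfDual C ρ) (hF : FixedOrAlgebraic W i) :
    ∃ π, IsCKDec R F π ∧ (∀ j, C.comp (π j) (ρ j) = ρ j ∧ C.comp (ρ j) (π j) = ρ j) ∧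
      IsSelfDual C π := by
  classical
  have h0 : ∀ j, ∃ s : Fam C F, IsFam R ρ j s := by
    intro j
    obtain ⟨r, z, z', h1, h2, h3⟩ := exists_families hρ hF j
    exact ⟨⟨r, z, z'⟩, h1, h2, h3⟩
  choose s0 hs0 using h0
  obtain ⟨s, hs⟩ : ∃ s : ℕ → Fam C F, ∀ j, s j = if F.dim < j ∧ j ≤ 2 * F.dim then
    (s0 (2 * F.dim - j)).swap else s0 j := ⟨_, fun _ => rfl⟩
  have hsf : ∀ j, IsFam R ρ j (s j) := by
    intro j
    rw [hs]
    split_ifs with h
    · have := isFam_swap hρ hsd (hs0 (2 * F.dim - j)) (by omega)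
      rwa [show 2 * F.dim - (2 * F.dim - j) = j by omega] at this
    · exact hs0 j
  have hsw : ∀ j ≤ 2 * F.dim, j ≠ F.dim → s (2 * F.dim - j) = (s j).swap := by
    intro j hj hjn
    rcases lt_or_gt_of_ne hjn with h | h
    · rw [hs, hs j, if_pos ⟨by omega, by omega⟩, if_neg (by omega),
        show 2 * F.dim - (2 * F.dim - j) = j by omega]
    · rw [hs, hs j, if_neg (by omega), if_pos ⟨h, hj⟩]
      rfl
  obtain ⟨π, hπ, hπρ, hπE⟩ := ck_of_families hρ (r := fun j => (s j).1) (z := fun j => (s j).2.1)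
    (z' := fun j => (s j).2.2) (fun j => (hsf j).mem) (fun j => (hsf j).deg)
    (fun j => (hsf j).act)
  have hne : ∀ j ≤ 2 * F.dim, j ≠ F.dim → tp C (π j) = π (2 * F.dim - j) := by
    intro j hj hjn
    rw [hπE j hj hjn, hπE _ (by omega) (by omega), tp_add, hsd j hj]
    have h1 : tp C (s j).E = (s (2 * F.dim - j)).E := by rw [Fam.tp_E, hsw j hj hjn]
    rw [Fam.E, Fam.E] at h1
    rw [h1]
  refine ⟨π, hπ, hπρ, fun j hj => ?_⟩
  by_cases hjn : j = F.dim
  · subst hjn
    rw [show 2 * F.dim - F.dim = F.dim by omega]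
    have hmem : F.dim ∈ Finset.range (2 * F.dim + 1) := by
      rw [Finset.mem_range]; omega
    have h1 : π F.dim = dg C F - ∑ l ∈ (Finset.range (2 * F.dim + 1)).erase F.dim, π l := by
      rw [← hπ.sum, ← Finset.add_sum_erase _ _ hmem]
      abel
    have h2 : ∑ l ∈ (Finset.range (2 * F.dim + 1)).erase F.dim, tp C (π l) =
        ∑ l ∈ (Finset.range (2 * F.dim + 1)).erase F.dim, π l := by
      refine Finset.sum_nbij' (fun j => 2 * F.dim - j) (fun j => 2 * F.dim - j) ?_ ?_ ?_ ?_ ?_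
      · intro l hl
        rw [Finset.mem_erase, Finset.mem_range] at hl ⊢
        omega
      · intro l hl
        rw [Finset.mem_erase, Finset.mem_range] at hl ⊢
        omega
      · intro l hl
        rw [Finset.mem_erase, Finset.mem_range] at hl
        omega
      · intro l hl
        rw [Finset.mem_erase, Finset.mem_range] at hl
        omega
      · intro l hl
        rw [Finset.mem_erase, Finset.mem_range] at hl
        exact hne l (by omega) hl.1
    rw [h1, tp_sub, tp_dg, tp_sum, h2]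
  · exact hne j hj hjn

end fixed

end Pool.Agent.Y106.CK
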