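import Pool.Agent.Y106.CK.DecS

/-!
# The motives of the fixed part are direct factors of the motives of the total space
-/

open CategoryTheory AlgebraicGeometry

set_option linter.unusedSectionVars false

universe u v w

namespace Pool.Agent.Y106.CK

open Pool.Agent.H914 Pool.Agent.H914.VarClass Pool.Agent.H914.VarClass.Obj
  Pool.Agent.H914.WeilCohomology Pool.Agent.W492.BB Pool.Agent.W492.BB.TheoryData
  Pool.Agent.W550.Corr Pool.Agent.TH133 Pool.Agent.W498.Dom Pool.Agent.Y106.FP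
  Pool.Agent.Y106.Fib Pool.Agent.Y140.Fib Pool.Agent.W534 Pool.Agent.H447

/-- An idempotent `e` such that `e - e r e` is nilpotent factors through `r`. -/
lemma corner_factor {A : Type*} [Ring A] [Algebra ℚ A] (B : Subalgebra ℚ A) {e r : A}
    (he : e * e = e) (heB : e ∈ B) (hrB : r ∈ B) (h : IsNilpotent (e - e * r * e)) :
    ∃ s ∈ B, e = e * r * e * s := by
  obtain ⟨N, hN⟩ := h
  obtain ⟨d, hd⟩ : ∃ d, d = e - e * r * e := ⟨_, rfl⟩
  rw [← hd] at hN
  have hdB : d ∈ B := by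
    rw [hd]
    exact B.sub_mem heB (B.mul_mem (B.mul_mem heB hrB) heB)
  have h1 : e * d = d := by
    rw [hd, mul_sub, he, ← mul_assoc, ← mul_assoc, he]
  have h2 : e * r * e = e * (1 - d) := by rw [mul_sub, mul_one, h1, hd]; abel
  refine ⟨∑ k ∈ Finset.range N, d ^ k, B.sum_mem fun k _ => B.pow_mem hdB k, ?_⟩
  rw [h2, mul_assoc, mul_neg_geom_sum, hN, sub_zero, mul_one]

variable {k : Type u} [Field k] {𝒱 : VarClass k} {ops : CycleOps 𝒱}

variable {C : TheoryData.{u, w, 0} 𝒱 ℚ} [hC : IsChowProj C] {W : WeilCohomology.{u, v} ops}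
  {R : CycleClasses C W} {Z S F F' X Y : 𝒱.Obj} {i : F ⟶ Z} {i' : F' ⟶ Z}

/-- The motive `(F, p)` is a direct factor of the motive `(Z, q)`. -/
structure IsFactor (C : TheoryData.{u, w, 0} 𝒱 ℚ) (p : C.A (F.prod F)) (q : C.A (Z.prod Z))
    (a : C.A (F.prod Z)) (b : C.A (Z.prod F)) : Prop where
  deg_a : C.Deg F.dim a
  deg_b : C.Deg Z.dim b
  hom_a : C.comp (C.comp p a) q = a
  hom_b : C.comp (C.comp q b) p = b
  comp_ab : C.comp a b = p

/-- The family `π` satisfies (B). -/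
def SatB (C : TheoryData.{u, w, 0} 𝒱 ℚ) (π : ℕ → C.A (X.prod X)) : Prop :=
  ∀ j l : ℕ, (j < l ∨ 2 * l < j) → ∀ x ∈ C.gr X l, C.act (π j) x = 0

/-- The family `π` satisfies (D). -/
def SatD (R : CycleClasses C W) (π : ℕ → C.A (X.prod X)) : Prop :=
  ∀ j l : ℕ, 2 * l ≤ j → ∀ x ∈ C.gr X l, R.cl x = 0 → C.act (π j) x = 0

/-- A self-correspondence acting as zero on `H^1` kills the homologically trivial divisors. -/
def Picard (R : CycleClasses C W) (X : 𝒱.Obj) : Prop :=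
  ∀ γ ∈ C.gr (X.prod X) X.dim, (∀ x ∈ W.gr X 1, act R γ x = 0) →
    ∀ x ∈ C.gr X 1, R.cl x = 0 → C.act γ x = 0

include hC

lemma act_mem_gr {e : ℤ} {Γ : C.A (X.prod Y)} (hΓ : Γ ∈ C.gr (X.prod Y) e) {d : ℤ} {x : C.A X}
    (hx : x ∈ C.gr X d) : C.act Γ x ∈ C.gr Y (e + d - X.dim) := by
  have h1 := C.push_mem (snd X Y) (C.mul_mem hΓ (C.pull_mem (fst X Y) hx))
  have h2 : e + d + 1 * ((Y.dim : ℤ) - (X.prod Y).dim) = e + d - X.dim := by
    rw [dim_prod]; push_cast; ring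
  rw [h2] at h1
  exact h1

section factor

variable {p : C.A (F.prod F)} {q : C.A (Z.prod Z)} {a : C.A (F.prod Z)} {b : C.A (Z.prod F)}

lemma IsFactor.act_eq (h : IsFactor C p q a b) (hq : C.comp q q = q) (x : C.A F) :
    C.act p x = C.act b (C.act q (C.act a x)) := by
  have h1 : C.comp a q = a := by
    conv_lhs => rw [← h.hom_a, comp_assoc, hq]
    exact h.hom_a
  rw [← C.act_comp, ← C.act_comp, ← comp_assoc, h1, h.comp_ab]

lemma IsFactor.satB {π : ℕ → C.A (Z.prod Z)} (hπ : SatB C π) {ρ : ℕ → C.A (F.prod F)}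
    (hq : ∀ j, C.comp (π j) (π j) = π j) (h : ∀ j, ∃ a b, IsFactor C (ρ j) (π j) a b) :
    SatB C ρ := by
  intro j l hjl x hx
  obtain ⟨a, b, hab⟩ := h j
  rw [hab.act_eq (hq j)]
  have h1 : C.act a x ∈ C.gr Z l := by
    have := act_mem_gr (show a ∈ C.gr (F.prod Z) F.dim from hab.deg_a) hx
    rwa [add_sub_cancel_left] at this
  rw [hπ j l hjl _ h1, C.act_map_zero]

lemma IsFactor.satD {π : ℕ → C.A (Z.prod Z)} (hπ : SatD R π) {ρ : ℕ → C.A (F.prod F)}
    (hq : ∀ j, C.comp (π j) (π j) = π j) (h : ∀ j, ∃ a b, IsFactor C (ρ j) (π j) a b) :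
    SatD R ρ := by
  intro j l hjl x hx hx0
  obtain ⟨a, b, hab⟩ := h j
  rw [hab.act_eq (hq j)]
  have h1 : C.act a x ∈ C.gr Z l := by
    have := act_mem_gr (show a ∈ C.gr (F.prod Z) F.dim from hab.deg_a) hx
    rwa [add_sub_cancel_left] at this
  have h2 : R.cl (C.act a x) = 0 := by rw [cl_act, hx0, map_zero]
  rw [hπ j l hjl _ h1 h2, C.act_map_zero]

end factor

section fixed

variable {ρ : ℕ → C.A (F.prod F)} (hρ : IsFixedSystem R i ρ)

include hρ

/-- **The motive of the fixed part is a direct factor of the motive of the total space.** -/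
theorem exists_factor (hN : NilHomTrivial R Z) {m : ℕ} (hm : Z.dim = F.dim + m)
    {π : ℕ → C.A (Z.prod Z)} (hπ : IsCKDec R Z π) (j : ℕ) :
    ∃ a b, IsFactor C (ρ j) (π j) a b := by
  obtain ⟨τ, hτ, hτρ⟩ := hρ.exists_restr j
  obtain ⟨κ, hκ⟩ : ∃ κ, κ = C.comp (C.comp (π (j + 2 * m)) τ) (π j) := ⟨_, rfl⟩
  have hκm : κ ∈ C.gr (Z.prod Z) F.dim := by
    rw [hκ]
    exact comp_mem_of (comp_mem_of (e'' := (F.dim : ℤ)) (hπ.deg _) hτ (by ring)) (hπ.deg _)
      (by ring)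
  obtain ⟨r, hr⟩ : ∃ r, r = C.pull (prodMap i i) κ := ⟨_, rfl⟩
  have hidem : C.comp (ρ j) (ρ j) = ρ j := by rw [hρ.comp, if_pos rfl]
  have hπidem : C.comp (π j) (π j) = π j := by rw [hπ.comp, if_pos rfl]
  -- `r` and `ρ j` induce the same operator
  have hact : act R r = act R (ρ j) := by
    apply LinearMap.ext
    intro y
    refine gr_induction (W.isInternal F) (p := fun y => act R r y = act R (ρ j) y) ?_ ?_ y
    · intro l y hy
      have h1 : W.push i y ∈ W.gr Z (l + 2 * m) := by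
        have h3 := W.push_mem i hy
        rw [show (l : ℤ) + 2 * ((Z.dim : ℤ) - F.dim) = ((l + 2 * m : ℕ) : ℤ) by omega,
          grZ_natCast] at h3
        exact h3
      rw [hr, hκ, act_restr, LinearMap.comp_apply, LinearMap.comp_apply, act_comp', act_comp',
        LinearMap.comp_apply, LinearMap.comp_apply, hπ.act_eq _ _ _ h1]
      by_cases hl : l = j
      · subst hl
        rw [if_pos rfl]
        have h2 : act R τ (W.push i y) ∈ W.gr Z l := by
          have h3 := W.corr_isHom (cl_mem' R hτ) ((l + 2 * m : ℕ) : ℤ) (W.push i y)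
            (by rw [grZ_natCast]; exact h1)
          rw [show ((l + 2 * m : ℕ) : ℤ) + 2 * ((F.dim : ℤ) - Z.dim) = (l : ℤ) by omega,
            grZ_natCast] at h3
          exact h3
        rw [hπ.act_eq _ _ _ h2, if_pos rfl, hτρ]
        change W.map i (act R τ (W.push i y)) = act R (C.up (prodMap i i) τ) y
        rw [show C.up (prodMap i i) τ = C.pull (prodMap i i) τ from rfl, act_restr]
        rfl
      · rw [if_neg (by omega), map_zero, map_zero, map_zero, tot_proj hρ hy,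
          if_neg (Ne.symm hl)]
    · intro y y' h h'
      rw [map_add, map_add, h, h']
  -- the corner
  have hrR : Restr i (cor r) := ⟨κ, hκm, hr⟩
  have heR : Restr i (cor (ρ j)) := ⟨τ, hτ, hτρ⟩
  have he : cor (ρ j) * cor (ρ j) = cor (ρ j) := by
    apply unc_inj; rw [unc_mul, unc_cor, hidem]
  have hnil : IsNilpotent (cor (ρ j) - cor (ρ j) * cor r * cor (ρ j)) := by
    apply Restr.isNilpotent R hN (heR.sub ((heR.mul hrR).mul heR))
    have h1 : actR R F (cor r) = actR R F (cor (ρ j)) := hact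
    rw [map_sub, map_mul, map_mul, h1, ← map_mul, ← map_mul, he, he, sub_self]
  obtain ⟨s, hsB, hs⟩ := corner_factor (cor0 C F) he (hρ.deg j) (mem_cor0'.2 (by
    rw [unc_cor, hr]; exact C.pull_mem _ hκm)) hnil
  have hs' : ρ j = C.comp (unc s) (C.comp (ρ j) (C.comp r (ρ j))) := by
    have := congrArg unc hs
    simp only [unc_mul, unc_cor] at this
    exact this
  have hpp : ∀ {Y : 𝒱.Obj} (x : C.A (F.prod Y)), C.comp (ρ j) (C.comp (ρ j) x) =
      C.comp (ρ j) x := fun x => by rw [← comp_assoc, hidem]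
  have hqq : ∀ {Y : 𝒱.Obj} (x : C.A (Z.prod Y)), C.comp (π j) (C.comp (π j) x) =
      C.comp (π j) x := fun x => by rw [← comp_assoc, hπidem]
  obtain ⟨a0, ha0⟩ : ∃ a0, a0 = C.comp (unc s) (C.comp (ρ j) (C.comp (C.graph i)
    (C.comp (π (j + 2 * m)) τ))) := ⟨_, rfl⟩
  have ha0m : a0 ∈ C.gr (F.prod Z) F.dim := by
    rw [ha0]
    refine comp_mem_of (e' := (F.dim : ℤ)) (mem_cor0'.1 hsB) (comp_mem_of (e' := (F.dim : ℤ))
      (hρ.deg j) (comp_mem_of (e' := (F.dim : ℤ)) (graph_mem i)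
        (comp_mem_of (e'' := (F.dim : ℤ)) (hπ.deg _) hτ (by ring)) (by ring)) (by ring)) (by ring)
  refine ⟨C.comp (C.comp (ρ j) a0) (π j), C.comp (C.comp (π j) (C.cograph i)) (ρ j),
    ⟨?_, ?_, ?_, ?_, ?_⟩⟩
  · exact comp_mem_of (comp_mem_of (e'' := (F.dim : ℤ)) (hρ.deg j) ha0m (by ring)) (hπ.deg j)
      (by ring)
  · exact comp_mem_of (comp_mem_of (e'' := (Z.dim : ℤ)) (hπ.deg j) (cograph_mem i) (by ring))
      (hρ.deg j) (by ring)
  · simp only [comp_assoc, hpp, hπidem]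
  · simp only [comp_assoc, hqq, hidem]
  · have e1 : C.comp (C.comp (C.comp (ρ j) a0) (π j)) (C.comp (C.comp (π j) (C.cograph i)) (ρ j)) =
        C.comp (ρ j) (C.comp (unc s) (C.comp (ρ j) (C.comp r (ρ j)))) := by
      rw [ha0, hr, hκ, restr_eq]
      simp only [comp_assoc, hqq]
    rw [e1, ← hs', hidem]

end fixed

section tate

/-- The correspondences attached to algebraic classes of degree `j` act as zero in codimensions
`l` with `2 l ≠ j`. -/
lemma act_tate_ne {ρ : ℕ → C.A (F.prod F)} {j l r : ℕ} {z z' : Fin r → C.A F}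
    (h1 : ∀ a, ∃ p, j = 2 * p ∧ p ≤ F.dim ∧ z a ∈ clsA C ρ p ∧ z' a ∈ clsB C ρ p)
    (hjl : 2 * l ≠ j) {x : C.A F} (hx : x ∈ C.gr F l) :
    C.act (∑ a, C.ext (z' a) (z a)) x = 0 := by
  have h2 : C.act (∑ a, C.ext (z' a) (z a)) x = ∑ a, C.act (C.ext (z' a) (z a)) x := by
    simp only [TheoryData.act_apply, Finset.sum_mul, map_sum]
  rw [h2]
  refine Finset.sum_eq_zero fun a _ => ?_
  obtain ⟨p, hp, -, -, hB⟩ := h1 a
  exact act_ext_zero_of_lt (C.mul_mem (mem_clsB.1 hB).1 hx) (by omega)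

lemma hasDegree_eq_zero (hne : (1 : W.H F) ≠ 0) {x : C.A F} {q : ℚ} (hq : HasDegree C x q)
    (h0 : R.cl x = 0) : q = 0 := by
  have h1 := tr_of_hasDegree R hq
  rw [h0, map_zero, zero_smul] at h1
  rcases smul_eq_zero.1 h1.symm with h | h
  · exact_mod_cast h
  · exact absurd h hne

/-- They kill the homologically trivial classes. -/
lemma act_tate_hom (hne : (1 : W.H F) ≠ 0) {ρ : ℕ → C.A (F.prod F)} {j l r : ℕ}
    {z z' : Fin r → C.A F}
    (h1 : ∀ a, ∃ p, j = 2 * p ∧ p ≤ F.dim ∧ z a ∈ clsA C ρ p ∧ z' a ∈ clsB C ρ p)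
    {x : C.A F} (hx : x ∈ C.gr F l) (h0 : R.cl x = 0) :
    C.act (∑ a, C.ext (z' a) (z a)) x = 0 := by
  by_cases hjl : 2 * l = j
  · have h2 : C.act (∑ a, C.ext (z' a) (z a)) x = ∑ a, C.act (C.ext (z' a) (z a)) x := by
      simp only [TheoryData.act_apply, Finset.sum_mul, map_sum]
    rw [h2]
    refine Finset.sum_eq_zero fun a _ => ?_
    obtain ⟨p, hp, -, -, hB⟩ := h1 a
    have hm : z' a * x ∈ C.gr F F.dim := by
      have := C.mul_mem (mem_clsB.1 hB).1 hx
      rwa [show (F.dim : ℤ) - p + l = F.dim by omega] at this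
    obtain ⟨q, hq⟩ := exists_hasDegree hm
    have hq0 : q = 0 := hasDegree_eq_zero (R := R) hne hq (by rw [map_mul, h0, mul_zero])
    rw [act_ext' hq, hq0, zero_smul]
  · exact act_tate_ne h1 hjl hx

lemma eq_zero_of_codim_zero (hne : (1 : W.H F) ≠ 0) {x : C.A F} (hx : x ∈ C.gr F 0)
    (h0 : R.cl x = 0) : x = 0 := by
  obtain ⟨q, rfl⟩ := hC.gr_zero F x hx
  rw [cl_smul', map_one] at h0
  rcases smul_eq_zero.1 h0 with h | h
  · have : q = 0 := by exact_mod_cast h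
    rw [this, zero_smul]
  · exact absurd h hne

end tate

section murre

variable {ρ : ℕ → C.A (F.prod F)} {π : ℕ → C.A (F.prod F)} (hπ : IsCKDec R F π) {r : ℕ → ℕ}
  {z z' : ∀ j, Fin (r j) → C.A F}
  (h1 : ∀ j a, ∃ p, j = 2 * p ∧ p ≤ F.dim ∧ z j a ∈ clsA C ρ p ∧ z' j a ∈ clsB C ρ p)
  (hπE : ∀ j ≤ 2 * F.dim, j ≠ F.dim → π j = ρ j + ∑ a, C.ext (z' j a) (z j a))

lemma act_add_left (Γ Δ : C.A (X.prod Y)) (x : C.A X) :
    C.act (Γ + Δ) x = C.act Γ x + C.act Δ x := TheoryData.act_add C Γ Δ x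

include hπ h1 hπE

lemma satB_iff (hρ : SatB C ρ) : SatB C π ↔
    ∀ l : ℕ, 2 * l < F.dim → ∀ x ∈ C.gr F l, C.act (π F.dim) x = 0 := by
  constructor
  · intro h l hl x hx
    exact h _ l (Or.inr hl) x hx
  · intro h j l hjl x hx
    by_cases hj : j = F.dim
    · subst hj
      rcases hjl with h' | h'
      · rw [hC.gr_top F l x hx (by exact_mod_cast h'), C.act_map_zero]
      · exact h l h' x hx
    · by_cases hj2 : j ≤ 2 * F.dim
      · rw [hπE j hj2 hj, act_add_left, hρ j l hjl x hx, act_tate_ne (h1 j) (by omega) hx,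
          add_zero]
      · rw [hπ.out j (by omega), C.act_zero]

lemma satD_iff (hne : (1 : W.H F) ≠ 0) (hρ : SatD R ρ) : SatD R π ↔
    ∀ l : ℕ, 2 * l ≤ F.dim → ∀ x ∈ C.gr F l, R.cl x = 0 → C.act (π F.dim) x = 0 := by
  constructor
  · intro h l hl x hx hx0
    exact h _ l hl x hx hx0
  · intro h j l hjl x hx hx0
    by_cases hj : j = F.dim
    · subst hj
      exact h l hjl x hx hx0
    · by_cases hj2 : j ≤ 2 * F.dim
      · rw [hπE j hj2 hj, act_add_left, hρ j l hjl x hx hx0,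
          act_tate_hom (R := R) hne (h1 j) hx hx0, add_zero]
      · rw [hπ.out j (by omega), C.act_zero]

omit h1 hπE

/-- In small dimensions the middle projector satisfies (B). -/
lemma middleB (hne : (1 : W.H F) ≠ 0) (hP : Picard R F) (hd : F.dim ≤ 4) :
    ∀ l : ℕ, 2 * l < F.dim → ∀ x ∈ C.gr F l, C.act (π F.dim) x = 0 := by
  intro l hl x hx
  have hm : C.act (π F.dim) x ∈ C.gr F l := act_mem0 C (hπ.deg _) hx
  have h0 : R.cl (C.act (π F.dim) x) = 0 := by
    rw [cl_act, hπ.act_eq _ _ _ (cl_mem' R hx), if_neg (by omega)]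
  rcases Nat.lt_or_ge 0 l with h | h
  · obtain rfl : l = 1 := by omega
    have h2 := hP (π F.dim) (hπ.deg _) (fun y hy => by
      rw [hπ.act_eq _ _ _ hy, if_neg (by omega)]) _ (by exact_mod_cast hm) h0
    rwa [← C.act_comp, hπ.comp, if_pos rfl] at h2
  · obtain rfl : l = 0 := by omega
    exact eq_zero_of_codim_zero (R := R) hne (by exact_mod_cast hm) h0

/-- In small dimensions the middle projector satisfies (D). -/
lemma middleD (hne : (1 : W.H F) ≠ 0) (hP : Picard R F) (hd : F.dim ≤ 3) :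
    ∀ l : ℕ, 2 * l ≤ F.dim → ∀ x ∈ C.gr F l, R.cl x = 0 → C.act (π F.dim) x = 0 := by
  intro l hl x hx h0
  rcases Nat.lt_or_ge 0 l with h | h
  · obtain rfl : l = 1 := by omega
    exact hP (π F.dim) (hπ.deg _) (fun y hy => by
      rw [hπ.act_eq _ _ _ hy, if_neg (by omega)]) _ (by exact_mod_cast hx) h0
  · obtain rfl : l = 0 := by omega
    rw [eq_zero_of_codim_zero (R := R) hne (by exact_mod_cast hx) h0, C.act_map_zero]

end murre

section main

variable {ρ : ℕ → C.A (F.prod F)} (hρ : IsFixedSystem R i ρ)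

include hρ

/-- Families for all degrees. -/
theorem exists_ck_murre (hF : FixedOrAlgebraic W i) (hne : (1 : W.H F) ≠ 0) :
    ∃ π, IsCKDec R F π ∧ (∀ j, C.comp (π j) (ρ j) = ρ j ∧ C.comp (ρ j) (π j) = ρ j) ∧
      (SatB C ρ → (SatB C π ↔
        ∀ l : ℕ, 2 * l < F.dim → ∀ x ∈ C.gr F l, C.act (π F.dim) x = 0)) ∧
      (SatD R ρ → (SatD R π ↔
        ∀ l : ℕ, 2 * l ≤ F.dim → ∀ x ∈ C.gr F l, R.cl x = 0 → C.act (π F.dim) x = 0)) ∧
      (Picard R F → F.dim ≤ 4 → SatB C ρ → SatB C π) ∧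
      (Picard R F → F.dim ≤ 3 → SatD R ρ → SatD R π) := by
  choose r z z' h1 h2 h3 using exists_families hρ hF
  obtain ⟨π, hπ, hπρ, hπE⟩ := ck_of_families hρ h1 h2 h3
  exact ⟨π, hπ, hπρ, fun h => satB_iff hπ h1 hπE h, fun h => satD_iff hπ h1 hπE hne h,
    fun hP hd h => (satB_iff hπ h1 hπE h).2 (middleB hπ hne hP hd),
    fun hP hd h => (satD_iff hπ h1 hπE hne h).2 (middleD hπ hne hP hd)⟩

end main

end Pool.Agent.Y106.CK
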