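import Pool.Agent.Y106.CK.Defs
import Pool.Agent.TH133.Base
import Pool.Agent.TH133.Ext
import Pool.Agent.Y106.FP.Main
import Pool.Agent.H914R2.GBasic

/-!
# The action of correspondences modulo an equivalence relation on the cohomology
-/

open CategoryTheory AlgebraicGeometry

set_option linter.unusedSectionVars false

universe u v w

namespace Pool.Agent.Y106.CK

open Pool.Agent.H914 Pool.Agent.H914.VarClass Pool.Agent.H914.VarClass.Obj
  Pool.Agent.H914.WeilCohomology Pool.Agent.W492.BB Pool.Agent.W492.BB.TheoryData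
  Pool.Agent.W550.Corr Pool.Agent.TH133 Pool.Agent.W498.Dom Pool.Agent.Y106.FP

variable {k : Type u} [Field k] {𝒱 : VarClass k} {ops : CycleOps 𝒱}

section weil

variable {W : WeilCohomology.{u, v} ops} {X Y Z : 𝒱.Obj}

/-- Base change. -/
lemma map_fst_push (f : X ⟶ Y) (Z : 𝒱.Obj) (a : W.H X) :
    W.map (fst Y Z) (W.push f a) = W.push (prodMap f (𝟙 Z)) (W.map (fst X Z) a) := by
  apply W.tr_ext
  intro c
  refine W.kunneth_induction (p := fun c => W.tr (Y.prod Z) (W.map (fst Y Z) (W.push f a) * c) =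
    W.tr (Y.prod Z) (W.push (prodMap f (𝟙 Z)) (W.map (fst X Z) a) * c)) ?_ ?_ c
  · intro a b ha hb
    rw [mul_add, mul_add, map_add, map_add, ha, hb]
  · intro i j y _ z _
    have e1 : prodMap f (𝟙 Z) ≫ fst Y Z = fst X Z ≫ f := prodMap_fst _ _
    have e2 : prodMap f (𝟙 Z) ≫ snd Y Z = snd X Z := by
      rw [prodMap_snd, Category.comp_id]
    rw [← mul_assoc, ← map_mul (W.map (fst Y Z)), W.tr_prod, W.tr_push, W.tr_push,
      map_mul (W.map (prodMap f (𝟙 Z))), ← W.map_comp, ← W.map_comp, e1, e2, W.map_comp,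
      ← mul_assoc, ← map_mul (W.map (fst X Z)), W.tr_prod]

lemma corr_graph (f : X ⟶ Y) (a : W.H X) :
    W.corr (W.push (Obj.lift (𝟙 X) f) 1) a = W.push f a := by
  rw [corr_apply, ← W.push_mul, one_mul, ← W.push_comp, ← W.map_comp, Obj.lift_fst, Obj.lift_snd,
    W.map_id]

lemma corr_cograph (f : X ⟶ Y) (b : W.H Y) :
    W.corr (W.push (Obj.lift f (𝟙 X)) 1) b = W.map f b := by
  rw [corr_apply, ← W.push_mul, one_mul, ← W.push_comp, ← W.map_comp, Obj.lift_fst, Obj.lift_snd,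
    W.push_id]

end weil

section chow

variable {C : TheoryData.{u, w, 0} 𝒱 ℚ} [hC : IsChowProj C] {X Y Z V : 𝒱.Obj}

include hC

lemma comp_cograph (f : X ⟶ Y) (Γ : C.A (V.prod Y)) :
    C.comp Γ (C.cograph f) = C.pull (prodMap (𝟙 V) f) Γ := by
  rw [comp_eq_extR, TheoryData.extR, TheoryData.cograph, C.base_snd, ← C.proj_right, ← C.push_comp,
    map_one, one_mul, ← C.pull_comp]
  have e1 : prodMap (𝟙 V) (Obj.lift f (𝟙 X)) ≫ u12 V Y X = prodMap (𝟙 V) f := by
    apply prod_ext <;> simp [u12]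
  have e2 : prodMap (𝟙 V) (Obj.lift f (𝟙 X)) ≫ u13 V Y X = 𝟙 _ := by
    apply prod_ext <;> simp [u13]
  rw [e1, e2, C.push_id]

lemma graph_comp (f : X ⟶ Y) (Γ : C.A (Y.prod V)) :
    C.comp (C.graph f) Γ = C.pull (prodMap f (𝟙 V)) Γ := by
  rw [TheoryData.comp, TheoryData.graph, C.base_fst, ← C.proj_left, ← C.push_comp, map_one,
    mul_one, ← C.pull_comp]
  have e1 : prodMap (Obj.lift (𝟙 X) f) (𝟙 V) ≫ t13 X Y V = 𝟙 _ := by
    apply prod_ext <;> simp [t13]
  have e2 : prodMap (Obj.lift (𝟙 X) f) (𝟙 V) ≫ t23 X Y V = prodMap f (𝟙 V) := by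
    apply prod_ext <;> simp [t23]
  rw [e1, e2, C.push_id]

/-- The restriction of a correspondence. -/
lemma restr_eq {F F' : 𝒱.Obj} (i : F ⟶ Z) (i' : F' ⟶ Z) (τ : C.A (Z.prod Z)) :
    C.pull (prodMap i i') τ = C.comp (C.comp (C.graph i) τ) (C.cograph i') := by
  rw [graph_comp, comp_cograph, ← C.pull_comp]
  have e1 : prodMap (𝟙 F) i' ≫ prodMap i (𝟙 Z) = prodMap i i' := by
    apply prod_ext <;> simp
  rw [e1]

lemma graph_mem (f : X ⟶ Y) : C.graph f ∈ C.gr (X.prod Y) Y.dim := by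
  have h := C.push_mem (Obj.lift (𝟙 X) f) (C.one_mem X)
  have e1 : (0 : ℤ) + 1 * (((X.prod Y).dim : ℤ) - (X.dim : ℤ)) = Y.dim := by
    rw [dim_prod]; push_cast; ring
  rwa [e1] at h

lemma cograph_mem (f : X ⟶ Y) : C.cograph f ∈ C.gr (Y.prod X) Y.dim := by
  have h := C.push_mem (Obj.lift f (𝟙 X)) (C.one_mem X)
  have e1 : (0 : ℤ) + 1 * (((Y.prod X).dim : ℤ) - (X.dim : ℤ)) = Y.dim := by
    rw [dim_prod]; push_cast; ring
  rwa [e1] at h

lemma tp_graph (f : X ⟶ Y) : tp C (C.graph f) = C.cograph f := by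
  rw [tp_eq_push, TheoryData.graph, ← C.push_comp]
  have e1 : Obj.lift (𝟙 X) f ≫ sw X Y = Obj.lift f (𝟙 X) := by
    apply prod_ext <;> simp [sw, comp_lift]
  rw [e1]
  rfl

lemma tp_cograph (f : X ⟶ Y) : tp C (C.cograph f) = C.graph f := by
  rw [← tp_graph, tp_tp]

/-- The degree of a composition, in terms of codimensions. -/
lemma comp_mem_of {e e' e'' : ℤ} {Γ : C.A (X.prod Y)} {Δ : C.A (Y.prod Z)}
    (hΓ : Γ ∈ C.gr (X.prod Y) e) (hΔ : Δ ∈ C.gr (Y.prod Z) e') (h : e'' = e + e' - Y.dim) :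
    C.comp Γ Δ ∈ C.gr (X.prod Z) e'' := by
  have := comp_mem C (e := e - X.dim) (e' := e' - Y.dim) (Γ := Γ) (Δ := Δ)
    (by rwa [show (X.dim : ℤ) + (e - X.dim) = e by ring])
    (by rwa [show (Y.dim : ℤ) + (e' - Y.dim) = e' by ring])
  rwa [show (X.dim : ℤ) + (e - X.dim + (e' - Y.dim)) = e'' by rw [h]; ring] at this

end chow

section act

variable {C : TheoryData.{u, w, 0} 𝒱 ℚ} [hC : IsChowProj C] {W : WeilCohomology.{u, v} ops}
  (R : CycleClasses C W) {X Y Z V : 𝒱.Obj}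

omit hC in
lemma cl_smul' (q : ℚ) (x : C.A X) : R.cl (q • x) = (q : W.K) • R.cl x := by
  have := map_ratCast_smul (R.cl (X := X)) ℚ W.K q x
  simpa using this

omit hC in
lemma cl_mem' {p : ℕ} {x : C.A X} (hx : x ∈ C.gr X p) : R.cl x ∈ W.gr X (2 * p) := by
  obtain ⟨z, hz, rfl⟩ := R.exists_of hx
  rw [R.cl_of]
  exact W.cl_mem hz

include hC

lemma cl_comm (x : C.A X) (a : W.H X) : R.cl x * a = a * R.cl x := by
  have h1 : x ∈ ⨆ i, C.gr X i := by
    rw [(C.isInternal X).submodule_iSup_eq_top]; trivial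
  induction h1 using Submodule.iSup_induction' with
  | mem i x hx =>
    rcases lt_or_ge i 0 with h | h
    · rw [C.gr_neg X i h] at hx
      rw [(Submodule.mem_bot _).1 hx, map_zero, zero_mul, mul_zero]
    · obtain ⟨p, rfl⟩ := Int.eq_ofNat_of_zero_le h
      exact even_comm W (cl_mem' R hx) a
  | zero => rw [map_zero, zero_mul, mul_zero]
  | add x y _ _ hx hy => rw [map_add, add_mul, mul_add, hx, hy]

lemma act_comp' (Γ : C.A (X.prod Y)) (Δ : C.A (Y.prod Z)) :
    act R (C.comp Γ Δ) = act R Δ ∘ₗ act R Γ := by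
  apply LinearMap.ext
  intro a
  have e0 : R.cl (C.comp Γ Δ) = W.push (t13 X Y Z) (W.map (t23 X Y Z) (R.cl Δ) *
      W.map (fst (X.prod Y) Z) (R.cl Γ)) := by
    have h1 := R.cl_push (t13 X Y Z) (C.pull (t23 X Y Z) Δ * C.pull (fst (X.prod Y) Z) Γ)
    have h2 := R.cl_pull (t23 X Y Z) Δ
    have h3 := R.cl_pull (fst (X.prod Y) Z) Γ
    rw [map_mul R.cl] at h1
    change R.cl (C.push _ _) = _
    change R.cl (C.push _ _) = _ at h1
    rw [h1]
    change R.cl (C.pull _ _) = _ at h2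
    change R.cl (C.pull _ _) = _ at h3
    rw [h2, h3]
  have e1 : t13 X Y Z ≫ fst X Z = fst (X.prod Y) Z ≫ fst X Y := t13_fst
  have e2 : t13 X Y Z ≫ snd X Z = t23 X Y Z ≫ snd Y Z := by rw [t23_snd, t13_snd]
  have e3 : ∀ c : W.H ((X.prod Y).prod Z), W.push (t23 X Y Z) (W.map (t23 X Y Z) (R.cl Δ) * c) =
      R.cl Δ * W.push (t23 X Y Z) c := by
    intro c
    have h := R.cl_pull (t23 X Y Z) Δ
    rw [← h, cl_comm R, h, W.push_mul, cl_comm R]
  rw [LinearMap.comp_apply, act, act, act, corr_apply, corr_apply, corr_apply, e0, ← W.push_mul,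
    ← W.push_comp, ← W.map_comp, e1, e2, W.push_comp, mul_assoc, W.map_comp,
    ← map_mul (W.map (fst (X.prod Y) Z)), e3, map_fst_push]
  rfl

lemma act_comp_apply (Γ : C.A (X.prod Y)) (Δ : C.A (Y.prod Z)) (a : W.H X) :
    act R (C.comp Γ Δ) a = act R Δ (act R Γ a) := by
  rw [act_comp']; rfl

omit hC in
lemma act_graph' (f : X ⟶ Y) : act R (C.graph f) = W.push f := by
  apply LinearMap.ext
  intro a
  have h1 : R.cl (C.graph f) = W.push (Obj.lift (𝟙 X) f) 1 := by
    have := R.cl_push (Obj.lift (𝟙 X) f) 1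
    rw [map_one] at this
    exact this
  rw [act, h1, corr_graph]

omit hC in
lemma act_cograph' (f : X ⟶ Y) : act R (C.cograph f) = (W.map f).toLinearMap := by
  apply LinearMap.ext
  intro a
  have h1 : R.cl (C.cograph f) = W.push (Obj.lift f (𝟙 X)) 1 := by
    have := R.cl_push (Obj.lift f (𝟙 X)) 1
    rw [map_one] at this
    exact this
  rw [act, h1, corr_cograph]
  rfl

omit hC in
lemma act_dg' (X : 𝒱.Obj) : act R (dg C X) = LinearMap.id := by
  rw [dg, act_graph']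
  apply LinearMap.ext
  intro a
  rw [W.push_id]; rfl

omit hC in
lemma act_add' (Γ Δ : C.A (X.prod Y)) : act R (Γ + Δ) = act R Γ + act R Δ := by
  rw [act, map_add, corr_add]; rfl

omit hC in
lemma act_zero' : act R (0 : C.A (X.prod Y)) = 0 := by
  rw [act, map_zero, corr_zero]

omit hC in
lemma act_smul' (q : ℚ) (Γ : C.A (X.prod Y)) : act R (q • Γ) = (q : W.K) • act R Γ := by
  rw [act, cl_smul', corr_smul]; rfl

omit hC in
lemma cl_eq_zero {Γ : C.A (X.prod Y)} (h : act R Γ = 0) : R.cl Γ = 0 := corr_inj h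

/-- The action on the cohomology as a ring homomorphism. -/
noncomputable def actR (X : 𝒱.Obj) : Cor C X →+* Module.End W.K (W.H X) where
  toFun a := act R (X := X) (Y := X) a
  map_one' := act_dg' R X
  map_mul' a b := act_comp' R (X := X) (Y := X) (Z := X) b a
  map_zero' := act_zero' R (X := X) (Y := X)
  map_add' a b := act_add' R (X := X) (Y := X) a b

lemma actR_apply (a : Cor C X) : actR R X a = act R (X := X) (Y := X) a := rfl

/-- The restriction of a correspondence. -/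
lemma act_restr {F F' : 𝒱.Obj} (i : F ⟶ Z) (i' : F' ⟶ Z) (τ : C.A (Z.prod Z)) :
    act R (C.pull (prodMap i i') τ) = (W.map i').toLinearMap ∘ₗ act R τ ∘ₗ W.push i := by
  rw [restr_eq, act_comp', act_comp', act_graph', act_cograph']

/-- The transpose is the adjoint. -/
lemma tr_act_tp {p : ℕ} {Γ : C.A (X.prod Y)} (hΓ : Γ ∈ C.gr (X.prod Y) p) (a : W.H X)
    (b : W.H Y) : W.tr Y (act R Γ a * b) = W.tr X (a * act R (tp C Γ) b) := by
  have h1 : R.cl (tp C Γ) = W.map (swap Y X) (R.cl Γ) := R.cl_pull (sw Y X) Γ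
  rw [act, act, h1]
  exact tr_corr_swap (cl_mem' R hΓ) a b

end act

end Pool.Agent.Y106.CK
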