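import Pool.Agent.Y106.CK.Tate

/-!
# The Chow-Kunneth decomposition of a fibre
-/

open CategoryTheory AlgebraicGeometry

set_option linter.unusedSectionVars false

universe u v w

namespace Pool.Agent.Y106.CK

open Pool.Agent.H914 Pool.Agent.H914.VarClass Pool.Agent.H914.VarClass.Obj
  Pool.Agent.H914.WeilCohomology Pool.Agent.W492.BB Pool.Agent.W492.BB.TheoryData
  Pool.Agent.W550.Corr Pool.Agent.TH133 Pool.Agent.W498.Dom Pool.Agent.Y106.FP
  Pool.Agent.Y106.Fib Pool.Agent.Y140.Fib Pool.Agent.W534 Pool.Agent.H447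

variable {k : Type u} [Field k] {𝒱 : VarClass k} {ops : CycleOps 𝒱}

variable {C : TheoryData.{u, w, 0} 𝒱 ℚ} [hC : IsChowProj C] {W : WeilCohomology.{u, v} ops}
  {R : CycleClasses C W} {Z S F F' X Y : 𝒱.Obj} {i : F ⟶ Z} {i' : F' ⟶ Z}

/-- The classes of codimension `p` killed by the total projector of a fixed system. -/
noncomputable def clsA (C : TheoryData.{u, w, 0} 𝒱 ℚ) {F : 𝒱.Obj} (ρ : ℕ → C.A (F.prod F))
    (p : ℕ) : Submodule ℚ (C.A F) :=
  C.gr F p ⊓ LinearMap.ker (C.actL (tot C ρ))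

/-- The classes of dimension `p` killed by the transpose of the total projector. -/
noncomputable def clsB (C : TheoryData.{u, w, 0} 𝒱 ℚ) {F : 𝒱.Obj} (ρ : ℕ → C.A (F.prod F))
    (p : ℕ) : Submodule ℚ (C.A F) :=
  C.gr F ((F.dim : ℤ) - p) ⊓ LinearMap.ker (C.actL (tp C (tot C ρ)))

lemma mem_clsA {ρ : ℕ → C.A (F.prod F)} {p : ℕ} {x : C.A F} :
    x ∈ clsA C ρ p ↔ x ∈ C.gr F p ∧ C.act (tot C ρ) x = 0 := Iff.rfl

lemma mem_clsB {ρ : ℕ → C.A (F.prod F)} {p : ℕ} {x : C.A F} :
    x ∈ clsB C ρ p ↔ x ∈ C.gr F ((F.dim : ℤ) - p) ∧ C.act (tp C (tot C ρ)) x = 0 := Iff.rfl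

include hC

section fixed

variable {ρ : ℕ → C.A (F.prod F)} (hρ : IsFixedSystem R i ρ)

include hρ

lemma orth_clsA {p : ℕ} {x : C.A F} (hx : x ∈ clsA C ρ p) : Orth W i (R.cl x) := by
  have h1 := (tot_spec hρ (R.cl x)).2
  rw [← cl_act, (mem_clsA.1 hx).2, map_zero, sub_zero] at h1
  exact h1

lemma orth_clsB {p : ℕ} {x : C.A F} (hx : x ∈ clsB C ρ p) : Orth W i (R.cl x) := by
  have h1 := (tot_spec hρ (R.cl x)).2
  rw [← tot_tp hρ, ← cl_act, (mem_clsB.1 hx).2, map_zero, sub_zero] at h1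
  exact h1

/-- The part orthogonal to the fixed part is spanned by classes of cycles. -/
lemma sub_tot_mem {j : ℕ} (hF : W.gr F j ≤ fixedPart W i ⊔
    Submodule.span W.K {a | ∃ p z, j = 2 * p ∧ F.IsCyc p z ∧ a = W.cl F z})
    (U : Submodule W.K (W.H F))
    (hU : ∀ p z, j = 2 * p → F.IsCyc p z → R.cl (R.of z) - act R (tot C ρ) (R.cl (R.of z)) ∈ U)
    {y : W.H F} (hy : y ∈ W.gr F j) : y - act R (tot C ρ) y ∈ U := by
  obtain ⟨f, hf, s, hs, rfl⟩ := Submodule.mem_sup.1 (hF hy)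
  have h1 : f - act R (tot C ρ) f = 0 := by
    obtain ⟨x, hx⟩ := hf
    have hx : W.map i x = f := hx
    rw [← hx, tot_map hρ, sub_self]
  have h2 : f + s - act R (tot C ρ) (f + s) = s - act R (tot C ρ) s := by
    rw [map_add, add_sub_add_comm, h1, zero_add]
  rw [h2]
  have h3 : Submodule.span W.K {a | ∃ p z, j = 2 * p ∧ F.IsCyc p z ∧ a = W.cl F z} ≤
      U.comap (LinearMap.id - act R (tot C ρ)) := by
    rw [Submodule.span_le]
    rintro _ ⟨p, z, hj, hz, rfl⟩
    have := hU p z hj hz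
    rw [R.cl_of] at this
    exact this
  exact h3 hs

lemma act_tp_tot_tot (x : C.A F) :
    C.act (tp C (tot C ρ)) (C.act (tp C (tot C ρ)) x) = C.act (tp C (tot C ρ)) x := by
  rw [← C.act_comp, ← tp_comp C (ch_comm C), tot_tot hρ]

lemma act_tot_tot (x : C.A F) :
    C.act (tot C ρ) (C.act (tot C ρ) x) = C.act (tot C ρ) x := by
  rw [← C.act_comp, tot_tot hρ]

lemma of_sub_mem_A {p : ℕ} {z : F.Cycles} (hz : F.IsCyc p z) :
    R.of z - C.act (tot C ρ) (R.of z) ∈ clsA C ρ p := by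
  rw [mem_clsA]
  have h1 : R.of z ∈ C.gr F p := R.of_mem hz
  refine ⟨Submodule.sub_mem _ h1 (act_mem0 C (tot_mem hρ) h1), ?_⟩
  rw [act_map_sub, act_tot_tot hρ, sub_self]

lemma of_sub_mem_B {p q : ℕ} (hq : (q : ℤ) = (F.dim : ℤ) - p) {z : F.Cycles} (hz : F.IsCyc q z) :
    R.of z - C.act (tp C (tot C ρ)) (R.of z) ∈ clsB C ρ p := by
  rw [mem_clsB]
  have h1 : R.of z ∈ C.gr F ((F.dim : ℤ) - p) := by rw [← hq]; exact R.of_mem hz
  refine ⟨Submodule.sub_mem _ h1 (act_mem0 C (tp_mem C (tot_mem hρ)) h1), ?_⟩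
  rw [act_map_sub, act_tp_tot_tot hρ, sub_self]

variable (hF : FixedOrAlgebraic W i)

include hF

/-- The pairing between the algebraic classes orthogonal to the fixed part. -/
lemma cl_eq_zero_of_pair {p : ℕ} (h2 : 2 * p ≠ F.dim) {x : C.A F}
    (hx : x ∈ clsA C ρ p) (h : ∀ y ∈ clsB C ρ p, W.tr F (R.cl y * R.cl x) = 0) :
    R.cl x = 0 := by
  apply W.nondeg
  intro b
  have hxm : R.cl x ∈ W.gr F (2 * p) := cl_mem' R (mem_clsA.1 hx).1
  refine gr_induction (W.isInternal F) (p := fun b => W.tr F (R.cl x * b) = 0) ?_ ?_ b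
  · intro m b hb
    by_cases hm : 2 * p + m = 2 * F.dim
    · obtain ⟨h3, h4⟩ := tot_spec hρ b
      have e1 : W.tr F (R.cl x * act R (tot C ρ) b) = 0 := by
        obtain ⟨x', hx'⟩ := h3
        have hx' : W.map i x' = act R (tot C ρ) b := hx'
        rw [← hx']
        exact orth_clsA hρ hx x'
      have e2 : b - act R (tot C ρ) b ∈
          LinearMap.ker (W.tr F ∘ₗ LinearMap.mulLeft W.K (R.cl x)) := by
        refine sub_tot_mem hρ (hF m (by omega)) _ (fun q z hq hz => ?_) hb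
        rw [LinearMap.mem_ker, LinearMap.comp_apply, LinearMap.mulLeft_apply, ← tot_tp hρ,
          ← cl_act, ← map_sub, cl_comm R]
        exact h _ (of_sub_mem_B hρ (q := q) (by omega) hz)
      rw [LinearMap.mem_ker, LinearMap.comp_apply, LinearMap.mulLeft_apply, mul_sub, map_sub, e1,
        sub_zero] at e2
      exact e2
    · exact W.tr_eq_zero (W.mul_mem hxm hb) hm
  · intro b b' hb hb'
    rw [mul_add, map_add, hb, hb', add_zero]

/-- Dual families of algebraic classes in each degree. -/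
theorem exists_families (j : ℕ) : ∃ (r : ℕ) (z z' : Fin r → C.A F),
    (∀ a, ∃ p, j = 2 * p ∧ p ≤ F.dim ∧ z a ∈ clsA C ρ p ∧ z' a ∈ clsB C ρ p) ∧
    (∀ a b, HasDegree C (z' a * z b) (if a = b then 1 else 0)) ∧
    (j ≠ F.dim → ∀ y ∈ W.gr F j, ∑ a, W.tr F (R.cl (z' a) * y) • R.cl (z a) =
      y - act R (tot C ρ) y) := by
  classical
  have empty : (j ≠ F.dim → ∀ y ∈ W.gr F j, y - act R (tot C ρ) y = 0) →
      ∃ (r : ℕ) (z z' : Fin r → C.A F),
    (∀ a, ∃ p, j = 2 * p ∧ p ≤ F.dim ∧ z a ∈ clsA C ρ p ∧ z' a ∈ clsB C ρ p) ∧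
    (∀ a b, HasDegree C (z' a * z b) (if a = b then 1 else 0)) ∧
    (j ≠ F.dim → ∀ y ∈ W.gr F j, ∑ a, W.tr F (R.cl (z' a) * y) • R.cl (z a) =
      y - act R (tot C ρ) y) := by
    intro h
    refine ⟨0, Fin.elim0, Fin.elim0, fun a => a.elim0, fun a => a.elim0, fun hj y hy => ?_⟩
    rw [h hj y hy]
    simp
  by_cases hj : j = F.dim
  · exact empty fun h => absurd hj h
  by_cases hj2 : 2 * F.dim < j
  · refine empty fun _ y hy => ?_
    rw [W.gr_eq_bot F _ hj2] at hy
    rw [(Submodule.mem_bot _).1 hy, map_zero, sub_zero]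
  rcases Nat.even_or_odd' j with ⟨p, hp | hp⟩
  · obtain ⟨r, z, z', hd, hbas⟩ := exists_dual R (clsA C ρ p) (clsB C ρ p)
      (p := p) (fun x hx => (mem_clsA.1 hx).1) (fun x hx => (mem_clsB.1 hx).1)
      (fun x hx h => cl_eq_zero_of_pair hρ hF (by omega) hx h)
    refine ⟨r, z, z', fun a => ⟨p, hp, by omega, hd.mem a, hd.mem' a⟩, hd.deg, fun _ y hy => ?_⟩
    let Φ : W.H F →ₗ[W.K] W.H F :=
      ∑ a, (W.tr F ∘ₗ LinearMap.mulLeft W.K (R.cl (z' a))).smulRight (R.cl (z a))
    have hΦ : ∀ y, Φ y = ∑ a, W.tr F (R.cl (z' a) * y) • R.cl (z a) := by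
      intro y
      simp only [Φ, LinearMap.sum_apply]
      rfl
    have e1 : Φ (act R (tot C ρ) y) = 0 := by
      rw [hΦ]
      refine Finset.sum_eq_zero fun a _ => ?_
      obtain ⟨x', hx'⟩ := (tot_spec hρ y).1
      have hx' : W.map i x' = act R (tot C ρ) y := hx'
      rw [← hx', orth_clsB hρ (hd.mem' a) x', zero_smul]
    have e2 : y - act R (tot C ρ) y ∈ LinearMap.eqLocus Φ LinearMap.id := by
      refine sub_tot_mem hρ (hF j hj) _ (fun q z₀ hq hz => ?_) hy
      obtain rfl : q = p := by omega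
      rw [← cl_act, ← map_sub, LinearMap.mem_eqLocus, LinearMap.id_apply, hΦ]
      exact (hbas _ (of_sub_mem_A hρ hz)).symm
    rw [LinearMap.mem_eqLocus, map_sub, e1, sub_zero, LinearMap.id_apply, hΦ] at e2
    exact e2
  · refine empty fun _ y hy => ?_
    have e2 := sub_tot_mem hρ (hF j hj) ⊥ (fun q z hq hz => by omega) hy
    exact (Submodule.mem_bot _).1 e2

/-- **The Chow-Kunneth decomposition.** -/
theorem exists_ck : ∃ π, IsCKDec R F π ∧ ∀ j, C.comp (π j) (ρ j) = ρ j ∧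
    C.comp (ρ j) (π j) = ρ j := by
  classical
  choose r z z' h1 h2 h3 using exists_families hρ hF
  obtain ⟨E, hE⟩ : ∃ E : ℕ → C.A (F.prod F), ∀ j, E j = ∑ a, C.ext (z' j a) (z j a) :=
    ⟨_, fun _ => rfl⟩
  have hEm : ∀ j, E j ∈ C.gr (F.prod F) F.dim := by
    intro j
    rw [hE]
    refine Submodule.sum_mem _ fun a _ => ?_
    obtain ⟨p, -, -, hA, hB⟩ := h1 j a
    have := ext_mem' (C := C) (mem_clsB.1 hB).1 (mem_clsA.1 hA).1
    rwa [sub_add_cancel] at this
  have hEE : ∀ j l, C.comp (E j) (E l) = if j = l then E j else 0 := by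
    intro j l
    rw [hE, hE, sum_comp]
    have key : ∀ a, C.comp (C.ext (z' j a) (z j a)) (∑ b, C.ext (z' l b) (z l b)) =
        if j = l then C.ext (z' j a) (z j a) else 0 := by
      intro a
      rw [comp_sum]
      by_cases hjl : j = l
      · subst hjl
        rw [if_pos rfl, Finset.sum_eq_single a]
        · rw [comp_ext_ext (q := 1), one_smul]
          have := h2 j a a
          rwa [if_pos rfl, ch_comm C] at this
        · intro b _ hb
          rw [comp_ext_ext (q := 0), zero_smul]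
          have := h2 j b a
          rwa [if_neg hb, ch_comm C] at this
        · intro h; exact absurd (Finset.mem_univ _) h
      · rw [if_neg hjl]
        refine Finset.sum_eq_zero fun b _ => ?_
        obtain ⟨p, hp, -, hA, -⟩ := h1 j a
        obtain ⟨q, hq, -, -, hB⟩ := h1 l b
        rw [comp_ext_ext (q := 0), zero_smul]
        refine hasDegree_of_ne (C.mul_mem (mem_clsA.1 hA).1 (mem_clsB.1 hB).1) ?_
        omega
    rw [Finset.sum_congr rfl fun a _ => key a]
    split_ifs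
    · rfl
    · exact Finset.sum_const_zero
  have hEρ : ∀ j l, C.comp (E j) (ρ l) = 0 := by
    intro j l
    rw [hE, sum_comp]
    refine Finset.sum_eq_zero fun a _ => ?_
    obtain ⟨p, -, -, hA, -⟩ := h1 j a
    rw [ext_comp]
    have e : C.act (ρ l) (z j a) = 0 := by
      by_cases hl : l ≤ 2 * F.dim
      · rw [← tot_comp hρ hl, C.act_comp, (mem_clsA.1 hA).2, C.act_map_zero]
      · rw [hρ.out l (by omega), C.act_zero]
    rw [e, C.ext_zero_right]
  have hρE : ∀ j l, C.comp (ρ l) (E j) = 0 := by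
    intro j l
    rw [hE, comp_sum]
    refine Finset.sum_eq_zero fun a _ => ?_
    obtain ⟨p, -, -, -, hB⟩ := h1 j a
    rw [comp_ext]
    have e : C.act (tp C (ρ l)) (z' j a) = 0 := by
      by_cases hl : l ≤ 2 * F.dim
      · rw [← comp_tot hρ hl, tp_comp C (ch_comm C), C.act_comp, (mem_clsB.1 hB).2,
          C.act_map_zero]
      · rw [hρ.out l (by omega), Pool.Agent.TH133.tp_zero, C.act_zero]
    rw [e, C.ext_zero_left]
  have hEact : ∀ j m, ∀ y ∈ W.gr F m, j ≠ F.dim → act R (E j) y =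
      if m = j then y - act R (tot C ρ) y else 0 := by
    intro j m y hy hj
    rw [hE, act_sum', LinearMap.sum_apply]
    by_cases hm : m = j
    · subst hm
      rw [if_pos rfl, ← h3 m hj y hy]
      exact Finset.sum_congr rfl fun a _ => act_ext_apply R _ _ _
    · rw [if_neg hm]
      refine Finset.sum_eq_zero fun a _ => ?_
      obtain ⟨p, hp, hp', -, hB⟩ := h1 j a
      rw [act_ext_apply]
      have hz : z' j a ∈ C.gr F ((F.dim - p : ℕ) : ℤ) := by
        have := (mem_clsB.1 hB).1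
        rwa [show (F.dim : ℤ) - p = ((F.dim - p : ℕ) : ℤ) by omega] at this
      rw [W.tr_eq_zero (W.mul_mem (cl_mem' R hz) hy) (by omega), zero_smul]
  -- the components
  obtain ⟨c, hc⟩ : ∃ c : ℕ → C.A (F.prod F), ∀ j, c j = ρ j + E j := ⟨_, fun _ => rfl⟩
  have hcc : ∀ j l, C.comp (c j) (c l) = if j = l then c j else 0 := by
    intro j l
    rw [hc, hc, add_comp, comp_add, comp_add, hρ.comp, hEρ, hρE, hEE, add_zero, zero_add]
    split_ifs
    · rfl
    · rw [add_zero]
  have hcm : ∀ j, c j ∈ C.gr (F.prod F) F.dim := fun j => by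
    rw [hc]; exact Submodule.add_mem _ (hρ.deg j) (hEm j)
  obtain ⟨T, hT⟩ : ∃ T : Finset ℕ, T = (Finset.range (2 * F.dim + 1)).erase F.dim := ⟨_, rfl⟩
  obtain ⟨s, hs⟩ : ∃ s, s = ∑ l ∈ T, c l := ⟨_, rfl⟩
  have hsc : ∀ j ∈ T, C.comp s (c j) = c j := by
    intro j hj
    rw [hs, sum_comp, Finset.sum_eq_single j]
    · rw [hcc, if_pos rfl]
    · intro l _ hl; rw [hcc, if_neg hl]
    · intro h; exact absurd hj h
  have hcs : ∀ j ∈ T, C.comp (c j) s = c j := by
    intro j hj
    rw [hs, comp_sum, Finset.sum_eq_single j]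
    · rw [hcc, if_pos rfl]
    · intro l _ hl; rw [hcc, if_neg (Ne.symm hl)]
    · intro h; exact absurd hj h
  have hss : C.comp s s = s := by
    conv_lhs => rw [hs, sum_comp, ← hs]
    conv_rhs => rw [hs]
    exact Finset.sum_congr rfl fun j hj => hcs j hj
  have hnT : F.dim ∉ T := by rw [hT]; simp
  have hneT : ∀ l ∈ T, l ≠ F.dim := fun l hl e => by rw [e] at hl; exact hnT hl
  have hneT' : ∀ l ∈ T, ∀ j, j ∉ T → l ≠ j := fun l hl j hj e => by rw [e] at hl; exact hj hl
  obtain ⟨π, hπ⟩ : ∃ π : ℕ → C.A (F.prod F), ∀ j, π j = if j ∈ T then c j else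
    if j = F.dim then dg C F - s else 0 := ⟨_, fun _ => rfl⟩
  have hπT : ∀ j ∈ T, π j = c j := fun j hj => by rw [hπ, if_pos hj]
  have hπn : π F.dim = dg C F - s := by rw [hπ, if_neg hnT, if_pos rfl]
  have hπ0 : ∀ j, j ∉ T → j ≠ F.dim → π j = 0 := fun j hj hj' => by
    rw [hπ, if_neg hj, if_neg hj']
  have hcase : ∀ j, j ∈ T ∨ j = F.dim ∨ (j ∉ T ∧ j ≠ F.dim) := by
    intro j
    by_cases h : j ∈ T
    · exact Or.inl h
    · by_cases h' : j = F.dim
      · exact Or.inr (Or.inl h')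
      · exact Or.inr (Or.inr ⟨h, h'⟩)
  have hcn : ∀ j ∈ T, C.comp (c j) (dg C F - s) = 0 := fun j hj => by
    rw [comp_sub, comp_dg, hcs j hj, sub_self]
  have hnc : ∀ j ∈ T, C.comp (dg C F - s) (c j) = 0 := fun j hj => by
    rw [sub_comp, dg_comp, hsc j hj, sub_self]
  have hnn : C.comp (dg C F - s) (dg C F - s) = dg C F - s := by
    rw [comp_sub, comp_dg, sub_comp, dg_comp, hss, sub_self, sub_zero]
  have hTmem : ∀ j, j ∈ T ↔ j ≠ F.dim ∧ j < 2 * F.dim + 1 := fun j => by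
    rw [hT, Finset.mem_erase, Finset.mem_range]
  have hcact : ∀ j ∈ T, ∀ m, ∀ y ∈ W.gr F m, act R (c j) y = if m = j then y else 0 := by
    intro j hj m y hy
    rw [hc, act_add', LinearMap.add_apply, tot_proj hρ hy j,
      hEact j m y hy ((hTmem j).1 hj).1]
    by_cases hm : m = j
    · rw [if_pos hm.symm, if_pos hm, if_pos hm]; abel
    · rw [if_neg (Ne.symm hm), if_neg hm, if_neg hm, add_zero]
  refine ⟨π, ⟨?_, ?_, ?_, ?_, ?_⟩, ?_⟩
  · intro j
    change π j ∈ C.gr (F.prod F) F.dim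
    rcases hcase j with h | h | ⟨h, h'⟩
    · rw [hπT j h]; exact hcm j
    · rw [h, hπn]
      refine Submodule.sub_mem _ (dg_mem C F) ?_
      rw [hs]
      exact Submodule.sum_mem _ fun l _ => hcm l
    · rw [hπ0 j h h']; exact Submodule.zero_mem _
  · intro j hj
    refine hπ0 j (fun h => ?_) (by omega)
    have := ((hTmem j).1 h).2
    omega
  · intro j l
    rcases hcase j with h | h | ⟨h, h'⟩
    · rcases hcase l with g | g | ⟨g, g'⟩
      · rw [hπT j h, hπT l g, hcc]
      · rw [hπT j h, g, hπn, hcn j h, if_neg (fun e => by rw [e] at h; exact hnT h)]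
      · rw [hπ0 l g g', comp_zero, if_neg (hneT' j h l g)]
    · rw [h, hπn]
      rcases hcase l with g | g | ⟨g, g'⟩
      · rw [hπT l g, hnc l g, if_neg (fun e => by rw [← e] at g; exact hnT g)]
      · rw [g, hπn, hnn, if_pos rfl]
      · rw [hπ0 l g g', comp_zero, if_neg (Ne.symm g')]
    · rw [hπ0 j h h', zero_comp]
      split_ifs <;> rfl
  · have hmem : F.dim ∈ Finset.range (2 * F.dim + 1) := by
      rw [Finset.mem_range]; omega
    rw [← Finset.add_sum_erase _ _ hmem, ← hT, hπn, Finset.sum_congr rfl hπT, ← hs]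
    abel
  · intro j m y hy
    have hsact : act R s y = if m ∈ T then y else 0 := by
      rw [hs, act_sum', LinearMap.sum_apply]
      by_cases hm : m ∈ T
      · rw [if_pos hm, Finset.sum_eq_single m]
        · rw [hcact m hm m y hy, if_pos rfl]
        · intro l hl hlm; rw [hcact l hl m y hy, if_neg (Ne.symm hlm)]
        · intro h; exact absurd hm h
      · rw [if_neg hm]
        refine Finset.sum_eq_zero fun l hl => ?_
        rw [hcact l hl m y hy, if_neg (Ne.symm (hneT' l hl m hm))]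
    rcases hcase j with h | h | ⟨h, h'⟩
    · rw [hπT j h]; exact hcact j h m y hy
    · rw [h, hπn, act_sub', LinearMap.sub_apply, act_dg', LinearMap.id_apply, hsact]
      by_cases hm : m = F.dim
      · rw [if_neg (fun e => by rw [hm] at e; exact hnT e), if_pos hm, sub_zero]
      · rw [if_neg hm]
        by_cases hm2 : m ∈ T
        · rw [if_pos hm2, sub_self]
        · rw [if_neg hm2, sub_zero]
          rw [hTmem] at hm2
          rw [W.gr_eq_bot F _ (by omega)] at hy
          exact (Submodule.mem_bot _).1 hy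
    · rw [hπ0 j h h', act_zero', LinearMap.zero_apply]
      split_ifs with hm
      · rw [hTmem] at h
        rw [W.gr_eq_bot F _ (by omega)] at hy
        exact ((Submodule.mem_bot _).1 hy).symm
      · rfl
  · -- compatibility with the fixed system
    have hcρ : ∀ j l, C.comp (c j) (ρ l) = if j = l then ρ j else 0 := fun j l => by
      rw [hc, add_comp, hρ.comp, hEρ, add_zero]
    have hρc : ∀ j l, C.comp (ρ l) (c j) = if j = l then ρ j else 0 := fun j l => by
      rw [hc, comp_add, hρ.comp, hρE, add_zero]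
      by_cases h : j = l
      · rw [h]
      · rw [if_neg h, if_neg (Ne.symm h)]
    intro j
    rcases hcase j with h | h | ⟨h, h'⟩
    · rw [hπT j h, hcρ, hρc, if_pos rfl]
      exact ⟨rfl, rfl⟩
    · rw [h, hπn, sub_comp, comp_sub, comp_dg, dg_comp, hs, sum_comp, comp_sum]
      have e1 : ∑ l ∈ T, C.comp (c l) (ρ F.dim) = 0 := Finset.sum_eq_zero fun l hl => by
        rw [hcρ, if_neg (hneT l hl)]
      have e2 : ∑ l ∈ T, C.comp (ρ F.dim) (c l) = 0 := Finset.sum_eq_zero fun l hl => by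
        rw [hρc, if_neg (hneT l hl)]
      rw [e1, e2, sub_zero]
      exact ⟨rfl, rfl⟩
    · have : ρ j = 0 := by
        rw [hTmem] at h
        exact hρ.out j (by omega)
      rw [this, comp_zero, zero_comp]
      exact ⟨rfl, rfl⟩

end fixed

end Pool.Agent.Y106.CK
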