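import Pool.Agent.Y106.CK.Lift

/-!
# The Chow motives of the fixed part
-/

open CategoryTheory AlgebraicGeometry

set_option linter.unusedSectionVars false

universe u v w

namespace Pool.Agent.Y106.CK

open Pool.Agent.H914 Pool.Agent.H914.VarClass Pool.Agent.H914.VarClass.Obj
  Pool.Agent.H914.WeilCohomology Pool.Agent.W492.BB Pool.Agent.W492.BB.TheoryData
  Pool.Agent.W550.Corr Pool.Agent.TH133 Pool.Agent.W498.Dom Pool.Agent.Y106.FP
  Pool.Agent.Y106.Fib Pool.Agent.Y140.Fib Pool.Agent.W534 Pool.Agent.H447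

variable {k : Type u} [Field k] {𝒱 : VarClass k} {ops : CycleOps 𝒱}

variable {C : TheoryData.{u, w, 0} 𝒱 ℚ} [hC : IsChowProj C] {W : WeilCohomology.{u, v} ops}
  (R : CycleClasses C W) {Z S F F' : 𝒱.Obj} {g : Z ⟶ S} {G : S.Cycles} {E : Z.Cycles}
  {Q : PerverseDecomposition W g G E} {i : F ⟶ Z} {i' : F' ⟶ Z}

section

omit hC in
/-- A class on `Z × Z` inducing a given operator. -/
lemma exists_class {T : Module.End W.K (W.H Z)} {m : ℕ} (hm : Z.dim = F.dim + m)
    (h : ROp W Z (-(m : ℤ)) T) :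
    ∃ τ ∈ C.gr (Z.prod Z) F.dim, act R τ = T := by
  obtain ⟨z, hz, hz'⟩ := (rop_iff.1 h).exists_cyc (p := F.dim) (by rw [hm]; push_cast; ring)
  refine ⟨R.of z, R.of_mem hz, ?_⟩
  rw [act, R.cl_of, hz']

variable (hG : S.IsCyc 1 G) (hE : Z.IsCyc 1 E)

include hG hE

/-- The transport between the fixed parts of the cohomology of two fibres is induced by the
restriction to `F × F'` of a cycle class on `Z × Z`. -/
theorem exists_transport (h : IsFibre Q i) (h' : IsFibre Q i') {T : Module.End W.K (W.H Z)}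
    (hT : InducesBaseLam (W.gr Z) Q.piece (hop W g G) T) (hTq : ROp W Z (-1) T) :
    ∃ τ ∈ C.gr (Z.prod Z) F.dim, ∀ x,
      act R (C.pull (prodMap i i') τ) (W.map i x) = W.map i' x := by
  obtain ⟨N, hN⟩ := push_map h
  have hTd : IsHom (W.gr Z) (-2) T := by
    have := rop_opAlg.hom hTq
    simpa using this
  have h1 : ROp W Z (-(S.dim : ℤ)) (T ^ S.dim) :=
    rop_opAlg.cast (rop_opAlg.pow hTq S.dim) (by ring)
  have h2 : ROp W Z (-(S.dim : ℤ)) ((N : W.K) • T ^ S.dim) := rop_opAlg.smul N h1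
  obtain ⟨τ, hτ, hτ'⟩ := exists_class (F := F) R h.dim_eq h2
  refine ⟨τ, hτ, fun x => ?_⟩
  rw [act_restr, LinearMap.comp_apply, LinearMap.comp_apply, hτ', LinearMap.smul_apply,
    ← map_smul, hN]
  exact map_base_inv hG hE h' hT hTd x

/-- The projectors onto the graded parts of the fixed part are induced by restrictions of cycle
classes. -/
theorem exists_proj (h : IsFibre Q i) {T : Module.End W.K (W.H Z)}
    (hT : InducesBaseLam (W.gr Z) Q.piece (hop W g G) T) (hTq : ROp W Z (-1) T)
    (hK : ∀ j, ROp W Z 0 (proj (W.isInternal Z) j)) (j : ℕ) :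
    ∃ q : Cor C F, Restr i q ∧ IsFixedProjector W i j (actR R F q) ∧
      ∀ y, ∃ x ∈ W.gr Z j, actR R F q y = W.map i x := by
  obtain ⟨N, hN⟩ := push_map h
  have hTd : IsHom (W.gr Z) (-2) T := by
    have := rop_opAlg.hom hTq
    simpa using this
  have h1 : ROp W Z (-(S.dim : ℤ)) (T ^ S.dim) :=
    rop_opAlg.cast (rop_opAlg.pow hTq S.dim) (by ring)
  have h2 : ROp W Z (-(S.dim : ℤ)) ((N : W.K) • (proj (W.isInternal Z) j * T ^ S.dim)) :=
    rop_opAlg.smul N (rop_opAlg.cast (rop_opAlg.mul (hK j) h1) (zero_add _))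
  obtain ⟨τ, hτ, hτ'⟩ := exists_class (F := F) R h.dim_eq h2
  have hact : ∀ y, actR R F (cor (C.pull (prodMap i i) τ)) y =
      W.map i (proj (W.isInternal Z) j ((T ^ S.dim) ((N : W.K) • W.push i y))) := by
    intro y
    rw [actR_unc, unc_cor, act_restr, LinearMap.comp_apply, LinearMap.comp_apply, hτ',
      LinearMap.smul_apply, Module.End.mul_apply, ← map_smul (proj (W.isInternal Z) j),
      ← map_smul (T ^ S.dim)]
    rfl
  refine ⟨cor (C.pull (prodMap i i) τ), ⟨τ, hτ, rfl⟩, ⟨fun l x hx => ?_, fun y hy => ?_⟩,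
    fun y => ?_⟩
  · rw [hact, hN]
    obtain ⟨h3, -⟩ := base_inv hG hE hT hTd hx
    split_ifs with hlj
    · subst hlj
      rw [proj_same _ h3]
      exact map_base_inv hG hE h hT hTd x
    · rw [proj_ne _ h3 hlj, map_zero]
  · rw [hact, push_eq_zero hy, smul_zero, map_zero, map_zero, map_zero]
  · exact ⟨_, proj_mem _ _ _, hact y⟩

end

section

include hC

/-- The range of the projectors of a fixed system. -/
lemma IsFixedSystem.exists_apply {ρ : ℕ → C.A (F.prod F)} (hρ : IsFixedSystem R i ρ) (j : ℕ)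
    (y : W.H F) : ∃ x ∈ W.gr Z j, act R (ρ j) y = W.map i x := by
  obtain ⟨τ, hτ, hτ'⟩ := hρ.exists_restr j
  have h1 : ∃ x, act R (ρ j) y = W.map i x := by
    have hτ'' : ρ j = C.pull (prodMap i i) τ := hτ'
    rw [hτ'', act_restr]
    exact ⟨act R τ (W.push i y), rfl⟩
  obtain ⟨x, hx⟩ := h1
  refine ⟨proj (W.isInternal Z) j x, proj_mem _ _ _, ?_⟩
  have h2 : act R (ρ j) (act R (ρ j) y) = act R (ρ j) y := by
    rw [← act_comp_apply, hρ.comp, if_pos rfl]
  rw [← h2, hx]
  refine gr_induction (W.isInternal Z) (p := fun x => act R (ρ j) (W.map i x) =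
    W.map i (proj (W.isInternal Z) j x)) ?_ ?_ x
  · intro l x' hx'
    rw [(hρ.isFixedProjector j).apply l x' hx']
    split_ifs with hl
    · subst hl; rw [proj_same _ hx']
    · rw [proj_ne _ hx' hl, map_zero]
  · intro a b ha hb
    simp only [map_add, ha, hb]

end

section

variable (hG : S.IsCyc 1 G) (hE : Z.IsCyc 1 E)

include hG hE hC

/-- **The Chow motives of the fixed part exist.** -/
theorem exists_fixedSystem (hN : NilHomTrivial R Z) (h : IsFibre Q i)
    {T : Module.End W.K (W.H Z)}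
    (hT : InducesBaseLam (W.gr Z) Q.piece (hop W g G) T) (hTq : ROp W Z (-1) T)
    (hK : ∀ j, ROp W Z 0 (proj (W.isInternal Z) j)) :
    ∃ ρ, IsFixedSystem R i ρ := by
  choose q hq hq1 hq2 using exists_proj (C := C) R hG hE h hT hTq hK
  have hQ : ∀ j l, actR R F (q j) * actR R F (q l) = if j = l then actR R F (q j) else 0 := by
    intro j l
    apply LinearMap.ext
    intro y
    rw [Module.End.mul_apply]
    obtain ⟨x, hx, hx'⟩ := hq2 l y
    rw [hx', (hq1 j).apply l x hx]
    by_cases hjl : l = j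
    · subst hjl; rw [if_pos rfl, if_pos rfl, hx']
    · rw [if_neg hjl, if_neg (Ne.symm hjl), LinearMap.zero_apply]
  obtain ⟨ρ, h1, h2, h3⟩ := exists_lift_idem R hN i (2 * F.dim + 1) (fun j => actR R F (q j))
    (fun j _ l _ => hQ j l) q (fun j _ => hq j) (fun j _ => rfl)
  refine ⟨fun j => if j < 2 * F.dim + 1 then unc (ρ j) else 0, ?_, ?_, ?_, ?_, ?_⟩
  · intro j
    change (if j < 2 * F.dim + 1 then unc (ρ j) else 0) ∈ C.gr (F.prod F) F.dim
    split_ifs with hj
    · exact (h2 j hj).mem_cor0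
    · exact Submodule.zero_mem _
  · intro j hj
    change (if j < 2 * F.dim + 1 then unc (ρ j) else 0) = 0
    rw [if_neg (by omega)]
  · intro j l
    change C.comp (if j < 2 * F.dim + 1 then unc (ρ j) else 0)
      (if l < 2 * F.dim + 1 then unc (ρ l) else 0) = if j = l then
        (if j < 2 * F.dim + 1 then unc (ρ j) else 0) else 0
    by_cases hj : j < 2 * F.dim + 1
    · by_cases hl : l < 2 * F.dim + 1
      · rw [if_pos hj, if_pos hl, ← unc_mul, h1 l hl j hj]
        by_cases hjl : j = l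
        · subst hjl; rw [if_pos rfl, if_pos rfl]
        · rw [if_neg hjl, if_neg (Ne.symm hjl), unc_zero]
      · rw [if_neg hl, comp_zero, if_neg (by omega)]
    · rw [if_neg hj, zero_comp]
      split_ifs <;> rfl
  · intro j
    by_cases hj : j < 2 * F.dim + 1
    · have e : act R ((fun j => if j < 2 * F.dim + 1 then unc (ρ j) else 0) j) =
          actR R F (q j) := by
        simp only [if_pos hj]
        exact h3 j hj
      rw [e]
      exact hq1 j
    · have e : act R ((fun j => if j < 2 * F.dim + 1 then unc (ρ j) else 0) j) = 0 := by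
        simp only [if_neg hj]
        exact act_zero' R
      rw [e]
      refine ⟨fun l x hx => ?_, fun y _ => rfl⟩
      split_ifs with hl
      · subst hl
        have h4 := W.map_mem i hx
        rw [W.gr_eq_bot F _ (by omega)] at h4
        rw [(Submodule.mem_bot _).1 h4, LinearMap.zero_apply]
      · rfl
  · intro j
    change ∃ τ ∈ C.gr (Z.prod Z) F.dim, (if j < 2 * F.dim + 1 then unc (ρ j) else 0) =
      C.pull (prodMap i i) τ
    split_ifs with hj
    · exact h2 j hj
    · exact ⟨0, Submodule.zero_mem _, (map_zero _).symm⟩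

end

end Pool.Agent.Y106.CK
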