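import Pool.Agent.Y106.CK.Murre

/-!
# Murre's conjecture (C): independence of the filtration of the Chow-Kunneth decomposition
-/

open CategoryTheory AlgebraicGeometry

set_option linter.unusedSectionVars false

universe u v w

namespace Pool.Agent.Y106.CK

open Pool.Agent.H914 Pool.Agent.H914.VarClass Pool.Agent.H914.VarClass.Obj
  Pool.Agent.H914.WeilCohomology Pool.Agent.W492.BB Pool.Agent.W492.BB.TheoryData
  Pool.Agent.W550.Corr Pool.Agent.TH133 Pool.Agent.W498.Dom Pool.Agent.Y106.FP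
  Pool.Agent.Y106.Fib Pool.Agent.Y140.Fib Pool.Agent.W534 Pool.Agent.H447

variable {k : Type u} [Field k] {𝒱 : VarClass k} {ops : CycleOps 𝒱}

variable {C : TheoryData.{u, w, 0} 𝒱 ℚ} [hC : IsChowProj C] {W : WeilCohomology.{u, v} ops}
  {R : CycleClasses C W} {Z S F F' X Y : 𝒱.Obj} {i : F ⟶ Z} {i' : F' ⟶ Z}

/-- Correspondences do not raise the weight from `j` to `n`. -/
def NoRaise (C : TheoryData.{u, w, 0} 𝒱 ℚ) {X : 𝒱.Obj} (π : ℕ → C.A (X.prod X)) (j n : ℕ) :
    Prop :=
  ∀ c ∈ C.gr (X.prod X) X.dim, ∀ l : ℕ, ∀ x ∈ C.gr X l, C.act (π n) (C.act c (C.act (π j) x)) = 0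

/-- The class `x` lies in the step of the filtration of `CH^l(X)` given by the first `m`
projectors. -/
def InStep (C : TheoryData.{u, w, 0} 𝒱 ℚ) {X : 𝒱.Obj} (π : ℕ → C.A (X.prod X)) (l m : ℕ)
    (x : C.A X) : Prop :=
  ∃ y ∈ C.gr X l, x = ∑ j ∈ Finset.range m, C.act (π j) y

/-- The filtration does not depend on the Chow-Kunneth decomposition. -/
def Indep (R : CycleClasses C W) (X : 𝒱.Obj) : Prop :=
  ∀ π π', IsCKDec R X π → IsCKDec R X π' → ∀ (l m : ℕ) (x : C.A X),
    InStep C π l m x → InStep C π' l m x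

/-- Elements of the ring of correspondences as operators. -/
noncomputable def ac (a : Cor C X) (x : C.A X) : C.A X := C.act (unc a) x

lemma ac_cor (γ : C.A (X.prod X)) (x : C.A X) : ac (cor γ) x = C.act γ x := rfl

include hC

lemma ac_mul (a b : Cor C X) (x : C.A X) : ac (a * b) x = ac a (ac b x) := by
  unfold ac
  rw [unc_mul, C.act_comp]

lemma ac_one (x : C.A X) : ac (1 : Cor C X) x = x := by
  unfold ac
  rw [unc_one, act_dg]

lemma ac_zero (x : C.A X) : ac (0 : Cor C X) x = 0 := by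
  unfold ac
  rw [unc_zero, C.act_zero]

lemma ac_map_zero (a : Cor C X) : ac a (0 : C.A X) = 0 := C.act_map_zero _

lemma ac_add (a b : Cor C X) (x : C.A X) : ac (a + b) x = ac a x + ac b x := by
  unfold ac
  rw [unc_add, act_add_left]

lemma act_sum_left {ι : Type*} (s : Finset ι) (Γ : ι → C.A (X.prod Y)) (x : C.A X) :
    C.act (∑ a ∈ s, Γ a) x = ∑ a ∈ s, C.act (Γ a) x := by
  simp only [TheoryData.act_apply, Finset.sum_mul, map_sum]

lemma act_map_sum {ι : Type*} (s : Finset ι) (Γ : C.A (X.prod Y)) (f : ι → C.A X) :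
    C.act Γ (∑ a ∈ s, f a) = ∑ a ∈ s, C.act Γ (f a) := by
  simp only [TheoryData.act_apply, Finset.mul_sum, map_sum]

lemma ac_gr {a : Cor C X} (ha : a ∈ cor0 C X) {l : ℤ} {x : C.A X} (hx : x ∈ C.gr X l) :
    ac a x ∈ C.gr X l := act_mem0 C (mem_cor0'.1 ha) hx

section ck

variable {π π' : ℕ → C.A (X.prod X)}

lemma ck_mul (hπ : IsCKDec R X π) (a b : ℕ) :
    cor (π a) * cor (π b) = if a = b then cor (π a) else 0 := by
  apply unc_inj
  rw [unc_mul, unc_cor, unc_cor, hπ.comp]
  by_cases h : a = b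
  · rw [if_pos h, if_pos h.symm, h]; rfl
  · rw [if_neg h, if_neg (Ne.symm h)]; rfl

lemma ck_mem (hπ : IsCKDec R X π) (a : ℕ) : cor (π a) ∈ cor0 C X := mem_cor0'.2 (hπ.deg a)

lemma ck_sum (hπ : IsCKDec R X π) :
    ∑ a ∈ Finset.range (2 * X.dim + 1), cor (π a) = 1 := by
  apply unc_inj
  rw [unc_sum, unc_one]
  exact hπ.sum

lemma ck_act_self (hπ : IsCKDec R X π) (a b : ℕ) (x : C.A X) :
    C.act (π b) (C.act (π a) x) = if a = b then C.act (π a) x else 0 := by
  rw [← C.act_comp, hπ.comp]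
  split_ifs
  · rfl
  · exact C.act_zero x

lemma ck_total (hπ : IsCKDec R X π) (x : C.A X) :
    ∑ a ∈ Finset.range (2 * X.dim + 1), C.act (π a) x = x := by
  rw [← act_sum_left, hπ.sum, act_dg]

lemma inStep_iff (hπ : IsCKDec R X π) {l m : ℕ} {x : C.A X} :
    InStep C π l m x ↔ x ∈ C.gr X l ∧ ∀ n, m ≤ n → C.act (π n) x = 0 := by
  constructor
  · rintro ⟨y, hy, rfl⟩
    refine ⟨Submodule.sum_mem _ fun j _ => act_mem0 C (hπ.deg j) hy, fun n hn => ?_⟩
    rw [act_map_sum]
    refine Finset.sum_eq_zero fun j hj => ?_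
    rw [Finset.mem_range] at hj
    rw [ck_act_self hπ, if_neg (by omega)]
  · rintro ⟨hx, h⟩
    refine ⟨x, hx, ?_⟩
    have h1 := ck_total hπ x
    obtain ⟨M, hM⟩ : ∃ M, M = max m (2 * X.dim + 1) := ⟨_, rfl⟩
    have h2 : ∑ a ∈ Finset.range m, C.act (π a) x = ∑ a ∈ Finset.range M, C.act (π a) x := by
      refine Finset.sum_subset (fun a ha => ?_) (fun a _ ha => ?_)
      · rw [Finset.mem_range] at ha ⊢; omega
      · rw [Finset.mem_range] at ha; exact h a (by omega)
    have h3 : ∑ a ∈ Finset.range (2 * X.dim + 1), C.act (π a) x =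
        ∑ a ∈ Finset.range M, C.act (π a) x := by
      refine Finset.sum_subset (fun a ha => ?_) (fun a _ ha => ?_)
      · rw [Finset.mem_range] at ha ⊢; omega
      · rw [Finset.mem_range] at ha; rw [hπ.out a (by omega), C.act_zero]
    rw [h2, ← h3, h1]

/-- **Independence implies that weights are not raised.** -/
theorem Indep.noRaise (hI : Indep R X) (hπ : IsCKDec R X π) {j n : ℕ} (hjn : j < n) :
    NoRaise C π j n := by
  intro c hc l x hx
  obtain ⟨t, ht⟩ : ∃ t : Cor C X, t = cor (π n) * cor c * cor (π j) := ⟨_, rfl⟩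
  have hcm : cor c ∈ cor0 C X := mem_cor0'.2 hc
  have htm : t ∈ cor0 C X := by
    rw [ht]
    exact (cor0 C X).mul_mem ((cor0 C X).mul_mem (ck_mem hπ n) hcm) (ck_mem hπ j)
  have hnt : cor (π n) * t = t := by
    rw [ht, ← mul_assoc, ← mul_assoc, ck_mul hπ, if_pos rfl]
  have hjt : cor (π j) * t = 0 := by
    rw [ht, ← mul_assoc, ← mul_assoc, ck_mul hπ, if_neg (by omega), zero_mul, zero_mul]
  have htj : t * cor (π j) = t := by
    rw [ht, mul_assoc, ck_mul hπ, if_pos rfl]
  have htt : t * t = 0 := by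
    have e : t * t = t * cor (π j) * t := by rw [htj]
    rw [e, mul_assoc, hjt, mul_zero]
  have h1 : (1 - t) * (1 + t) = 1 := by
    rw [sub_mul, one_mul, mul_add, mul_one, htt]; abel
  have h2 : (1 + t) * (1 - t) = 1 := by
    rw [add_mul, one_mul, mul_sub, mul_one, htt]; abel
  have hum : (1 + t) ∈ cor0 C X := (cor0 C X).add_mem (cor0 C X).one_mem htm
  have hvm : (1 - t) ∈ cor0 C X := (cor0 C X).sub_mem (cor0 C X).one_mem htm
  have hat : actR R X t = 0 := by
    apply LinearMap.ext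
    intro y
    refine gr_induction (W.isInternal X) (p := fun y => actR R X t y =
      (0 : W.H X →ₗ[W.K] W.H X) y) ?_ ?_ y
    · intro s y hy
      rw [ht, map_mul, map_mul]
      change act R (π n) (act R c (act R (π j) y)) = 0
      rw [hπ.act_eq j s y hy]
      by_cases hs : s = j
      · rw [if_pos hs, hπ.act_eq n s _ (act_gr R hc hy), if_neg (by omega)]
      · rw [if_neg hs, map_zero, map_zero]
    · intro y y' h h'
      rw [map_add, map_add, h, h']
  obtain ⟨π', hπ'⟩ : ∃ π' : ℕ → C.A (X.prod X), ∀ a, π' a =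
    unc ((1 + t) * cor (π a) * (1 - t)) := ⟨_, fun _ => rfl⟩
  have hcor : ∀ a, cor (π' a) = (1 + t) * cor (π a) * (1 - t) := fun a => by
    rw [hπ']; rfl
  have hCK : IsCKDec R X π' := by
    refine ⟨fun a => ?_, fun a ha => ?_, fun a b => ?_, ?_, fun a b y hy => ?_⟩
    · rw [hπ']
      exact mem_cor0'.1 ((cor0 C X).mul_mem ((cor0 C X).mul_mem hum (ck_mem hπ a)) hvm)
    · have h3 : (cor (π a) : Cor C X) = 0 := by rw [hπ.out a ha]; rfl
      rw [hπ', h3, mul_zero, zero_mul, unc_zero]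
    · have h3 : cor (π' b) * cor (π' a) = if a = b then cor (π' a) else 0 := by
        have e1 : cor (π' b) * cor (π' a) = (1 + t) * (cor (π b) * (((1 - t) * (1 + t)) *
          cor (π a))) * (1 - t) := by
          rw [hcor, hcor]; noncomm_ring
        rw [e1, h1, one_mul, ck_mul hπ]
        by_cases h : a = b
        · rw [if_pos h, if_pos h.symm, hcor, h]
        · rw [if_neg h, if_neg (Ne.symm h), mul_zero, zero_mul]
      have h4 := congrArg unc h3
      rw [unc_mul, unc_cor, unc_cor] at h4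
      rw [h4]
      split_ifs <;> rfl
    · have h3 : ∑ a ∈ Finset.range (2 * X.dim + 1), cor (π' a) = 1 := by
        rw [Finset.sum_congr rfl fun a _ => hcor a, ← Finset.sum_mul, ← Finset.mul_sum,
          ck_sum hπ, mul_one, h2]
      have h4 := congrArg unc h3
      rw [unc_sum, unc_one] at h4
      exact h4
    · have h3 : act R (π' a) = act R (π a) := by
        have h4 : actR R X (cor (π' a)) = actR R X (cor (π a)) := by
          rw [hcor, map_mul, map_mul, map_add, map_sub, hat, map_one, add_zero, sub_zero, one_mul,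
            mul_one]
        exact h4
      rw [h3, hπ.act_eq a b y hy]
  -- the conclusion
  obtain ⟨y, hy⟩ : ∃ y, y = C.act (π j) x := ⟨_, rfl⟩
  have hym : y ∈ C.gr X l := by rw [hy]; exact act_mem0 C (hπ.deg j) hx
  have hstep : InStep C π' l (j + 1) (ac (1 + t) y) := by
    rw [inStep_iff hCK]
    refine ⟨ac_gr hum hym, fun a ha => ?_⟩
    rw [← ac_cor, hcor, ← ac_mul, mul_assoc, h1, mul_one, ac_mul, ac_cor, hy,
      ck_act_self hπ, if_neg (by omega), ac_map_zero]
  have h5 := ((inStep_iff hπ).1 (hI π' π hCK hπ _ _ _ hstep)).2 n (by omega)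
  rw [← ac_cor, ← ac_mul, mul_add, mul_one, hnt, ac_add, ac_cor, hy, ck_act_self hπ,
    if_neg (by omega), zero_add, ht, ac_mul, ac_mul, ac_cor, ac_cor, ac_cor, ck_act_self hπ,
    if_pos rfl] at h5
  exact h5

/-- Chow-Kunneth decompositions are conjugate if homologically trivial correspondences are
nilpotent. -/
theorem exists_conj (hN : NilHomTrivial R X) (hπ : IsCKDec R X π) (hπ' : IsCKDec R X π') :
    ∃ u ∈ cor0 C X, ∃ v ∈ cor0 C X, u * v = 1 ∧ v * u = 1 ∧
      ∀ a, cor (π' a) = u * cor (π a) * v := by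
  obtain ⟨u, hu⟩ : ∃ u : Cor C X, u = ∑ a ∈ Finset.range (2 * X.dim + 1),
    cor (π' a) * cor (π a) := ⟨_, rfl⟩
  have hum : u ∈ cor0 C X := by
    rw [hu]
    exact (cor0 C X).sum_mem fun a _ => (cor0 C X).mul_mem (ck_mem hπ' a) (ck_mem hπ a)
  have hue : ∀ a ∈ Finset.range (2 * X.dim + 1), u * cor (π a) = cor (π' a) * cor (π a) := by
    intro a ha
    rw [hu, Finset.sum_mul, Finset.sum_eq_single a]
    · rw [mul_assoc, ck_mul hπ, if_pos rfl]
    · intro b _ hb
      rw [mul_assoc, ck_mul hπ, if_neg hb, mul_zero]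
    · intro h; exact absurd ha h
  have heu : ∀ a ∈ Finset.range (2 * X.dim + 1), cor (π' a) * u = cor (π' a) * cor (π a) := by
    intro a ha
    rw [hu, Finset.mul_sum, Finset.sum_eq_single a]
    · rw [← mul_assoc, ck_mul hπ', if_pos rfl]
    · intro b _ hb
      rw [← mul_assoc, ck_mul hπ', if_neg (Ne.symm hb), zero_mul]
    · intro h; exact absurd ha h
  have hau : actR R X u = 1 := by
    apply LinearMap.ext
    intro y
    refine gr_induction (W.isInternal X) (p := fun y => actR R X u y =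
      (1 : W.H X →ₗ[W.K] W.H X) y) ?_ ?_ y
    · intro s y hy
      rw [hu, map_sum, LinearMap.sum_apply]
      have h1 : ∀ a ∈ Finset.range (2 * X.dim + 1), actR R X (cor (π' a) * cor (π a)) y =
          if s = a then y else 0 := by
        intro a _
        rw [map_mul]
        change act R (π' a) (act R (π a) y) = _
        rw [hπ.act_eq a s y hy]
        split_ifs with h
        · rw [hπ'.act_eq a s y hy, if_pos h]
        · rw [map_zero]
      rw [Finset.sum_congr rfl h1, Finset.sum_ite_eq]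
      split_ifs with h
      · rfl
      · rw [Finset.mem_range] at h
        rw [W.gr_eq_bot X s (by omega)] at hy
        rw [(Submodule.mem_bot _).1 hy]; rfl
    · intro y y' h h'
      rw [map_add, map_add, h, h']
  obtain ⟨d, hd⟩ : ∃ d, d = 1 - u := ⟨_, rfl⟩
  have hdm : d ∈ cor0 C X := by rw [hd]; exact (cor0 C X).sub_mem (cor0 C X).one_mem hum
  have hd0 : act R (unc d) = 0 := by
    have h1 : actR R X d = 0 := by rw [hd, map_sub, hau, map_one, sub_self]
    exact h1
  obtain ⟨N, hN⟩ := (isNilp_iff _).1 (hN (unc d) (mem_cor0'.1 hdm) (cl_eq_zero R hd0))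
  rw [cor_unc] at hN
  have hud : u = 1 - d := by rw [hd]; abel
  refine ⟨u, hum, ∑ s ∈ Finset.range N, d ^ s, (cor0 C X).sum_mem fun s _ =>
    (cor0 C X).pow_mem hdm s, ?_, ?_, fun a => ?_⟩
  · rw [hud, mul_neg_geom_sum, hN, sub_zero]
  · rw [hud, geom_sum_mul_neg, hN, sub_zero]
  · have h1 : u * ∑ s ∈ Finset.range N, d ^ s = 1 := by
      rw [hud, mul_neg_geom_sum, hN, sub_zero]
    by_cases ha : a ∈ Finset.range (2 * X.dim + 1)
    · rw [hue a ha, ← heu a ha, mul_assoc, h1, mul_one]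
    · rw [Finset.mem_range] at ha
      have e1 : (cor (π' a) : Cor C X) = 0 := by rw [hπ'.out a (by omega)]; rfl
      have e2 : (cor (π a) : Cor C X) = 0 := by rw [hπ.out a (by omega)]; rfl
      rw [e1, e2, mul_zero, zero_mul]

/-- Weights are raised by one decomposition if and only if they are raised by the others. -/
theorem NoRaise.transfer (hN : NilHomTrivial R X) (hπ : IsCKDec R X π) (hπ' : IsCKDec R X π')
    {j n : ℕ} (h : NoRaise C π j n) : NoRaise C π' j n := by
  obtain ⟨u, hu, v, hv, -, -, he⟩ := exists_conj hN hπ hπ'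
  intro c hc l x hx
  have e1 : C.act (π' n) (C.act c (C.act (π' j) x)) =
      ac u (C.act (π n) (C.act (unc (v * cor c * u)) (C.act (π j) (ac v x)))) := by
    rw [← ac_cor (π' n), ← ac_cor (π' j), he, he, ac_mul, ac_mul, ac_mul, ac_mul]
    congr 1
    rw [ac_cor]
    congr 1
    change _ = ac (v * cor c * u) _
    rw [ac_mul, ac_mul, ac_cor, ac_cor]
  have hm : v * cor c * u ∈ cor0 C X :=
    (cor0 C X).mul_mem ((cor0 C X).mul_mem hv (mem_cor0'.2 hc)) hu
  have e2 := h (unc (v * cor c * u)) (mem_cor0'.1 hm) l (ac v x) (ac_gr hv hx)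
  rw [e1, e2, ac_map_zero]

theorem indep_of_noRaise (hN : NilHomTrivial R X) (hπ : IsCKDec R X π)
    (h : ∀ j n, j < n → NoRaise C π j n) : Indep R X := by
  intro π₁ π₂ h1 h2 l m x hx
  have hx1 := (inStep_iff h1).1 hx
  rw [inStep_iff h2]
  refine ⟨hx1.1, fun n hn => ?_⟩
  obtain ⟨y, hy, rfl⟩ := hx
  obtain ⟨u, hu, v, hv, -, -, he⟩ := exists_conj hN h1 h2
  rw [act_map_sum]
  refine Finset.sum_eq_zero fun j hj => ?_
  rw [Finset.mem_range] at hj
  rw [← ac_cor, he, ac_mul, ac_mul, ac_cor]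
  have := (NoRaise.transfer hN hπ h1 (h j n (by omega))) (unc v) (mem_cor0'.1 hv) l y hy
  change ac u (C.act (π₁ n) (C.act (unc v) (C.act (π₁ j) y))) = 0
  rw [this, ac_map_zero]

/-- The part `F^0 CH^l(X) = CH^l(X)` of Murre's conjecture (B). -/
theorem zero_above (hne : (1 : W.H X) ≠ 0) (hπ : IsCKDec R X π)
    (h : ∀ j n, j < n → NoRaise C π j n) {l n : ℕ} (hln : 2 * l < n) {x : C.A X}
    (hx : x ∈ C.gr X l) : C.act (π n) x = 0 := by
  by_cases hl : X.dim < l
  · rw [hC.gr_top X l x hx (by exact_mod_cast hl), C.act_map_zero]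
  obtain ⟨η, hη, q, hq, hq'⟩ := hC.polarized X
  have hpow : ∀ s : ℕ, η ^ s ∈ C.gr X s := by
    intro s
    induction s with
    | zero => rw [pow_zero]; exact_mod_cast C.one_mem X
    | succ s ih =>
      rw [pow_succ]
      have := C.mul_mem ih (show η ∈ C.gr X 1 from hη)
      exact_mod_cast this
  obtain ⟨q₁, hq₁⟩ := exists_hasDegree (hpow X.dim)
  have hq₁0 : q₁ ≠ 0 := by
    intro h0
    have h1 := (hq₁ X).1
    have h2 : q • (1 : C.A X) = 0 := by
      have h3 : q • (1 : C.A X) = q₁ • (1 : C.A X) := hq'.symm.trans h1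
      rw [h3, h0, zero_smul]
    have h4 := congrArg R.cl h2
    rw [cl_smul', map_one, map_zero] at h4
    rcases smul_eq_zero.1 h4 with h5 | h5
    · exact hq (by exact_mod_cast h5)
    · exact hne h5
  obtain ⟨x', hx'⟩ : ∃ x', x' = C.act (π n) x := ⟨_, rfl⟩
  have hx'm : x' ∈ C.gr X l := by rw [hx']; exact act_mem0 C (hπ.deg n) hx
  have hx'n : C.act (π n) x' = x' := by rw [hx', ck_act_self hπ, if_pos rfl]
  obtain ⟨N, hN⟩ : ∃ N, N = C.ext (η ^ (X.dim - l)) x' := ⟨_, rfl⟩
  have hNm : N ∈ C.gr (X.prod X) X.dim := by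
    rw [hN]
    have := ext_mem' (C := C) (hpow (X.dim - l)) hx'm
    rwa [show ((X.dim - l : ℕ) : ℤ) + l = X.dim by omega] at this
  have h1 : C.act N (η ^ l) = q₁ • x' := by
    rw [hN]
    apply act_ext'
    rw [← pow_add, show X.dim - l + l = X.dim by omega]
    exact hq₁
  have h2 : C.act (π n) (C.act N (η ^ l)) = 0 := by
    rw [← ck_total hπ (η ^ l), act_map_sum, act_map_sum]
    refine Finset.sum_eq_zero fun j _ => ?_
    by_cases hj : j < n
    · exact h j n hj N hNm l _ (hpow l)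
    · have h3 : C.act (π j) (η ^ l) ∈ C.gr X l := act_mem0 C (hπ.deg j) (hpow l)
      have h4 : R.cl (C.act (π j) (η ^ l)) = 0 := by
        rw [cl_act, hπ.act_eq _ _ _ (cl_mem' R (hpow l)), if_neg (by omega)]
      have h5 : η ^ (X.dim - l) * C.act (π j) (η ^ l) ∈ C.gr X X.dim := by
        have := C.mul_mem (hpow (X.dim - l)) h3
        rwa [show ((X.dim - l : ℕ) : ℤ) + l = X.dim by omega] at this
      obtain ⟨r, hr⟩ := exists_hasDegree h5
      have hr0 : r = 0 := hasDegree_eq_zero (R := R) hne hr (by rw [map_mul, h4, mul_zero])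
      rw [hN, act_ext' hr, hr0, zero_smul, C.act_map_zero]
  rw [h1] at h2
  have h3 : C.act (π n) (q₁ • x') = q₁ • C.act (π n) x' := map_smul (C.actL (π n)) q₁ x'
  rw [h3, hx'n] at h2
  rw [← hx']
  exact (smul_eq_zero.1 h2).resolve_left hq₁0

end ck

end Pool.Agent.Y106.CK
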