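import Pool.Agent.Y106.CK.Indep

/-!
# Murre's conjecture (C) for the fixed part and for fibres
-/

open CategoryTheory AlgebraicGeometry

set_option linter.unusedSectionVars false

universe u v w

namespace Pool.Agent.Y106.CK

open Pool.Agent.H914 Pool.Agent.H914.VarClass Pool.Agent.H914.VarClass.Obj
  Pool.Agent.H914.WeilCohomology Pool.Agent.W492.BB Pool.Agent.W492.BB.TheoryData
  Pool.Agent.W550.Corr Pool.Agent.TH133 Pool.Agent.W498.Dom Pool.Agent.Y106.FP
  Pool.Agent.Y106.Fib Pool.Agent.Y140.Fib Pool.Agent.W534 Pool.Agent.H447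

variable {k : Type u} [Field k] {𝒱 : VarClass k} {ops : CycleOps 𝒱}

variable {C : TheoryData.{u, w, 0} 𝒱 ℚ} [hC : IsChowProj C] {W : WeilCohomology.{u, v} ops}
  {R : CycleClasses C W} {Z S F F' X Y : 𝒱.Obj} {i : F ⟶ Z} {i' : F' ⟶ Z}

include hC

section fixed

variable {ρ : ℕ → C.A (F.prod F)} (hρ : IsFixedSystem R i ρ) {ρ' : ℕ → C.A (F'.prod F')}
  (hρ' : IsFixedSystem R i' ρ') {π : ℕ → C.A (Z.prod Z)} (hπ : IsCKDec R Z π)

include hρ hπ

lemma act_a_mem {p : C.A (F.prod F)} {q : C.A (Z.prod Z)} {a : C.A (F.prod Z)}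
    {b : C.A (Z.prod F)} (hab : IsFactor C p q a b) {l : ℕ} {x : C.A F} (hx : x ∈ C.gr F l) :
    C.act a x ∈ C.gr Z l := by
  have := act_mem_gr (show a ∈ C.gr (F.prod Z) F.dim from hab.deg_a) hx
  rwa [add_sub_cancel_left] at this

/-- The projectors onto the fixed part kill `CH^l` in degrees above `2 l`. -/
theorem fixed_above (hN : NilHomTrivial R Z) {m : ℕ} (hm : Z.dim = F.dim + m)
    (hne : (1 : W.H Z) ≠ 0) (h : ∀ j n, j < n → NoRaise C π j n) {l n : ℕ} (hln : 2 * l < n)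
    {x : C.A F} (hx : x ∈ C.gr F l) : C.act (ρ n) x = 0 := by
  obtain ⟨a, b, hab⟩ := exists_factor hρ hN hm hπ n
  rw [hab.act_eq (by rw [hπ.comp, if_pos rfl]),
    zero_above hne hπ h hln (act_a_mem hρ hπ hab hx), C.act_map_zero]

include hρ'

/-- **Correspondences between fixed parts do not raise weights.** -/
theorem fixed_noRaise (hN : NilHomTrivial R Z) {m m' : ℕ} (hm : Z.dim = F.dim + m)
    (hm' : Z.dim = F'.dim + m') (h : ∀ j n, j < n → NoRaise C π j n) {j n : ℕ} (hjn : j < n)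
    {c : C.A (F.prod F')} (hc : c ∈ C.gr (F.prod F') F.dim) {l : ℕ} {x : C.A F}
    (hx : x ∈ C.gr F l) : C.act (ρ' n) (C.act c (C.act (ρ j) x)) = 0 := by
  obtain ⟨a, b, hab⟩ := exists_factor hρ hN hm hπ j
  obtain ⟨a', b', hab'⟩ := exists_factor hρ' hN hm' hπ n
  have hq : ∀ s, C.comp (π s) (π s) = π s := fun s => by rw [hπ.comp, if_pos rfl]
  have hγ : C.comp (C.comp b c) a' ∈ C.gr (Z.prod Z) Z.dim :=
    comp_mem_of (e' := (F'.dim : ℤ)) (comp_mem_of (e := (Z.dim : ℤ)) (e'' := (Z.dim : ℤ)) hab.deg_b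
      hc (by ring)) hab'.deg_a (by ring)
  have h1 := h j n hjn _ hγ l _ (act_a_mem hρ hπ hab hx)
  rw [C.act_comp, C.act_comp] at h1
  rw [hab'.act_eq (hq n), hab.act_eq (hq j), h1, C.act_map_zero]

end fixed

section fibre

variable {ρ : ℕ → C.A (F.prod F)} (hρ : IsFixedSystem R i ρ) {π : ℕ → C.A (F.prod F)}
  (hπ : IsCKDec R F π) {r : ℕ → ℕ} {z z' : ∀ j, Fin (r j) → C.A F}
  (h1 : ∀ j a, ∃ p, j = 2 * p ∧ p ≤ F.dim ∧ z j a ∈ clsA C ρ p ∧ z' j a ∈ clsB C ρ p)

include hρ hπ h1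

/-- Two degrees in which the decomposition consists of the fixed part and algebraic classes. -/
theorem fibre_noRaise (hne : (1 : W.H F) ≠ 0)
    (hR : ∀ j n, j < n → NoRaise C ρ j n)
    (hA : ∀ l n : ℕ, 2 * l < n → ∀ x ∈ C.gr F l, C.act (ρ n) x = 0)
    {j n : ℕ} (hjn : j < n)
    (hj : π j = ρ j + ∑ a, C.ext (z' j a) (z j a))
    (hn : π n = ρ n + ∑ a, C.ext (z' n a) (z n a)) : NoRaise C π j n := by
  intro c hc l x hx
  have hadd : ∀ (Γ : C.A (F.prod F)) (a b : C.A F), C.act Γ (a + b) = C.act Γ a + C.act Γ b :=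
    fun Γ a b => map_add (C.actL Γ) a b
  obtain ⟨y, hy⟩ : ∃ y, y = C.act (ρ j) x := ⟨_, rfl⟩
  obtain ⟨t, ht⟩ : ∃ t, t = C.act (∑ a, C.ext (z' j a) (z j a)) x := ⟨_, rfl⟩
  have hym : y ∈ C.gr F l := by rw [hy]; exact act_mem0 C (hρ.deg j) hx
  have htm : t ∈ C.gr F l := by
    have e : t = C.act (π j) x - y := by
      rw [hj, act_add_left, hy, ht, add_sub_cancel_left]
    rw [e]
    exact Submodule.sub_mem _ (act_mem0 C (hπ.deg j) hx) hym
  have hcy : C.act c y ∈ C.gr F l := act_mem0 C hc hym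
  have hct : C.act c t ∈ C.gr F l := act_mem0 C hc htm
  have ht0 : 2 * l ≠ j → t = 0 := fun h => by rw [ht]; exact act_tate_ne (h1 j) h hx
  have hA1 : C.act (ρ n) (C.act c y) = 0 := by rw [hy]; exact hR j n hjn c hc l x hx
  have hB1 : C.act (∑ a, C.ext (z' n a) (z n a)) (C.act c y) = 0 := by
    by_cases h2 : 2 * l = n
    · refine act_tate_hom (R := R) hne (h1 n) hcy ?_
      rw [cl_act, hy, cl_act, tot_proj hρ (cl_mem' R hx) j, if_neg (by omega), map_zero]
    · exact act_tate_ne (h1 n) h2 hcy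
  have hC1 : C.act (ρ n) (C.act c t) = 0 := by
    by_cases h2 : 2 * l = j
    · exact hA l n (by omega) _ hct
    · rw [ht0 h2, C.act_map_zero, C.act_map_zero]
  have hD1 : C.act (∑ a, C.ext (z' n a) (z n a)) (C.act c t) = 0 := by
    by_cases h2 : 2 * l = j
    · exact act_tate_ne (h1 n) (by omega) hct
    · rw [ht0 h2, C.act_map_zero, C.act_map_zero]
  rw [hn, hj, act_add_left (ρ j), ← hy, ← ht, hadd, act_add_left, hadd, hadd, hA1, hB1, hC1, hD1]
  simp

end fibre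

section main

variable {ρ : ℕ → C.A (F.prod F)} (hρ : IsFixedSystem R i ρ)

include hρ

/-- The criterion for (C). -/
theorem fibre_indep_iff (hF : FixedOrAlgebraic W i) (hNF : NilHomTrivial R F)
    (hne : (1 : W.H F) ≠ 0) (hR : ∀ j n, j < n → NoRaise C ρ j n)
    (hA : ∀ l n : ℕ, 2 * l < n → ∀ x ∈ C.gr F l, C.act (ρ n) x = 0)
    {π' : ℕ → C.A (F.prod F)} (hπ' : IsCKDec R F π') :
    Indep R F ↔ ∀ j n, j < n → (j = F.dim ∨ n = F.dim) → NoRaise C π' j n := by
  constructor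
  · intro h j n hjn _
    exact h.noRaise hπ' hjn
  · intro h
    choose r z z' h1 h2 h3 using exists_families hρ hF
    obtain ⟨π, hπ, hπρ, hπE⟩ := ck_of_families hρ h1 h2 h3
    refine indep_of_noRaise hNF hπ' fun j n hjn => ?_
    by_cases hd : j = F.dim ∨ n = F.dim
    · exact h j n hjn hd
    · push Not at hd
      by_cases hn : n ≤ 2 * F.dim
      · exact NoRaise.transfer hNF hπ hπ' (fibre_noRaise hρ hπ h1 hne hR hA hjn
          (hπE j (by omega) hd.1) (hπE n hn hd.2))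
      · intro c hc l x hx
        rw [hπ'.out n (by omega), C.act_zero]

end main

end Pool.Agent.Y106.CK
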