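import Pool.Agent.Y106.CK.Nil

/-!
# Lifting orthogonal projectors
-/

open CategoryTheory AlgebraicGeometry
open scoped Polynomial
open Polynomial (aeval aeval_monomial eval_monomial eval_add aeval_X aeval_C)

set_option linter.unusedSectionVars false

universe u v w

namespace Pool.Agent.Y106.CK

open Pool.Agent.H914 Pool.Agent.H914.VarClass Pool.Agent.H914.VarClass.Obj
  Pool.Agent.H914.WeilCohomology Pool.Agent.W492.BB Pool.Agent.W492.BB.TheoryData
  Pool.Agent.W550.Corr Pool.Agent.TH133 Pool.Agent.W498.Dom Pool.Agent.Y106.FP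

variable {k : Type u} [Field k] {𝒱 : VarClass k} {ops : CycleOps 𝒱}

lemma prod_eq (N : ℕ) : ∏ w ∈ (Finset.range (N + 1)).image (Nat.cast : ℕ → ℤ),
    (Polynomial.X - Polynomial.C (w : ℚ)) =
      Polynomial.X * ∏ w ∈ (Finset.range N).image (fun n : ℕ => ((n + 1 : ℕ) : ℤ)),
        (Polynomial.X - Polynomial.C (w : ℚ)) := by
  rw [Finset.prod_image (fun a _ b _ h => by exact_mod_cast h),
    Finset.prod_image (fun a _ b _ h => by
      have : a + 1 = b + 1 := by exact_mod_cast h
      omega),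
    Finset.prod_range_succ']
  rw [mul_comm]
  congr 1
  simp

section

variable {C : TheoryData.{u, w, 0} 𝒱 ℚ} [hC : IsChowProj C] {X Z F F' : 𝒱.Obj}

/-- The self-correspondence `x` of `F` is the restriction of a cycle class on `Z × Z`. -/
def Restr (i : F ⟶ Z) (x : Cor C F) : Prop :=
  ∃ τ ∈ C.gr (Z.prod Z) F.dim, unc x = C.pull (prodMap i i) τ

include hC

lemma restr_comp (i : F ⟶ Z) (τ τ' : C.A (Z.prod Z)) :
    C.comp (C.pull (prodMap i i) τ) (C.pull (prodMap i i) τ') =
      C.pull (prodMap i i) (C.comp (C.comp (C.comp τ (C.cograph i)) (C.graph i)) τ') := by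
  rw [restr_eq, restr_eq, restr_eq]
  simp only [comp_assoc]

lemma Restr.add {i : F ⟶ Z} {x y : Cor C F} (hx : Restr i x) (hy : Restr i y) :
    Restr i (x + y) := by
  obtain ⟨τ, hτ, hx⟩ := hx
  obtain ⟨σ, hσ, hy⟩ := hy
  exact ⟨τ + σ, Submodule.add_mem _ hτ hσ, by rw [unc_add, hx, hy, map_add]⟩

lemma Restr.smul {i : F ⟶ Z} {x : Cor C F} (q : ℚ) (hx : Restr i x) : Restr i (q • x) := by
  obtain ⟨τ, hτ, hx⟩ := hx
  exact ⟨q • τ, Submodule.smul_mem _ q hτ, by rw [unc_smul, hx, map_smul]⟩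

lemma Restr.zero (i : F ⟶ Z) : Restr i (0 : Cor C F) :=
  ⟨0, Submodule.zero_mem _, by rw [unc_zero, map_zero]⟩

lemma Restr.sum {ι : Type*} {s : Finset ι} {i : F ⟶ Z} {f : ι → Cor C F}
    (h : ∀ a ∈ s, Restr i (f a)) : Restr i (∑ a ∈ s, f a) := by
  classical
  induction s using Finset.induction_on with
  | empty => rw [Finset.sum_empty]; exact Restr.zero i
  | insert a s ha ih =>
    rw [Finset.sum_insert ha]
    exact (h a (by simp)).add (ih fun b hb => h b (by simp [hb]))

lemma Restr.mul {i : F ⟶ Z} {x y : Cor C F} (hx : Restr i x) (hy : Restr i y) :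
    Restr i (x * y) := by
  obtain ⟨τ, hτ, hx⟩ := hx
  obtain ⟨σ, hσ, hy⟩ := hy
  refine ⟨C.comp (C.comp (C.comp σ (C.cograph i)) (C.graph i)) τ, ?_, ?_⟩
  · refine comp_mem_of (comp_mem_of (e'' := Z.dim) (comp_mem_of (e'' := F.dim) hσ (cograph_mem i)
      (by ring)) (graph_mem i) (by ring)) hτ (by ring)
  · rw [unc_mul, hx, hy, restr_comp]

lemma Restr.mul_aeval {i : F ⟶ Z} {x : Cor C F} (hx : Restr i x) (r : ℚ[X]) :
    Restr i (x * aeval x r) := by
  induction r using Polynomial.induction_on' with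
  | add p q hp hq => rw [map_add, mul_add]; exact hp.add hq
  | monomial n a =>
    rw [aeval_monomial, ← Algebra.smul_def, mul_smul_comm, ← pow_succ']
    apply Restr.smul
    induction n with
    | zero => rw [zero_add, pow_one]; exact hx
    | succ n ih => rw [pow_succ]; exact ih.mul hx

lemma Restr.mem_cor0 {i : F ⟶ Z} {x : Cor C F} (hx : Restr i x) : x ∈ cor0 C F := by
  obtain ⟨τ, hτ, hx⟩ := hx
  rw [mem_cor0', hx]
  exact C.pull_mem _ hτ

end

section

variable {C : TheoryData.{u, w, 0} 𝒱 ℚ} [hC : IsChowProj C] {W : WeilCohomology.{u, v} ops}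
  (R : CycleClasses C W) {X Z F F' : 𝒱.Obj}

include hC

/-- A homologically trivial restriction is nilpotent. -/
lemma Restr.isNilpotent (hN : NilHomTrivial R Z) {i : F ⟶ Z} {x : Cor C F} (hx : Restr i x)
    (h0 : actR R F x = 0) : IsNilpotent x := by
  obtain ⟨τ, hτ, hx⟩ := hx
  rw [actR_unc, hx] at h0
  have := isNilpotent_of_restr R hN i hτ h0
  rwa [← hx, cor_unc] at this

/-- Orthogonal projectors in the cohomology induced by restrictions of cycle classes on `Z × Z` lift
to orthogonal idempotents of the same kind. -/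
theorem exists_lift_idem (hN : NilHomTrivial R Z) (i : F ⟶ Z) (N : ℕ)
    (Q : ℕ → Module.End W.K (W.H F)) (hQ : ∀ j < N, ∀ l < N, Q j * Q l = if j = l then Q j else 0)
    (q : ℕ → Cor C F) (hq : ∀ j < N, Restr i (q j)) (hqQ : ∀ j < N, actR R F (q j) = Q j) :
    ∃ ρ : ℕ → Cor C F, (∀ j < N, ∀ l < N, ρ j * ρ l = if j = l then ρ j else 0) ∧
      (∀ j < N, Restr i (ρ j)) ∧ ∀ j < N, actR R F (ρ j) = Q j := by
  classical
  obtain ⟨x, hx⟩ : ∃ x : Cor C F, x = ∑ j ∈ Finset.range N, ((j : ℚ) + 1) • q j := ⟨_, rfl⟩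
  have hxR : Restr i x := by
    rw [hx]
    exact Restr.sum fun j hj => (hq j (Finset.mem_range.1 hj)).smul _
  have hxact : ∀ y, actR R F x y = ∑ j ∈ Finset.range N, ((((j : ℚ) + 1 : ℚ)) : W.K) • Q j y := by
    intro y
    rw [hx, map_sum, LinearMap.sum_apply]
    refine Finset.sum_congr rfl fun j hj => ?_
    rw [← hqQ j (Finset.mem_range.1 hj), actR_unc, actR_unc, unc_smul, act_smul',
      LinearMap.smul_apply]
  have heig : ∀ l < N, ∀ y, actR R F x (Q l y) = (((l : ℚ) + 1 : ℚ) : W.K) • Q l y := by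
    intro l hl y
    rw [hxact, Finset.sum_eq_single l]
    · rw [← Module.End.mul_apply, hQ l hl l hl, if_pos rfl]
    · intro j hj hjl
      rw [← Module.End.mul_apply, hQ j (Finset.mem_range.1 hj) l hl, if_neg hjl,
        LinearMap.zero_apply, smul_zero]
    · intro h; exact absurd (Finset.mem_range.2 hl) h
  have hker : ∀ y, actR R F x (y - ∑ l ∈ Finset.range N, Q l y) = ((0 : ℚ) : W.K) •
      (y - ∑ l ∈ Finset.range N, Q l y) := by
    intro y
    rw [map_sub, map_sum, Rat.cast_zero, zero_smul, sub_eq_zero, hxact]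
    refine Finset.sum_congr rfl fun j hj => ?_
    rw [heig j (Finset.mem_range.1 hj)]
  have hdec : ∀ y : W.H F, y = (y - ∑ l ∈ Finset.range N, Q l y) + ∑ l ∈ Finset.range N, Q l y :=
    fun y => by abel
  have hval : ∀ (r : ℚ[X]) (y : W.H F), actR R F (aeval x r) y =
      ((r.eval 0 : ℚ) : W.K) • (y - ∑ l ∈ Finset.range N, Q l y) +
        ∑ l ∈ Finset.range N, ((r.eval ((l : ℚ) + 1) : ℚ) : W.K) • Q l y := by
    intro r y
    conv_lhs => rw [hdec y]
    rw [map_add, actR_aeval R x (hker y), map_sum]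
    congr 1
    refine Finset.sum_congr rfl fun j hj => ?_
    rw [actR_aeval R x (heig j (Finset.mem_range.1 hj) y)]
  set S : Finset ℤ := (Finset.range (N + 1)).image (Nat.cast : ℕ → ℤ) with hS
  have h0S : (0 : ℤ) ∈ S := Finset.mem_image.2 ⟨0, by simp, rfl⟩
  have hjS : ∀ j < N, ((j + 1 : ℕ) : ℤ) ∈ S := fun j hj =>
    Finset.mem_image.2 ⟨j + 1, by simp [hj], rfl⟩
  have hroot : ∀ w ∈ S, (∏ w ∈ S, (Polynomial.X - Polynomial.C (w : ℚ))).eval (w : ℚ) = 0 := by
    intro w hw
    rw [Polynomial.eval_prod]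
    exact Finset.prod_eq_zero hw (by simp)
  have hnil : IsNilpotent (aeval x (∏ w ∈ S, (Polynomial.X - Polynomial.C (w : ℚ)))) := by
    apply Restr.isNilpotent R hN (i := i)
    · rw [hS, prod_eq, map_mul, aeval_X]
      exact hxR.mul_aeval _
    · apply LinearMap.ext
      intro y
      rw [hval]
      have h1 := hroot 0 h0S
      rw [Int.cast_zero] at h1
      rw [h1, Rat.cast_zero, zero_smul, zero_add, LinearMap.zero_apply]
      refine Finset.sum_eq_zero fun j hj => ?_
      have h2 := hroot _ (hjS j (Finset.mem_range.1 hj))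
      push_cast at h2
      rw [h2, Rat.cast_zero, zero_smul]
  obtain ⟨n, hn⟩ := hnil
  have hn' : aeval x (∏ w ∈ S, (Polynomial.X - Polynomial.C (w : ℚ))) ^ (n + 1) = 0 := by
    rw [pow_succ, hn, zero_mul]
  obtain ⟨p, hp1, hp2, -⟩ := Pool.Agent.Y109.exists_idem (Nat.succ_pos n) hn'
  have hev : ∀ v ∈ S, ∀ w ∈ S, (p v).eval (w : ℚ) = if v = w then 1 else 0 := by
    intro v hv w hw
    obtain ⟨r, hr⟩ := hp1 v hv w hw
    rw [hr]
    split_ifs <;> simp
  refine ⟨fun j => aeval x (p ((j + 1 : ℕ) : ℤ)), fun j hj l hl => ?_, fun j hj => ?_,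
    fun j hj => ?_⟩
  · rw [hp2 _ (hjS j hj) _ (hjS l hl)]
    by_cases h : j = l
    · subst h; rw [if_pos rfl, if_pos rfl]
    · rw [if_neg h, if_neg]
      intro h'
      apply h
      have : j + 1 = l + 1 := by exact_mod_cast h'
      omega
  · obtain ⟨r, hr⟩ := hp1 _ (hjS j hj) 0 h0S
    rw [if_neg (by exact_mod_cast Nat.succ_ne_zero j), add_zero, Int.cast_zero, Polynomial.C_0,
      sub_zero] at hr
    change Restr i (aeval x (p ((j + 1 : ℕ) : ℤ)))
    rw [hr, mul_comm, map_mul, aeval_X]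
    exact hxR.mul_aeval r
  · apply LinearMap.ext
    intro y
    change actR R F (aeval x (p ((j + 1 : ℕ) : ℤ))) y = _
    rw [hval]
    have h1 := hev _ (hjS j hj) 0 h0S
    rw [if_neg (by exact_mod_cast Nat.succ_ne_zero j), Int.cast_zero] at h1
    rw [h1, Rat.cast_zero, zero_smul, zero_add, Finset.sum_eq_single j]
    · have h2 := hev _ (hjS j hj) _ (hjS j hj)
      rw [if_pos rfl] at h2
      push_cast at h2
      push_cast
      rw [h2, Rat.cast_one, one_smul]
    · intro l hl hlj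
      have h2 := hev _ (hjS j hj) _ (hjS l (Finset.mem_range.1 hl))
      rw [if_neg (by
        intro h'
        apply hlj
        have : j + 1 = l + 1 := by exact_mod_cast h'
        omega)] at h2
      push_cast at h2
      push_cast
      rw [h2, Rat.cast_zero, zero_smul]
    · intro h; exact absurd (Finset.mem_range.2 hj) h

end

end Pool.Agent.Y106.CK
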