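import Pool.Agent.Y106.CK.Base
import Pool.Agent.Y109.Idem

/-!
# Homologically trivial correspondences which factor through a variety with nilpotent ones
-/

open CategoryTheory AlgebraicGeometry
open scoped Polynomial
open Polynomial (aeval aeval_monomial eval_monomial eval_add)

set_option linter.unusedSectionVars false

universe u v w

namespace Pool.Agent.Y106.CK

open Pool.Agent.H914 Pool.Agent.H914.VarClass Pool.Agent.H914.VarClass.Obj
  Pool.Agent.H914.WeilCohomology Pool.Agent.W492.BB Pool.Agent.W492.BB.TheoryData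
  Pool.Agent.W550.Corr Pool.Agent.TH133 Pool.Agent.W498.Dom Pool.Agent.Y106.FP

variable {k : Type u} [Field k] {𝒱 : VarClass k} {ops : CycleOps 𝒱}

/-- A self-correspondence as an element of the ring `Cor C X`. -/
def cor {C : TheoryData.{u, w, 0} 𝒱 ℚ} {X : 𝒱.Obj} (γ : C.A (X.prod X)) : Cor C X := γ

/-- An element of the ring `Cor C X` as a self-correspondence. -/
def unc {C : TheoryData.{u, w, 0} 𝒱 ℚ} {X : 𝒱.Obj} (x : Cor C X) : C.A (X.prod X) := x

section

variable {C : TheoryData.{u, w, 0} 𝒱 ℚ} [hC : IsChowProj C] {X Z F F' : 𝒱.Obj}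

@[simp] lemma cor_unc (x : Cor C X) : cor (unc x) = x := rfl
@[simp] lemma unc_cor (γ : C.A (X.prod X)) : unc (cor γ) = γ := rfl
lemma unc_inj {x y : Cor C X} (h : unc x = unc y) : x = y := h
lemma unc_add (x y : Cor C X) : unc (x + y) = unc x + unc y := rfl
lemma unc_sub (x y : Cor C X) : unc (x - y) = unc x - unc y := rfl
lemma unc_neg (x : Cor C X) : unc (-x) = -unc x := rfl
lemma unc_zero : unc (0 : Cor C X) = 0 := rfl
lemma unc_smul (q : ℚ) (x : Cor C X) : unc (q • x) = q • unc x := rfl
lemma unc_sum {ι : Type*} (s : Finset ι) (f : ι → Cor C X) :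
    unc (∑ i ∈ s, f i) = ∑ i ∈ s, unc (f i) := by
  classical
  induction s using Finset.induction_on with
  | empty => rfl
  | insert a s ha ih => rw [Finset.sum_insert ha, Finset.sum_insert ha, unc_add, ih]

lemma unc_one : unc (1 : Cor C X) = dg C X := rfl
lemma unc_mul (x y : Cor C X) : unc (x * y) = C.comp (unc y) (unc x) := rfl
lemma cor_comp (γ δ : C.A (X.prod X)) : cor (C.comp γ δ) = cor δ * cor γ := rfl
lemma mem_cor0' {x : Cor C X} : x ∈ cor0 C X ↔ unc x ∈ C.gr (X.prod X) X.dim := Iff.rfl

lemma compList_replicate (γ : C.A (X.prod X)) (N : ℕ) :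
    compList C X (List.replicate N γ) = unc (cor γ ^ N) := by
  induction N with
  | zero => rfl
  | succ N ih =>
    rw [List.replicate_succ, pow_succ, unc_mul, unc_cor, ← ih]
    rfl

lemma isNilp_iff (γ : C.A (X.prod X)) : IsNilp C γ ↔ IsNilpotent (cor γ) := by
  constructor
  · rintro ⟨N, hN⟩
    refine ⟨N, unc_inj ?_⟩
    rw [← compList_replicate, hN, unc_zero]
  · rintro ⟨N, hN⟩
    refine ⟨N, ?_⟩
    rw [compList_replicate, hN, unc_zero]

/-- The powers of `a b` and of `b y a`. -/
lemma pow_factor (a : C.A (F.prod Z)) (b : C.A (Z.prod F)) (n : ℕ) :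
    C.comp (unc (cor (C.comp a b) ^ (2 * n))) a =
      C.comp a (unc (cor (C.comp b (C.comp (C.comp a b) a)) ^ n)) := by
  induction n with
  | zero => rw [mul_zero, pow_zero, pow_zero, unc_one, unc_one, dg_comp, comp_dg]
  | succ n ih =>
    have e1 : unc (cor (C.comp b (C.comp (C.comp a b) a)) ^ (n + 1)) =
        C.comp (unc (cor (C.comp b (C.comp (C.comp a b) a)) ^ n))
          (C.comp b (C.comp (C.comp a b) a)) := by
      rw [pow_succ', unc_mul, unc_cor]
    have e2 : unc (cor (C.comp a b) ^ (2 * (n + 1))) =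
        C.comp (unc (cor (C.comp a b) ^ (2 * n))) (C.comp (C.comp a b) (C.comp a b)) := by
      have : 2 * (n + 1) = 2 + 2 * n := by ring
      rw [this, pow_add, pow_two, unc_mul, unc_mul, unc_cor]
    rw [e1, e2, ← comp_assoc C a, ← ih, comp_assoc C _ _ a, comp_assoc C _ a]
    congr 1
    rw [← comp_assoc C a b, comp_assoc C (C.comp a b) (C.comp a b) a]

end

section

variable {C : TheoryData.{u, w, 0} 𝒱 ℚ} [hC : IsChowProj C] {W : WeilCohomology.{u, v} ops}
  (R : CycleClasses C W) {X Z F F' : 𝒱.Obj}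

include hC

/-- A homologically trivial self-correspondence of `F` which factors through `Z` is nilpotent. -/
theorem isNilpotent_of_factor (hN : NilHomTrivial R Z) {a : C.A (F.prod Z)} {b : C.A (Z.prod F)}
    (ha : a ∈ C.gr (F.prod Z) F.dim) (hb : b ∈ C.gr (Z.prod F) Z.dim)
    (h0 : act R (C.comp a b) = 0) : IsNilpotent (cor (C.comp a b)) := by
  have hy : C.comp a b ∈ C.gr (F.prod F) F.dim := comp_mem_of ha hb (by ring)
  have hya : C.comp (C.comp a b) a ∈ C.gr (F.prod Z) F.dim := comp_mem_of hy ha (by ring)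
  have hw : C.comp b (C.comp (C.comp a b) a) ∈ C.gr (Z.prod Z) Z.dim :=
    comp_mem_of hb hya (by ring)
  have hw0 : R.cl (C.comp b (C.comp (C.comp a b) a)) = 0 := by
    apply cl_eq_zero
    rw [act_comp', act_comp', h0, LinearMap.comp_zero, LinearMap.zero_comp]
  obtain ⟨N, hN⟩ := (isNilp_iff _).1 (hN _ hw hw0)
  refine ⟨2 * N + 1, unc_inj ?_⟩
  have h1 := pow_factor a b N
  rw [hN, unc_zero, comp_zero] at h1
  rw [pow_succ', unc_mul, unc_cor, ← comp_assoc C _ a b, h1, zero_comp, unc_zero]

/-- A homologically trivial restriction to `F × F` of a cycle on `Z × Z` is nilpotent. -/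
theorem isNilpotent_of_restr (hN : NilHomTrivial R Z) (i : F ⟶ Z)
    {τ : C.A (Z.prod Z)} (hτ : τ ∈ C.gr (Z.prod Z) F.dim)
    (h0 : act R (C.pull (prodMap i i) τ) = 0) :
    IsNilpotent (cor (C.pull (prodMap i i) τ)) := by
  rw [restr_eq] at h0 ⊢
  refine isNilpotent_of_factor R hN ?_ (cograph_mem i) h0
  exact comp_mem_of (graph_mem i) hτ (by ring)

lemma actR_unc (x : Cor C X) : actR R X x = act R (unc x) := rfl

/-- The value of a polynomial in a correspondence on an eigenvector. -/
lemma actR_aeval (x : Cor C X) {y : W.H X} {c : ℚ} (h : actR R X x y = (c : W.K) • y) (q : ℚ[X]) :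
    actR R X (aeval x q) y = ((q.eval c : ℚ) : W.K) • y := by
  have hpow : ∀ n : ℕ, actR R X (x ^ n) y = ((c ^ n : ℚ) : W.K) • y := by
    intro n
    induction n with
    | zero => rw [pow_zero, pow_zero, map_one, Rat.cast_one, one_smul]; rfl
    | succ n ih =>
      rw [pow_succ', map_mul, Module.End.mul_apply, ih, map_smul, h, smul_smul, pow_succ,
        Rat.cast_mul]
  induction q using Polynomial.induction_on' with
  | add p q hp hq =>
    rw [map_add, map_add, LinearMap.add_apply, hp, hq, eval_add, Rat.cast_add, add_smul]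
  | monomial n a =>
    rw [aeval_monomial, ← Algebra.smul_def, eval_monomial]
    have h1 : actR R X (a • x ^ n) = (a : W.K) • actR R X (x ^ n) := by
      rw [actR_unc, actR_unc, unc_smul, act_smul']
    rw [h1, LinearMap.smul_apply, hpow, smul_smul, Rat.cast_mul]

end

end Pool.Agent.Y106.CK
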