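import Pool.Agent.Y106.CK.Fixed
import Pool.Agent.Y106.FP.Below

/-!
# The projector onto the fixed part and its orthogonal complement
-/

open CategoryTheory AlgebraicGeometry

set_option linter.unusedSectionVars false

universe u v w

namespace Pool.Agent.Y106.CK

open Pool.Agent.H914 Pool.Agent.H914.VarClass Pool.Agent.H914.VarClass.Obj
  Pool.Agent.H914.WeilCohomology Pool.Agent.W492.BB Pool.Agent.W492.BB.TheoryData
  Pool.Agent.W550.Corr Pool.Agent.TH133 Pool.Agent.W498.Dom Pool.Agent.Y106.FP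
  Pool.Agent.Y106.Fib Pool.Agent.Y140.Fib Pool.Agent.W534 Pool.Agent.H447

variable {k : Type u} [Field k] {𝒱 : VarClass k} {ops : CycleOps 𝒱}

section weil

variable {W : WeilCohomology.{u, v} ops} {X Z F : 𝒱.Obj}

/-- Graded symmetry of the Poincare pairing. -/
lemma tr_symm {l : ℕ} {a : W.H X} (ha : a ∈ W.gr X l) (b : W.H X) :
    W.tr X (a * b) = (-1 : W.K) ^ l * W.tr X (b * a) := by
  refine gr_induction (W.isInternal X) (p := fun b =>
    W.tr X (a * b) = (-1 : W.K) ^ l * W.tr X (b * a)) ?_ ?_ b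
  · intro m b hb
    by_cases hm : l + m = 2 * X.dim
    · rw [W.comm ha hb, map_smul, smul_eq_mul]
      congr 1
      have h1 : l * m = l + (l * (m - 1)) ∨ m = 0 := by
        rcases Nat.eq_zero_or_pos m with h | h
        · exact Or.inr h
        · left
          obtain ⟨m', rfl⟩ : ∃ m', m = m' + 1 := ⟨m - 1, by omega⟩
          rw [Nat.add_sub_cancel]; ring
      rcases Nat.even_or_odd l with h | h
      · rw [Even.neg_one_pow h, Even.neg_one_pow (h.mul_right m)]
      · have h2 : Odd m := by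
          rcases Nat.even_or_odd m with h' | h'
          · exfalso
            obtain ⟨c, hc⟩ := h'
            obtain ⟨d, hd⟩ := h
            omega
          · exact h'
        rw [Odd.neg_one_pow h, Odd.neg_one_pow (h.mul h2)]
    · rw [W.tr_eq_zero (W.mul_mem ha hb) hm, W.tr_eq_zero (W.mul_mem hb ha) (by omega), mul_zero]
  · intro b b' hb hb'
    rw [mul_add, add_mul, map_add, map_add, hb, hb', mul_add]

/-- The class `y` is orthogonal to the fixed part. -/
def Orth (W : WeilCohomology.{u, v} ops) {Z F : 𝒱.Obj} (i : F ⟶ Z) (y : W.H F) : Prop :=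
  ∀ x, W.tr F (y * W.map i x) = 0

lemma Orth.symm {i : F ⟶ Z} {y : W.H F} (hy : Orth W i y) (x : W.H Z) :
    W.tr F (W.map i x * y) = 0 := by
  refine gr_induction (W.isInternal Z) (p := fun x => W.tr F (W.map i x * y) = 0) ?_ ?_ x
  · intro l x hx
    rw [tr_symm (W.map_mem i hx), hy, mul_zero]
  · intro a b ha hb
    rw [map_add, add_mul, map_add, ha, hb, add_zero]

lemma Orth.sub {i : F ⟶ Z} {y y' : W.H F} (hy : Orth W i y) (hy' : Orth W i y') :
    Orth W i (y - y') := fun x => by rw [sub_mul, map_sub, hy, hy', sub_zero]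

end weil

variable {C : TheoryData.{u, w, 0} 𝒱 ℚ} [hC : IsChowProj C] {W : WeilCohomology.{u, v} ops}
  (R : CycleClasses C W) {Z S F F' X Y : 𝒱.Obj} {i : F ⟶ Z} {i' : F' ⟶ Z}

include hC

omit hC in
/-- The cohomology class of the image of a class under a correspondence. -/
lemma cl_act (Γ : C.A (X.prod Y)) (x : C.A X) : R.cl (C.act Γ x) = act R Γ (R.cl x) := by
  have h1 := R.cl_push (snd X Y) (Γ * C.pull (fst X Y) x)
  have h2 := R.cl_pull (fst X Y) x
  rw [map_mul R.cl] at h1
  change R.cl (C.pull _ _) = _ at h2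
  rw [h2] at h1
  exact h1

omit hC in
/-- Correspondences of degree zero preserve degrees. -/
lemma act_gr {Γ : C.A (F.prod F)} (hΓ : Γ ∈ C.gr (F.prod F) F.dim) {j : ℕ} {y : W.H F}
    (hy : y ∈ W.gr F j) : act R Γ y ∈ W.gr F j := by
  have h1 := corr_isHom W (cl_mem' R hΓ) j y (by rw [grZ_natCast]; exact hy)
  rw [sub_self, mul_zero, add_zero, grZ_natCast] at h1
  exact h1

omit hC in
lemma act_sum' {ι : Type*} (s : Finset ι) (Γ : ι → C.A (X.prod Y)) :
    act R (∑ a ∈ s, Γ a) = ∑ a ∈ s, act R (Γ a) := by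
  classical
  induction s using Finset.induction_on with
  | empty => rw [Finset.sum_empty, Finset.sum_empty, act_zero']
  | insert a s ha ih => rw [Finset.sum_insert ha, Finset.sum_insert ha, act_add', ih]

omit hC in
lemma act_sub' (Γ Δ : C.A (X.prod Y)) : act R (Γ - Δ) = act R Γ - act R Δ := by
  rw [act, map_sub, sub_eq_add_neg, ← neg_one_smul W.K (R.cl Δ), corr_add, corr_smul,
    sub_eq_add_neg]
  congr 1
  exact neg_one_smul W.K (act R Δ)

omit hC in
/-- The total projector of a fixed system. -/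
noncomputable def tot (C : TheoryData.{u, w, 0} 𝒱 ℚ) {F : 𝒱.Obj} (ρ : ℕ → C.A (F.prod F)) :
    C.A (F.prod F) :=
  ∑ j ∈ Finset.range (2 * F.dim + 1), ρ j

section fixed

variable {R} {ρ : ℕ → C.A (F.prod F)} (hρ : IsFixedSystem R i ρ)

include hρ

omit hC in
lemma tot_mem : tot C ρ ∈ C.gr (F.prod F) F.dim := Submodule.sum_mem _ fun j _ => hρ.deg j

omit hC in
lemma tot_comp {j : ℕ} (hj : j ≤ 2 * F.dim) : C.comp (tot C ρ) (ρ j) = ρ j := by
  rw [tot, sum_comp, Finset.sum_eq_single j]
  · rw [hρ.comp, if_pos rfl]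
  · intro l _ hl; rw [hρ.comp, if_neg hl]
  · intro h; exact absurd (Finset.mem_range.2 (by omega)) h

omit hC in
lemma comp_tot {j : ℕ} (hj : j ≤ 2 * F.dim) : C.comp (ρ j) (tot C ρ) = ρ j := by
  rw [tot, comp_sum, Finset.sum_eq_single j]
  · rw [hρ.comp, if_pos rfl]
  · intro l _ hl; rw [hρ.comp, if_neg (Ne.symm hl)]
  · intro h; exact absurd (Finset.mem_range.2 (by omega)) h

omit hC in
lemma tot_tot : C.comp (tot C ρ) (tot C ρ) = tot C ρ := by
  conv_lhs => rw [tot, sum_comp]
  conv_rhs => rw [tot]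
  refine Finset.sum_congr rfl fun j hj => ?_
  exact comp_tot hρ (by have := Finset.mem_range.1 hj; omega)

omit hC in
lemma tot_map (x : W.H Z) : act R (tot C ρ) (W.map i x) = W.map i x := by
  refine gr_induction (W.isInternal Z) (p := fun x => act R (tot C ρ) (W.map i x) = W.map i x)
    ?_ ?_ x
  · intro l x hx
    rw [tot, act_sum', LinearMap.sum_apply]
    by_cases hl : l < 2 * F.dim + 1
    · rw [Finset.sum_eq_single l]
      · rw [(hρ.isFixedProjector l).apply l x hx, if_pos rfl]
      · intro j _ hj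
        rw [(hρ.isFixedProjector j).apply l x hx, if_neg (Ne.symm hj)]
      · intro h; exact absurd (Finset.mem_range.2 hl) h
    · have h4 := W.map_mem i hx
      rw [W.gr_eq_bot F _ (by omega)] at h4
      rw [(Submodule.mem_bot _).1 h4]
      exact Finset.sum_eq_zero fun j _ => map_zero _
  · intro a b ha hb
    simp only [map_add, ha, hb]

omit hC in
lemma act_orth {y : W.H F} (hy : Orth W i y) (j : ℕ) : act R (ρ j) y = 0 :=
  (hρ.isFixedProjector j).orth y hy

omit hC in
lemma tot_orth {y : W.H F} (hy : Orth W i y) : act R (tot C ρ) y = 0 := by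
  rw [tot, act_sum', LinearMap.sum_apply]
  exact Finset.sum_eq_zero fun j _ => act_orth hρ hy j

omit hC in
lemma tot_spec (y : W.H F) : act R (tot C ρ) y ∈ fixedPart W i ∧
    Orth W i (y - act R (tot C ρ) y) := by
  have hθ : Transports (W.map i) (W.map i) (W.tr F) (act R (tot C ρ)) :=
    ⟨tot_map hρ, fun y hy => tot_orth hρ hy⟩
  have hnd : ∀ v ∈ fixedPart W i, (∀ x ∈ fixedPart W i, W.tr F (v * x) = 0) → v = 0 := by
    rintro v ⟨y, hy⟩ hv
    have hy' : W.map i y = v := hy
    rw [← hy', ← hθ.apply y, hy']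
    exact hθ.orth v fun x => hv _ ⟨x, rfl⟩
  obtain ⟨v, hv, hy⟩ := exists_sub_orth (fixedPart W i) hnd y
  have hy' : Orth W i (y - v) := fun x => hy _ ⟨x, rfl⟩
  have h1 : act R (tot C ρ) y = v := by
    have h2 := tot_orth hρ hy'
    obtain ⟨x, hx⟩ := hv
    have hx' : W.map i x = v := hx
    have h3 : act R (tot C ρ) v = v := by rw [← hx', tot_map hρ]
    rw [map_sub, h3, sub_eq_zero] at h2
    exact h2
  rw [h1]
  exact ⟨hv, hy'⟩

lemma tot_proj {j : ℕ} {y : W.H F} (hy : y ∈ W.gr F j) (l : ℕ) :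
    act R (ρ l) y = if l = j then act R (tot C ρ) y else 0 := by
  have key : ∀ l, l ≠ j → act R (ρ l) y = 0 := by
    intro l hl
    obtain ⟨x, hx, hx'⟩ := hρ.exists_apply R l y
    have h1 : act R (ρ l) y ∈ W.gr F l := by rw [hx']; exact W.map_mem i hx
    have h2 : act R (ρ l) y ∈ W.gr F j := act_gr R (hρ.deg l) hy
    rw [← proj_same (W.isInternal F) h1, proj_ne (W.isInternal F) h2 (Ne.symm hl)]
  split_ifs with h
  · subst h
    rw [tot, act_sum', LinearMap.sum_apply]
    by_cases hl : l < 2 * F.dim + 1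
    · rw [Finset.sum_eq_single l]
      · intro m _ hm; exact key m hm
      · intro h; exact absurd (Finset.mem_range.2 hl) h
    · rw [hρ.out l (by omega), act_zero', LinearMap.zero_apply, Finset.sum_eq_zero]
      intro m hm
      exact key m (by have := Finset.mem_range.1 hm; omega)
  · exact key l h

/-- The total projector is self-adjoint. -/
lemma tot_tp : act R (tp C (tot C ρ)) = act R (tot C ρ) := by
  apply LinearMap.ext
  intro b
  rw [← sub_eq_zero]
  apply W.nondeg
  intro a
  have hm := tot_mem hρ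
  refine gr_induction (W.isInternal F) (p := fun a => W.tr F
    ((act R (tp C (tot C ρ)) b - act R (tot C ρ) b) * a) = 0) ?_ ?_ a
  · intro l a ha
    have h0 : ∀ c : W.H F, W.tr F (a * c) = 0 → W.tr F (c * a) = 0 := by
      intro c hc
      have h1 := tr_symm ha c
      rw [hc] at h1
      rcases mul_eq_zero.1 h1.symm with h | h
      · exact absurd h (pow_ne_zero _ (neg_ne_zero.2 one_ne_zero))
      · exact h
    apply h0
    rw [mul_sub, map_sub, ← tr_act_tp R hm a b, sub_eq_zero]
    obtain ⟨h2, h3⟩ := tot_spec hρ a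
    obtain ⟨h4, h5⟩ := tot_spec hρ b
    obtain ⟨x, hx⟩ := h2
    obtain ⟨x', hx'⟩ := h4
    have hx : W.map i x = act R (tot C ρ) a := hx
    have hx' : W.map i x' = act R (tot C ρ) b := hx'
    have e1 : W.tr F (act R (tot C ρ) a * b) = W.tr F (act R (tot C ρ) a * act R (tot C ρ) b) := by
      rw [← sub_eq_zero, ← map_sub, ← mul_sub, ← hx]
      exact h5.symm x
    have e2 : W.tr F (a * act R (tot C ρ) b) = W.tr F (act R (tot C ρ) a * act R (tot C ρ) b) := by
      rw [← sub_eq_zero, ← map_sub, ← sub_mul, ← hx']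
      exact h3 x'
    rw [e1, e2]
  · intro a a' ha ha'
    rw [mul_add, map_add, ha, ha', add_zero]

end fixed

end Pool.Agent.Y106.CK
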