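import Pool.Agent.Y106.CK.Orth

/-!
# Splitting off the algebraic classes orthogonal to the fixed part
-/

open CategoryTheory AlgebraicGeometry

set_option linter.unusedSectionVars false

universe u v w

namespace Pool.Agent.Y106.CK

open Pool.Agent.H914 Pool.Agent.H914.VarClass Pool.Agent.H914.VarClass.Obj
  Pool.Agent.H914.WeilCohomology Pool.Agent.W492.BB Pool.Agent.W492.BB.TheoryData
  Pool.Agent.W550.Corr Pool.Agent.TH133 Pool.Agent.W498.Dom Pool.Agent.Y106.FP
  Pool.Agent.Y106.Fib Pool.Agent.Y140.Fib Pool.Agent.W534 Pool.Agent.H447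

variable {k : Type u} [Field k] {𝒱 : VarClass k} {ops : CycleOps 𝒱}

section chow

variable {C : TheoryData.{u, w, 0} 𝒱 ℚ} [hC : IsChowProj C] {X Y V : 𝒱.Obj}

lemma hd_add {x y : C.A X} {q r : ℚ} (hx : HasDegree C x q) (hy : HasDegree C y r) :
    HasDegree C (x + y) (q + r) := by
  intro Y
  rw [map_add, map_add, map_add, map_add, (hx Y).1, (hx Y).2, (hy Y).1, (hy Y).2, add_smul]
  exact ⟨rfl, rfl⟩

lemma hd_smul {x : C.A X} {q : ℚ} (c : ℚ) (hx : HasDegree C x q) :
    HasDegree C (c • x) (c * q) := by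
  intro Y
  rw [map_smul, map_smul, map_smul, map_smul, (hx Y).1, (hx Y).2, smul_smul]
  exact ⟨rfl, rfl⟩

include hC

lemma hd_sum {ι : Type*} {s : Finset ι} {f : ι → C.A X} {q : ι → ℚ}
    (h : ∀ a ∈ s, HasDegree C (f a) (q a)) : HasDegree C (∑ a ∈ s, f a) (∑ a ∈ s, q a) := by
  classical
  induction s using Finset.induction_on with
  | empty => rw [Finset.sum_empty, Finset.sum_empty]; exact hasDegree_zero
  | insert a s ha ih =>
    rw [Finset.sum_insert ha, Finset.sum_insert ha]
    exact hd_add (h a (by simp)) (ih fun b hb => h b (by simp [hb]))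

/-- Classes of degree different from the dimension have degree zero. -/
lemma hasDegree_of_ne {x : C.A X} {e : ℤ} (hx : x ∈ C.gr X e) (he : e ≠ X.dim) :
    HasDegree C x 0 := by
  intro Y
  rcases lt_or_gt_of_ne he with h | h
  · have h1 := C.push_mem (snd X Y) (C.pull_mem (fst X Y) hx)
    rw [C.gr_neg Y _ (by rw [dim_prod]; push_cast; omega)] at h1
    have h2 := C.push_mem (fst Y X) (C.pull_mem (snd Y X) hx)
    rw [C.gr_neg Y _ (by rw [dim_prod]; push_cast; omega)] at h2
    rw [(Submodule.mem_bot _).1 h1, (Submodule.mem_bot _).1 h2, zero_smul]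
    exact ⟨rfl, rfl⟩
  · rw [hC.gr_top X e x hx h]
    exact hasDegree_zero Y

lemma ext_comp (v : C.A V) (α : C.A X) (Γ : C.A (X.prod Y)) :
    C.comp (C.ext v α) Γ = C.ext v (C.act Γ α) := by
  rw [comp_eq_extR, C.extR_ext Γ (fun c => ch_comm C _ _)]

lemma comp_ext (Γ : C.A (X.prod Y)) (v : C.A Y) (α : C.A V) :
    C.comp Γ (C.ext v α) = C.ext (C.act (tp C Γ) v) α := by
  rw [← tp_tp C (C.comp Γ (C.ext v α)), tp_comp C (ch_comm C), tp_ext, ext_comp, tp_ext]

end chow

section weil

variable {C : TheoryData.{u, w, 0} 𝒱 ℚ} [hC : IsChowProj C] {W : WeilCohomology.{u, v} ops}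
  (R : CycleClasses C W) {Z S F F' X Y : 𝒱.Obj} {i : F ⟶ Z} {i' : F' ⟶ Z}

/-- The degree of a zero-cycle and the orientation of its class. -/
lemma tr_of_hasDegree {x : C.A X} {q : ℚ} (hq : HasDegree C x q) :
    W.tr X (R.cl x) • (1 : W.H X) = (q : W.K) • (1 : W.H X) := by
  have h1 := congrArg R.cl (hq X).1
  have h2 := R.cl_push (snd X X) (C.pull (fst X X) x)
  have h3 := R.cl_pull (fst X X) x
  change R.cl (C.pull _ _) = _ at h3
  change R.cl (C.push _ _) = _ at h2
  rw [h2, h3, W.push_snd', cl_smul', map_one] at h1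
  exact h1

include hC

/-- The operator induced by an external product. -/
lemma act_ext_apply (v : C.A X) (α : C.A Y) (y : W.H X) :
    act R (C.ext v α) y = W.tr X (R.cl v * y) • R.cl α := by
  have h1 : R.cl (C.ext v α) = W.map (fst X Y) (R.cl v) * W.map (snd X Y) (R.cl α) := by
    have h2 := R.cl_pull (fst X Y) v
    have h3 := R.cl_pull (snd X Y) α
    change R.cl (C.pull _ _) = _ at h2
    change R.cl (C.pull _ _) = _ at h3
    rw [TheoryData.ext, map_mul, h2, h3]
  have h4 : W.map (snd X Y) (R.cl α) * W.map (fst X Y) y =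
      W.map (fst X Y) y * W.map (snd X Y) (R.cl α) := by
    have h3 := R.cl_pull (snd X Y) α
    change R.cl (C.pull _ _) = _ at h3
    rw [← h3, cl_comm R]
  rw [act, h1, corr_apply, mul_assoc, h4, ← mul_assoc, ← map_mul, W.push_snd]

/-- A pair of dual families in the subspaces `A` and `B` of `A(F)`. -/
structure Dual (C : TheoryData.{u, w, 0} 𝒱 ℚ) {F : 𝒱.Obj} (A B : Submodule ℚ (C.A F)) {r : ℕ}
    (z z' : Fin r → C.A F) : Prop where
  mem : ∀ a, z a ∈ A
  mem' : ∀ a, z' a ∈ B
  deg : ∀ a b, HasDegree C (z' a * z b) (if a = b then 1 else 0)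

/-- Dual families which are bases. -/
theorem exists_dual {F : 𝒱.Obj} (A B : Submodule ℚ (C.A F)) {p : ℕ}
    (hA : ∀ x ∈ A, x ∈ C.gr F p) (hB : ∀ x ∈ B, x ∈ C.gr F ((F.dim : ℤ) - p))
    (hAB : ∀ x ∈ A, (∀ y ∈ B, W.tr F (R.cl y * R.cl x) = 0) → R.cl x = 0) :
    ∃ (r : ℕ) (z z' : Fin r → C.A F), Dual C A B z z' ∧
      ∀ x ∈ A, R.cl x = ∑ a, W.tr F (R.cl (z' a) * R.cl x) • R.cl (z a) := by
  classical
  by_cases hnt : (1 : W.H F) = 0
  · refine ⟨0, Fin.elim0, Fin.elim0, ⟨fun a => a.elim0, fun a => a.elim0, fun a => a.elim0⟩,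
      fun x _ => ?_⟩
    rw [← one_mul (R.cl x), hnt, zero_mul]
    simp
  have htr : ∀ {x : C.A F} {q : ℚ}, HasDegree C x q → W.tr F (R.cl x) = q := by
    intro x q hq
    have h1 := tr_of_hasDegree R hq
    have h2 : (W.tr F (R.cl x) - (q : W.K)) • (1 : W.H F) = 0 := by rw [sub_smul, h1, sub_self]
    by_contra hne
    apply hnt
    rw [← one_smul W.K (1 : W.H F), ← inv_mul_cancel₀ (sub_ne_zero.2 hne), mul_smul, h2, smul_zero]
  have hdeg : ∀ x ∈ A, ∀ y ∈ B, ∃ q, HasDegree C (y * x) q := by
    intro x hx y hy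
    apply exists_hasDegree
    have := C.mul_mem (hB y hy) (hA x hx)
    rwa [sub_add_cancel] at this
  by_contra hcon
  push Not at hcon
  -- there are dual families of any length
  have key : ∀ r : ℕ, ∃ z z' : Fin r → C.A F, Dual C A B z z' := by
    intro r
    induction r with
    | zero =>
      exact ⟨Fin.elim0, Fin.elim0, fun a => a.elim0, fun a => a.elim0, fun a => a.elim0⟩
    | succ r ih =>
      obtain ⟨z, z', hd⟩ := ih
      obtain ⟨x, hx, hne⟩ := hcon r z z' hd
      choose q hq using fun a => hdeg x hx (z' a) (hd.mem' a)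
      obtain ⟨x1, hx1⟩ : ∃ x1, x1 = x + ∑ a, (-q a) • z a := ⟨_, rfl⟩
      have hx1A : x1 ∈ A := by
        rw [hx1]
        exact Submodule.add_mem _ hx (Submodule.sum_mem _ fun a _ =>
          Submodule.smul_mem _ _ (hd.mem a))
      have hx1d : ∀ b, HasDegree C (z' b * x1) 0 := by
        intro b
        have h1 : HasDegree C (z' b * x1) (q b + ∑ a, (-q a) * (if b = a then 1 else 0)) := by
          rw [hx1, mul_add, Finset.mul_sum]
          refine hd_add (hq b) (hd_sum fun a _ => ?_)
          rw [mul_smul_comm]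
          exact hd_smul _ (hd.deg b a)
        have h2 : q b + ∑ a, (-q a) * (if b = a then 1 else 0) = 0 := by
          rw [Finset.sum_eq_single b]
          · rw [if_pos rfl]; ring
          · intro a _ ha; rw [if_neg (Ne.symm ha), mul_zero]
          · intro h; exact absurd (Finset.mem_univ _) h
        rwa [h2] at h1
      have hx1ne : R.cl x1 ≠ 0 := by
        intro h0
        apply hne
        rw [hx1, map_add, map_sum] at h0
        rw [← sub_eq_zero, ← h0, sub_eq_add_neg, ← Finset.sum_neg_distrib]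
        congr 1
        refine Finset.sum_congr rfl fun a _ => ?_
        rw [← map_mul, htr (hq a), cl_smul', Rat.cast_neg, neg_smul]
      obtain ⟨y, hy, hyx⟩ : ∃ y ∈ B, W.tr F (R.cl y * R.cl x1) ≠ 0 := by
        by_contra h
        push Not at h
        exact hx1ne (hAB x1 hx1A h)
      obtain ⟨c, hc⟩ := hdeg x1 hx1A y hy
      have hc0 : c ≠ 0 := by
        intro h0
        apply hyx
        rw [← map_mul, htr hc, h0, Rat.cast_zero]
      choose s hs using fun b => hdeg (z b) (hd.mem b) y hy
      obtain ⟨y1, hy1⟩ : ∃ y1, y1 = c⁻¹ • (y + ∑ b, (-s b) • z' b) := ⟨_, rfl⟩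
      have hy1B : y1 ∈ B := by
        rw [hy1]
        exact Submodule.smul_mem _ _ (Submodule.add_mem _ hy (Submodule.sum_mem _ fun a _ =>
          Submodule.smul_mem _ _ (hd.mem' a)))
      have hy1x : HasDegree C (y1 * x1) 1 := by
        have h1 : HasDegree C (y1 * x1) (c⁻¹ * (c + ∑ b : Fin r, (-s b) * 0)) := by
          rw [hy1, smul_mul_assoc, add_mul, Finset.sum_mul]
          refine hd_smul _ (hd_add hc (hd_sum fun b _ => ?_))
          rw [smul_mul_assoc]
          exact hd_smul _ (hx1d b)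
        have h2 : c⁻¹ * (c + ∑ b : Fin r, (-s b) * 0) = 1 := by
          simp [inv_mul_cancel₀ hc0]
        rwa [h2] at h1
      have hy1z : ∀ b, HasDegree C (y1 * z b) 0 := by
        intro b
        have h1 : HasDegree C (y1 * z b)
            (c⁻¹ * (s b + ∑ a, (-s a) * (if a = b then 1 else 0))) := by
          rw [hy1, smul_mul_assoc, add_mul, Finset.sum_mul]
          refine hd_smul _ (hd_add (hs b) (hd_sum fun a _ => ?_))
          rw [smul_mul_assoc]
          exact hd_smul _ (hd.deg a b)
        have h2 : c⁻¹ * (s b + ∑ a, (-s a) * (if a = b then 1 else 0)) = 0 := by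
          rw [Finset.sum_eq_single b]
          · rw [if_pos rfl]; ring
          · intro a _ ha; rw [if_neg ha, mul_zero]
          · intro h; exact absurd (Finset.mem_univ _) h
        rwa [h2] at h1
      refine ⟨Fin.cons x1 z, Fin.cons y1 z', ?_, ?_, ?_⟩
      · intro a
        refine Fin.cases ?_ (fun a => ?_) a
        · exact hx1A
        · exact hd.mem a
      · intro a
        refine Fin.cases ?_ (fun a => ?_) a
        · exact hy1B
        · exact hd.mem' a
      · intro a b
        refine Fin.cases ?_ (fun a => ?_) a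
        · refine Fin.cases ?_ (fun b => ?_) b
          · rw [if_pos rfl]; exact hy1x
          · rw [if_neg (Fin.succ_ne_zero b).symm]; exact hy1z b
        · refine Fin.cases ?_ (fun b => ?_) b
          · rw [if_neg (Fin.succ_ne_zero a)]; exact hx1d a
          · have := hd.deg a b
            simp only [Fin.cons_succ, Fin.succ_inj]
            exact this
  obtain ⟨z, z', hd⟩ := key (Module.finrank W.K (W.H F) + 1)
  have hli : LinearIndependent W.K (fun a => R.cl (z a)) := by
    rw [Fintype.linearIndependent_iff]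
    intro c hc b
    have h1 : W.tr F (R.cl (z' b) * ∑ a, c a • R.cl (z a)) = 0 := by rw [hc, mul_zero, map_zero]
    rw [Finset.mul_sum, map_sum, Finset.sum_eq_single b] at h1
    · rw [mul_smul_comm, map_smul, ← map_mul, htr (hd.deg b b), if_pos rfl, Rat.cast_one,
        smul_eq_mul, mul_one] at h1
      exact h1
    · intro a _ ha
      rw [mul_smul_comm, map_smul, ← map_mul, htr (hd.deg b a), if_neg (Ne.symm ha),
        Rat.cast_zero, smul_zero]
    · intro h; exact absurd (Finset.mem_univ _) h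
  have := hli.fintype_card_le_finrank
  rw [Fintype.card_fin] at this
  omega

end weil

end Pool.Agent.Y106.CK
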